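import Mathlib
import Pool.Graph.R_pool_sql_team_seeded_1e53cb71.Helper23K9.LR.Main
import Pool.Graph.R_pool_sql_team_seeded_1e53cb71.Helper23K9.LR.Pex

/-!
# Project LFR: every finite-dimensional normed space of dimension at least two is Lipschitz-free rigid

Base definitions.  `LK K f` (library): `f x - f y ≤ K * dist x y` for all `x y`.
`Rel M` (library): the relation `R f (U f)` modulo constants of a surjective linear isometry `U` of the
space of Lipschitz functions, continuous for bounded pointwise convergence in both directions.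
-/

set_option autoImplicit false

open MeasureTheory Set Filter Topology
open Pool.Agent.Helper23K9.LR

namespace Pool.Agent.H273.LFR

/-- A linear functional on the Lipschitz functions, sequentially continuous for bounded pointwise
convergence modulo constants. -/
structure Fct (M : Type*) [PseudoMetricSpace M] where
  a : (M → ℝ) → ℝ
  lin : ∀ {f g : M → ℝ}, (∃ K, LK K f) → (∃ K, LK K g) → ∀ s t : ℝ,
    a (fun x => s * f x + t * g x) = s * a f + t * a g
  cont : ∀ (f : ℕ → M → ℝ) (f0 : M → ℝ) (K : ℝ), (∀ n, LK K (f n)) →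
    (∀ x y, Tendsto (fun n => f n x - f n y) atTop (𝓝 (f0 x - f0 y))) →
    Tendsto (fun n => a (f n)) atTop (𝓝 (a f0))

section fct
variable {M : Type*} [PseudoMetricSpace M] (α : Fct M)

/-- pointwise limits of `K`-Lipschitz functions modulo constants -/
lemma LK_of_tendsto {f : ℕ → M → ℝ} {f0 : M → ℝ} {K : ℝ} (hK : ∀ n, LK K (f n))
    (h : ∀ x y, Tendsto (fun n => f n x - f n y) atTop (𝓝 (f0 x - f0 y))) : LK K f0 :=
  fun x y => le_of_tendsto' (h x y) (fun n => hK n x y)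

namespace Fct
variable {α} {f g : M → ℝ}

lemma congr (hf : ∃ K, LK K f) (h : ∀ x y, f x - f y = g x - g y) : α.a f = α.a g := by
  obtain ⟨K, hK⟩ := hf
  have h1 := α.cont (fun _ => f) g K (fun _ => hK) (fun x y => by
    rw [← h x y]; exact tendsto_const_nhds)
  exact tendsto_nhds_unique tendsto_const_nhds h1

lemma add (hf : ∃ K, LK K f) (hg : ∃ K, LK K g) : α.a (fun x => f x + g x) = α.a f + α.a g := by
  have := α.lin hf hg 1 1
  simpa using this

lemma sub (hf : ∃ K, LK K f) (hg : ∃ K, LK K g) : α.a (fun x => f x - g x) = α.a f - α.a g := by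
  have := α.lin hf hg 1 (-1)
  simpa [sub_eq_add_neg] using this

lemma smul (hf : ∃ K, LK K f) (s : ℝ) : α.a (fun x => s * f x) = s * α.a f := by
  have := α.lin hf hf s 0
  simpa using this

lemma neg (hf : ∃ K, LK K f) : α.a (fun x => - f x) = - α.a f := by
  have := α.smul hf (-1)
  simpa using this

lemma zero : α.a (fun _ => (0 : ℝ)) = 0 := by
  have hf : ∃ K, LK K (fun _ : M => (0 : ℝ)) := ⟨0, fun x y => by simp⟩
  have := α.smul hf 0
  simpa using this

lemma const (c : ℝ) : α.a (fun _ => c) = 0 := by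
  have hf : ∃ K, LK K (fun _ : M => c) := ⟨0, fun x y => by simp⟩
  rw [α.congr hf (g := fun _ => 0) (fun x y => by simp), α.zero]

end Fct
end fct

section op
variable {M : Type*} [PseudoMetricSpace M]

open Classical in
/-- a chosen image `U f` of a Lipschitz function `f` -/
noncomputable def op (S : Rel M) (f : M → ℝ) : M → ℝ :=
  if h : ∃ K, LK K f then Classical.choose (S.tot f h) else f

lemma R_op (S : Rel M) {f : M → ℝ} (h : ∃ K, LK K f) : S.R f (op S f) := by
  unfold op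
  rw [dif_pos h]
  exact Classical.choose_spec (S.tot f h)

/-- the functional `f ↦ γ (U f)` -/
noncomputable def Fct.comp (γ : Fct M) (S : Rel M) : Fct M where
  a f := γ.a (op S f)
  lin := by
    intro f g hf hg s t
    have h1 := R_op S hf
    have h2 := R_op S hg
    have hfg : ∃ K, LK K (fun x => s * f x + t * g x) := by
      obtain ⟨K, hK⟩ := hf
      obtain ⟨L, hL⟩ := hg
      exact ⟨_, (hK.const_mul s).add (hL.const_mul t)⟩
    have h3 := R_op S hfg
    have h4 := S.lin h1 h2 s t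
    have hl1 : ∃ K, LK K (op S f) := by
      obtain ⟨K, hK⟩ := hf
      exact ⟨K, (S.iso h1 K).1 hK⟩
    have hl2 : ∃ K, LK K (op S g) := by
      obtain ⟨K, hK⟩ := hg
      exact ⟨K, (S.iso h2 K).1 hK⟩
    have hl3 : ∃ K, LK K (op S (fun x => s * f x + t * g x)) := by
      obtain ⟨K, hK⟩ := hfg
      exact ⟨K, (S.iso h3 K).1 hK⟩
    rw [← γ.lin hl1 hl2 s t]
    exact γ.congr hl3 (fun x y => Rel.uniq h3 h4 x y)
  cont := by
    intro f f0 K hK h
    have hf0 : LK K f0 := LK_of_tendsto hK h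
    have h1 : ∀ n, S.R (f n) (op S (f n)) := fun n => R_op S ⟨K, hK n⟩
    have h2 : S.R f0 (op S f0) := R_op S ⟨K, hf0⟩
    exact γ.cont _ _ K (fun n => (S.iso (h1 n) K).1 (hK n)) (S.cont _ _ _ _ K h1 hK h2 h)

lemma Fct.comp_a (γ : Fct M) (S : Rel M) {f g : M → ℝ} (h : S.R f g) : (γ.comp S).a f = γ.a g := by
  show γ.a (op S f) = γ.a g
  have h1 := R_op S (S.lip h)
  obtain ⟨K, hK⟩ := S.lip h
  exact γ.congr ⟨K, (S.iso h1 K).1 hK⟩ (fun x y => Rel.uniq h1 h x y)

end op

section exposed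
variable {E : Type*} [NormedAddCommGroup E] [NormedSpace ℝ E]

/-- `v` is an exposed direction with exposing functional `ξ` (quantitative form; in finite dimension it
follows from `‖v‖ = ‖ξ‖ = ξ v = 1` and: `‖u‖ ≤ 1`, `ξ u = 1` imply `u = v`). -/
def Exposed (v : E) (ξ : E →L[ℝ] ℝ) : Prop :=
  ‖v‖ = 1 ∧ ‖ξ‖ = 1 ∧ ξ v = 1 ∧ ∀ δ L : ℝ, 0 < δ → ∃ η : ℝ, 0 < η ∧
    ∀ ζ : E →L[ℝ] ℝ, δ ≤ ζ v → ‖ζ‖ ≤ L → ‖ξ - η • ζ‖ ≤ 1

/-- `E` has a finite basis of exposed directions. -/
def HasExp (E : Type*) [NormedAddCommGroup E] [NormedSpace ℝ E] : Prop :=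
  ∃ (n : ℕ) (b : Module.Basis (Fin n) ℝ E), ∀ i, ∃ ξ : E →L[ℝ] ℝ, Exposed (b i) ξ

/-- Disjointness preservation: `f₁ f₂ = 0` implies that almost everywhere one of the gradients of
`U f₁`, `U f₂` vanishes. -/
def DP [MeasurableSpace E] (μ : Measure E) (S : Rel E) : Prop :=
  ∀ f₁ f₂ g₁ g₂ : E → ℝ, S.R f₁ g₁ → S.R f₂ g₂ → (∀ x, f₁ x * f₂ x = 0) →
    ∀ᵐ y ∂μ, fderiv ℝ g₁ y = 0 ∨ fderiv ℝ g₂ y = 0

/-- `θ` is the level function of the pair `(L, ℓ)`, `U L = ℓ`: the gradient of `U (max (L - t) 0)` is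
`ℓ` where `t < θ (ℓ y)` and `0` where `θ (ℓ y) < t`. -/
def IsTheta [MeasurableSpace E] (μ : Measure E) (S : Rel E) (ℓ : E →L[ℝ] ℝ) (L : E → ℝ)
    (θ : ℝ → ℝ) : Prop :=
  Measurable θ ∧ ∀ (t : ℝ) (H : E → ℝ), S.R (fun x => Rel.hinge t (L x)) H →
    ∀ᵐ y ∂μ, (t < θ (ℓ y) → fderiv ℝ H y = ℓ) ∧ (θ (ℓ y) < t → fderiv ℝ H y = 0)

end exposed

end Pool.Agent.H273.LFR
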