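import Mathlib
import Pool.Agent.H273.LFR.Base

/-!
# Statements of the subtasks of project LFR

Conventions: `E` is a finite-dimensional real normed space with Borel sets, `μ` an additive Haar measure,
`∂_v g (y) = lineDeriv ℝ g y v`.  All the functions are Lipschitz: `LK K f`
(`LK.lipschitz : LK K f → LipschitzWith K.toNNReal f`).
Useful in Mathlib: `Mathlib/Analysis/Calculus/Rademacher.lean` (`LipschitzWith.ae_differentiableAt`,
`LipschitzWith.ae_lineDifferentiableAt`, `LipschitzWith.integral_lineDeriv_mul_eq`,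
`LipschitzWith.integral_inv_smul_sub_mul_tendsto_integral_lineDeriv_mul`), `LineDeriv/Measurable.lean`
(`measurable_lineDeriv`, `aemeasurable`..), `norm_lineDeriv_le_of_lipschitz`,
`ContDiffBump` mollifiers (`ContDiffBump.convolution_tendsto_right_of_continuous`,
`ContDiffBump.ae_convolution_tendsto_right_of_locallyIntegrable`), `ae_comp_linearMap_mem_iff`
(`Measure/Haar/Disintegration.lean`: null sets under surjective linear maps).
-/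

set_option autoImplicit false

open MeasureTheory Set Filter Topology
open Pool.Agent.Helper23K9.LR
open scoped ContDiff BoundedContinuousFunction

namespace Pool.Agent.H273.LFR

/-- **WEAK.** Weak-* convergence of directional derivatives.
Proof. Given `ε > 0` choose `φ` smooth (or Lipschitz) with compact support and `∫ |1_D - φ| < ε` (for bounded `D`
mollify the indicator; in general first cut `D` by a large ball).  Then
`|∫_D ∂_v g_n - ∫ φ ∂_v g_n| ≤ ε L ‖v‖` and `∫ φ ∂_v g_n = ∫ ∂_{-v} φ · g_n = ∫ ∂_{-v} φ · (g_n - g_n 0)`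
(`LipschitzWith.integral_lineDeriv_mul_eq`, and `∫ ∂_{-v} φ = 0`), which converges by dominated convergence
(`|g_n y - g_n 0| ≤ L ‖y‖`, `φ` has compact support). -/
def S_WEAK : Prop := ∀ (E : Type) [NormedAddCommGroup E] [NormedSpace ℝ E] [FiniteDimensional ℝ E]
  [MeasurableSpace E] [BorelSpace E] (μ : Measure E) [μ.IsAddHaarMeasure]
  (g : ℕ → E → ℝ) (g0 : E → ℝ) (L : ℝ), (∀ n, LK L (g n)) →
  (∀ x y, Tendsto (fun n => g n x - g n y) atTop (𝓝 (g0 x - g0 y))) →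
  ∀ (v : E) (D : Set E), MeasurableSet D → μ D ≠ ⊤ →
  Tendsto (fun n => ∫ y in D, lineDeriv ℝ (g n) y v ∂μ) atTop (𝓝 (∫ y in D, lineDeriv ℝ g0 y v ∂μ))

/-- **MOLL.** Mollification of a Lipschitz function.  Proof: the library file
`Pool/Graph/R_pool_sql_team_seeded_1e53cb71/Helper23K9/LR/Ridge.lean`, lemma `NN_compact`, contains it. -/
def S_MOLL : Prop := ∀ (E : Type) [NormedAddCommGroup E] [NormedSpace ℝ E] [FiniteDimensional ℝ E]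
  (f : E → ℝ) (K : ℝ), LK K f →
  ∃ g : ℕ → E → ℝ, (∀ n, ContDiff ℝ ∞ (g n)) ∧ (∀ n, LK K (g n)) ∧
    ∀ x, Tendsto (fun n => g n x) atTop (𝓝 (f x))

/-- **ANTI.** Antiderivative in the direction `v`.
Proof. `p y = ∫ s in Iic 0, w (y + s • v)`.  For `‖y‖ ≤ r` only `s` in a fixed compact interval
`[-A_r, 0]` matters (`w` has compact support, `v ≠ 0`), so `p` is `C¹` (differentiate under the integral,
`hasFDerivAt_integral_of_dominated_of_fderiv_le` or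
`contDiff` of parametric integrals over a compact interval on each ball).  `p (y + t v) = ∫ s in Iic t, w (y + s v)`,
hence `∂_v p = w`.  Lipschitz: `w` is `K`-Lipschitz and `s ↦ w (y + s v)` vanishes outside an interval of length
at most `2 R / ‖v‖` (support of `w` in the ball of radius `R`), hence
`|p y - p y'| ≤ (4 R / ‖v‖) K ‖y - y'‖`.  (It is enough to have `ContDiff ℝ 1 p`.) -/
def S_ANTI : Prop := ∀ (E : Type) [NormedAddCommGroup E] [NormedSpace ℝ E] [FiniteDimensional ℝ E]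
  (v : E) (w : E → ℝ), v ≠ 0 → ContDiff ℝ ∞ w → HasCompactSupport w →
  ∃ p : E → ℝ, ContDiff ℝ 1 p ∧ (∃ K, LK K p) ∧ ∀ y, lineDeriv ℝ p y v = w y

/-- **PAIR.** Mollification with control of the negative part of the directional derivative.
Proof. `w = max (- ∂_v q) 0` is bounded, measurable, has compact support, and vanishes a.e. on `D`.  With
mollifiers `ρ_n` (`ContDiffBump` with `rOut ≤ 2 rIn`, `rOut → 0`, `normed μ`) put `q_n = ρ_n ⋆ q`,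
`w_n = ρ_n ⋆ w`.  `∂_v q_n = ρ_n ⋆ ∂_v q` (difference quotients: dominated convergence, `q` is Lipschitz and
line differentiable a.e.) `≥ - w_n`.  `w_n → w` a.e.
(`ContDiffBump.ae_convolution_tendsto_right_of_locallyIntegrable`), `|w_n| ≤ K ‖v‖`, hence
`∫_D w_n → ∫_D w = 0` by dominated convergence. -/
def S_PAIR : Prop := ∀ (E : Type) [NormedAddCommGroup E] [NormedSpace ℝ E] [FiniteDimensional ℝ E]
  [MeasurableSpace E] [BorelSpace E] (μ : Measure E) [μ.IsAddHaarMeasure]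
  (v : E) (q : E → ℝ) (K : ℝ), LK K q → HasCompactSupport q →
  ∀ D : Set E, MeasurableSet D → μ D ≠ ⊤ → (∀ᵐ y ∂μ, y ∈ D → 0 ≤ lineDeriv ℝ q y v) →
  ∃ qn wn : ℕ → E → ℝ, (∀ n, ContDiff ℝ ∞ (qn n)) ∧ (∀ n, LK K (qn n)) ∧
    (∀ x, Tendsto (fun n => qn n x) atTop (𝓝 (q x))) ∧
    (∀ n, ContDiff ℝ ∞ (wn n)) ∧ (∀ n, HasCompactSupport (wn n)) ∧ (∀ n y, 0 ≤ wn n y) ∧
    (∀ n y, 0 ≤ lineDeriv ℝ (qn n) y v + wn n y) ∧
    Tendsto (fun n => ∫ y in D, wn n y ∂μ) atTop (𝓝 0)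

/-- **POS.** (assume `S_ANTI` and `S_PAIR`)
Proof. (1) Reduction to compact support: subtract `q 0` (`Fct.congr`), wlog `K > 0`.  Put
`h_n x = max (2 K n - K ‖x‖) 0`, `q_n = max (min q h_n) (-h_n)`; then `LK K q_n`, compact support,
`q_n = q` on the ball of radius `n` (so `∂_v q_n = ∂_v q ≥ 0` a.e. on `D` for large `n` because `D` is bounded),
`q_n → q` pointwise, so `α q_n → α q`.  (See the proof of `NN_all` in the library file `LR/Ridge.lean`.)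
(2) For `q` with compact support take `q_n, w_n` from PAIR and `p_n` with `∂_v p_n = w_n` from ANTI.
`q_n + p_n` is `C¹`, Lipschitz and `∂_v (q_n + p_n) ≥ 0`, so `0 ≤ α (q_n + p_n) = α q_n + α p_n ≤
α q_n + ∫_D w_n`.  Let `n → ∞`. -/
def S_POS : Prop := ∀ (E : Type) [NormedAddCommGroup E] [NormedSpace ℝ E] [FiniteDimensional ℝ E]
  [MeasurableSpace E] [BorelSpace E] (μ : Measure E) [μ.IsAddHaarMeasure]
  (v : E), v ≠ 0 → ∀ D : Set E, MeasurableSet D → Bornology.IsBounded D → ∀ α : Fct E,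
  (∀ p : E → ℝ, ContDiff ℝ 1 p → (∃ K, LK K p) → (∀ y, 0 ≤ lineDeriv ℝ p y v) →
    0 ≤ α.a p ∧ α.a p ≤ ∫ y in D, lineDeriv ℝ p y v ∂μ) →
  ∀ (q : E → ℝ) (K : ℝ), LK K q → (∀ᵐ y ∂μ, y ∈ D → 0 ≤ lineDeriv ℝ q y v) → 0 ≤ α.a q

/-- **HB.** Hahn-Banach extension of a functional from gradients to all bounded continuous covector fields.
Proof. `W = {G | ∃ f, ∀ x, HasFDerivAt f (G x) x}` is a subspace of `E →ᵇ (E →L[ℝ] ℝ)`; `f` is unique up to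
constants and `LK ‖G‖ f` (mean value inequality, `Convex.norm_image_sub_le_of_norm_hasFDerivWithin_le`).
`φ G = γ.a f` (chosen `f`) is linear on `W` (`Fct.congr`, `Fct.lin`) and `|φ G| ≤ N ‖G‖` (scale; if `‖G‖ = 0` then
`f` is constant).  Note `0 = γ.a 0 ≤ N`.  Extend by `Real.exists_extension_norm_eq` (or `exists_extension_norm_eq`). -/
def S_HB : Prop := ∀ (E : Type) [NormedAddCommGroup E] [NormedSpace ℝ E] [FiniteDimensional ℝ E]
  (γ : Fct E) (N : ℝ), (∀ f : E → ℝ, LK 1 f → γ.a f ≤ N) →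
  ∃ Λ : (E →ᵇ (E →L[ℝ] ℝ)) →L[ℝ] ℝ, (∀ G, |Λ G| ≤ N * ‖G‖) ∧
    ∀ (f : E → ℝ) (G : E →ᵇ (E →L[ℝ] ℝ)), (∀ x, HasFDerivAt f (G x) x) → Λ G = γ.a f

/-- **CUT.** The cut-off functional.  `χ` smooth with compact support, `0 ≤ χ ≤ 1`.
Define `γ₁ f = γ (χ (f - f 0)) - Λ ((f - f 0) ∇χ)` for Lipschitz `f`; here `(f - f 0) ∇χ` is bounded and
continuous because `∇χ = fderiv ℝ χ` is continuous with compact support.
Linear: clear (`χ (f - f 0)` is Lipschitz: it is supported in the compact `tsupport χ` where `|f - f 0| ≤ K R`).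
Continuity: if `LK K (f n)` and `f n x - f n y → f0 x - f0 y` then `h_n = f n - f n 0 → h = f0 - f0 0` pointwise and,
being equi-Lipschitz, uniformly on the compact set `tsupport χ`, so `h_n ∇χ → h ∇χ` in `E →ᵇ _`, and
`χ h_n → χ h` pointwise with uniform Lipschitz constants.
Properties: (a) for `f` of class `C¹` and Lipschitz, `γ₁ f = Λ (χ ∇f)` (because `∇(χ (f - f 0)) = χ ∇f + (f - f 0) ∇χ`
is a bounded continuous gradient, so `γ (χ (f - f 0)) = Λ (χ ∇f) + Λ ((f - f 0) ∇χ)`).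
(b) for `f, g` with `LK 1`: `γ₁ f + γ g - γ₁ g ≤ N`: for `C¹` functions it is `Λ (χ ∇f + (1 - χ) ∇g) ≤ N` by (a) and
`‖χ ∇f + (1 - χ) ∇g‖ ≤ 1`; in general mollify `f` and `g` (MOLL) and use continuity.
(c) if `f ∇χ = 0` (pointwise) and `χ f = f` then `γ₁ f = γ f`: `γ₁ f = γ f - f 0 (γ χ - Λ ∇χ) = γ f`.
(d) if `f ∇χ = 0` and `χ f = 0` then `γ₁ f = 0` in the same way.
(assume `S_MOLL` and `S_HB`). -/
def S_CUT : Prop := ∀ (E : Type) [NormedAddCommGroup E] [NormedSpace ℝ E] [FiniteDimensional ℝ E]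
  (γ : Fct E) (N : ℝ), (∀ f : E → ℝ, LK 1 f → γ.a f ≤ N) →
  ∀ χ : E → ℝ, ContDiff ℝ ∞ χ → HasCompactSupport χ → (∀ x, 0 ≤ χ x ∧ χ x ≤ 1) →
  ∃ γ₁ : Fct E, (∀ f g : E → ℝ, LK 1 f → LK 1 g → γ₁.a f + (γ.a g - γ₁.a g) ≤ N) ∧
    (∀ f : E → ℝ, (∃ K, LK K f) → (∀ x, f x • fderiv ℝ χ x = 0) → (∀ x, χ x * f x = f x) → γ₁.a f = γ.a f) ∧
    (∀ f : E → ℝ, (∃ K, LK K f) → (∀ x, f x • fderiv ℝ χ x = 0) → (∀ x, χ x * f x = 0) → γ₁.a f = 0)

/-- **CHI.** Smooth cut-off.  `exists_contMDiffMap_one_nhds_of_subset_interior` /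
`exists_contDiff_tsupport_subset` / `exists_smooth_one_nhds...`. Choose a compact neighbourhood `t` of
`tsupport f₁` contained in the open set `(tsupport f₂)ᶜ`. -/
def S_CHI : Prop := ∀ (E : Type) [NormedAddCommGroup E] [NormedSpace ℝ E] [FiniteDimensional ℝ E]
  (f₁ f₂ : E → ℝ), HasCompactSupport f₁ → Disjoint (tsupport f₁) (tsupport f₂) →
  ∃ χ : E → ℝ, ContDiff ℝ ∞ χ ∧ HasCompactSupport χ ∧ (∀ x, 0 ≤ χ x ∧ χ x ≤ 1) ∧
    (∀ᶠ x in 𝓝ˢ (tsupport f₁), χ x = 1) ∧ Disjoint (tsupport χ) (tsupport f₂)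

/-- **SPLIT.** (assume `S_CUT`, `S_CHI`): `γ₂ = γ - γ₁`. -/
def S_SPLIT : Prop := ∀ (E : Type) [NormedAddCommGroup E] [NormedSpace ℝ E] [FiniteDimensional ℝ E]
  (γ : Fct E) (N : ℝ), (∀ f : E → ℝ, LK 1 f → γ.a f ≤ N) →
  ∀ f₁ f₂ : E → ℝ, (∃ K, LK K f₁) → (∃ K, LK K f₂) → HasCompactSupport f₁ →
  Disjoint (tsupport f₁) (tsupport f₂) →
  ∃ γ₁ γ₂ : Fct E, (∀ f : E → ℝ, (∃ K, LK K f) → γ₁.a f + γ₂.a f = γ.a f) ∧
    (∀ f g : E → ℝ, LK 1 f → LK 1 g → γ₁.a f + γ₂.a g ≤ N) ∧ γ₁.a f₁ = γ.a f₁ ∧ γ₁.a f₂ = 0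

/-- **SETF.** The functional `g ↦ ∫_D ∂_v g` (assume `S_WEAK` for the continuity; linearity: Rademacher,
`LipschitzWith.ae_lineDifferentiableAt` + `HasLineDerivAt`). -/
def S_SETF : Prop := ∀ (E : Type) [NormedAddCommGroup E] [NormedSpace ℝ E] [FiniteDimensional ℝ E]
  [MeasurableSpace E] [BorelSpace E] (μ : Measure E) [μ.IsAddHaarMeasure]
  (v : E) (D : Set E), MeasurableSet D → μ D ≠ ⊤ →
  ∃ γ : Fct E, ∀ g : E → ℝ, γ.a g = ∫ y in D, lineDeriv ℝ g y v ∂μ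

/-- **KL1.** The key lemma (assume `S_SPLIT`, `S_SETF`, `S_POS`).
Proof. Suppose not.  Replacing `f₁` by `-f₁`, `f₂` by `-f₂` (`Rel.neg`) we may assume that
`μ {∂_v g₁ > 0 ∧ ∂_v g₂ > 0} > 0`; so there are `c > 0` and a bounded measurable `D` with `μ D > 0` and
`∂_v g₁ ≥ c`, `∂_v g₂ ≥ c` on `D`.  Let `γ₀ g = ∫_D ∂_v g` (SETF), `γ = γ₀.comp S`, so `γ.a f = ∫_D ∂_v (U f)`, and
`γ.a f ≤ N := μ D` for `LK 1 f` (`|∂_v g| ≤ K ‖v‖`, `‖v‖ = 1`).  Take `γ₁, γ₂` from SPLIT and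
`α_j = γ_j.comp S.symm` (`α_j.a (U f) = γ_j.a f`, `Fct.comp_a`).  Then
(i) `α₁ k + α₂ k = ∫_D ∂_v k` for Lipschitz `k`; (ii) `α₁ f + α₂ g ≤ N` for `LK 1 f`, `LK 1 g`;
(iii) `α₁ ξ + α₂ ξ = ∫_D ξ v = N`.  From (ii), (iii): `α₁ f ≤ N - α₂ ξ = α₁ ξ` for `LK 1 f`, same for `α₂`.
(iv) If `p` is `C¹` and Lipschitz and `∂_v p ≥ 0` then `α_j p ≥ 0`: for `δ > 0` let `p' = p + δ ξ`, `L' = K + δ`,
take `η > 0` from `Exposed` (for `δ`, `L'`); `‖ξ - η ∇p'(y)‖ ≤ 1` for all `y`, so `LK 1 (ξ - η p')`, so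
`α_j ξ - η α_j p' ≤ α_j ξ`, `α_j p' ≥ 0`, i.e. `α_j p + δ α_j ξ ≥ 0`; let `δ → 0`.
(v) Hence `0 ≤ α₁ p ≤ α₁ p + α₂ p = ∫_D ∂_v p` for such `p`: the hypothesis of POS for `α₁`.
(vi) POS for `q = g₂ - c ξ` gives `α₁ g₂ ≥ c α₁ ξ`.  But `α₁ g₂ = γ₁ f₂ = 0`.  So `α₁ ξ ≤ 0`, so `α₁ f ≤ 0` for all
`LK 1 f`, so `α₁ = 0` on all Lipschitz functions (`±`, scaling), but `α₁ g₁ = γ₁ f₁ = γ f₁ = ∫_D ∂_v g₁ ≥ c μ D > 0`. -/
def S_KL1 : Prop := ∀ (E : Type) [NormedAddCommGroup E] [NormedSpace ℝ E] [FiniteDimensional ℝ E]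
  [MeasurableSpace E] [BorelSpace E] (μ : Measure E) [μ.IsAddHaarMeasure] (S : Rel E)
  (v : E) (ξ : E →L[ℝ] ℝ), Exposed v ξ → ∀ f₁ f₂ g₁ g₂ : E → ℝ, S.R f₁ g₁ → S.R f₂ g₂ →
  HasCompactSupport f₁ → Disjoint (tsupport f₁) (tsupport f₂) →
  ∀ᵐ y ∂μ, lineDeriv ℝ g₁ y v * lineDeriv ℝ g₂ y v = 0

/-- **DENS.** A pure measure-theoretic lemma.
Proof. Suppose `μ D > 0`; let `y₀` be a density point
(`Besicovitch.ae_tendsto_measure_inter_div`: `μ (D ∩ B(y₀,r)) / μ (B(y₀,r)) → 1`).  Let `v*, w*` be continuous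
functionals with `v* v = 1, v* w = 0, w* v = 0, w* w = 1`.  Let `φ ≥ 0` be smooth, supported in the unit ball,
`∫ φ > 0`.  Let `G` be Lipschitz (constant `L₀`) with `G = v* · w*` on the unit ball (product of clamped
functionals).  For `r > 0` put `g_r y = r G ((y - y₀)/r)` (`LK L₀`), `φ_r y = φ ((y - y₀)/r)`, and let `k_r` be
the function of the hypothesis, `LK (C L₀) k_r`.  Integration by parts twice (`φ_r` smooth):
`∫ ∂_v k_r ∂_w φ_r = - ∫ k_r ∂_v ∂_w φ_r = ∫ ∂_w k_r ∂_v φ_r`.  On `B(y₀,r)`: `∂_v g_r y = w* ((y - y₀)/r)`, so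
`∫ ∂_v g_r ∂_w φ_r = - r⁻¹ ∫ φ_r = - r^{n-1} ∫ φ`, `n = dim E`.  Hence
`r^{n-1} ∫ φ ≤ ∫_{B(y₀,r) \ D} (|∂_v g_r| + |∂_v k_r|) |∂_w φ_r| + |∂_w k_r| |∂_v φ_r| ≤ C' r⁻¹ μ (B(y₀,r) \ D)`,
i.e. `∫ φ ≤ C' μ(B(y₀,r) \ D) / r^n → 0`, a contradiction.  (Any other proof is fine.) -/
def S_DENS : Prop := ∀ (E : Type) [NormedAddCommGroup E] [NormedSpace ℝ E] [FiniteDimensional ℝ E]
  [MeasurableSpace E] [BorelSpace E] (μ : Measure E) [μ.IsAddHaarMeasure]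
  (v w : E), LinearIndependent ℝ ![v, w] → ∀ D : Set E, MeasurableSet D → ∀ C : ℝ,
  (∀ (g : E → ℝ) (L : ℝ), LK L g → ∃ k : E → ℝ, LK (C * L) k ∧
    ∀ᵐ y ∂μ, y ∈ D → lineDeriv ℝ k y v = lineDeriv ℝ g y v ∧ lineDeriv ℝ k y w = 0) → μ D = 0

/-- **KL2.** (assume `S_KL1`, `S_DENS`, `S_CHI`).
Proof. `D = {∂_v g₁ ≠ 0 ∧ ∂_w g₂ ≠ 0}` (measurable).  Take `χ` from CHI, with support in the ball of radius `R`, `LK M χ`.
For `LK L g` (wlog `0 ≤ L`) take `f` with `S.R f g` (`S.surj`), wlog `f 0 = 0` (`S.congr`), `LK L f`;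
`χ f` is `LK ((1 + M R) L)`; let `k = U (χ f)`, so `U ((1 - χ) f) = g - k`.
KL1 for `w` and the pair `(χ f, f₂)` (`χ f` has compact support disjoint from `tsupport f₂`): `∂_w k = 0` a.e. on `D`.
KL1 for `v` and the pair `(f₁, (1 - χ) f)` (`1 - χ` vanishes near `tsupport f₁`): `∂_v (g - k) = 0` a.e. on `D`,
hence `∂_v k = ∂_v g`.  Now DENS gives `μ D = 0`. -/
def S_KL2 : Prop := ∀ (E : Type) [NormedAddCommGroup E] [NormedSpace ℝ E] [FiniteDimensional ℝ E]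
  [MeasurableSpace E] [BorelSpace E] (μ : Measure E) [μ.IsAddHaarMeasure] (S : Rel E)
  (v w : E) (ξ ζ : E →L[ℝ] ℝ), Exposed v ξ → Exposed w ζ → LinearIndependent ℝ ![v, w] →
  ∀ f₁ f₂ g₁ g₂ : E → ℝ, S.R f₁ g₁ → S.R f₂ g₂ →
  HasCompactSupport f₁ → Disjoint (tsupport f₁) (tsupport f₂) →
  ∀ᵐ y ∂μ, lineDeriv ℝ g₁ y v * lineDeriv ℝ g₂ y w = 0

/-- **DPT.** Disjointness preservation (assume `S_KL1`, `S_KL2`, `S_WEAK`).
Proof. Let `b` be a basis of exposed directions, `v = b i`, `w = b j` (equal or linearly independent).  For `f₁` with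
compact support and `tsupport f₁`, `tsupport f₂` disjoint, `∂_v g₁ ∂_w g₂ = 0` a.e. by KL1/KL2.
General `f₁ f₂ = 0`, `LK K f₁`, `K > 0`: let `s_n r = r - max (min r (1/(n+1))) (-1/(n+1))` (soft threshold),
`h_n x = max (|f₁ 0| + 2 K n - K ‖x‖) 0` and `F_n = max (min (s_n (f₁ x)) (h_n x)) (- h_n x)`.  `LK K F_n`,
`F_n → f₁` pointwise, `F_n` has compact support and `tsupport F_n ⊆ {|f₁| ≥ 1/(n+1)}`, `tsupport f₂ ⊆ {f₁ = 0}`
(closed sets): disjoint.  So `∂_v (U F_n) ∂_w g₂ = 0` a.e.  For each bounded measurable `D ⊆ {∂_w g₂ ≠ 0}`: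
`∫_D ∂_v g₁ = lim ∫_D ∂_v (U F_n) = 0` (`S.cont` and WEAK), so `∂_v g₁ = 0` a.e. on `{∂_w g₂ ≠ 0}`.
Finally at a.e. `y` both `g₁, g₂` are differentiable and `∂_{b i} g₁ y * ∂_{b j} g₂ y = 0` for all `i, j`; so one of
the two derivatives vanishes on the whole basis. -/
def S_DPT : Prop := ∀ (E : Type) [NormedAddCommGroup E] [NormedSpace ℝ E] [FiniteDimensional ℝ E]
  [MeasurableSpace E] [BorelSpace E] (μ : Measure E) [μ.IsAddHaarMeasure] (S : Rel E),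
  HasExp E → DP μ S

/-- **RIDGE.** A Lipschitz function whose gradient is a.e. a multiple of `ℓ` is constant on the level sets of `ℓ`.
(For `ℓ = 0`: a Lipschitz function with a.e. vanishing gradient is constant.)
Proof. Let `w = y - x ∈ ker ℓ`.  `∂_w H = 0` a.e.  For a mollifier `ρ_n`, `H_n = ρ_n ⋆ H` is `C^∞` with
`∂_w H_n = ρ_n ⋆ ∂_w H = 0` everywhere, so `H_n (x + w) = H_n x`; let `n → ∞`.  (Or: by Fubini / `∫ ∂_w H φ = 0` for
all test functions `φ` and `d/dt ∫ H (· + t w) φ = 0`, `LipschitzWith.integral_lineDeriv_mul_eq`.) -/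
def S_RIDGE : Prop := ∀ (E : Type) [NormedAddCommGroup E] [NormedSpace ℝ E] [FiniteDimensional ℝ E]
  [MeasurableSpace E] [BorelSpace E] (μ : Measure E) [μ.IsAddHaarMeasure]
  (ℓ : E →L[ℝ] ℝ) (H : E → ℝ) (K : ℝ), LK K H → (∀ᵐ y ∂μ, ∃ c : ℝ, fderiv ℝ H y = c • ℓ) →
  ∀ x y, ℓ x = ℓ y → H x = H y

/-- **RD.** (assume `S_RIDGE`).  Proof: choose `u` with `ℓ u = 1`, `F s = H (s • u)`, `H y = F (ℓ y)` by RIDGE, `F` is
Lipschitz on the line, `A = {s | DifferentiableAt F s ∧ deriv F s = 1}` (measurable); `F` is differentiable at a.e. `s`, so at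
`ℓ y` for a.e. `y` (`ae_comp_linearMap_mem_iff`), and there `fderiv ℝ H y = deriv F (ℓ y) • ℓ` (chain rule). -/
def S_RD : Prop := ∀ (E : Type) [NormedAddCommGroup E] [NormedSpace ℝ E] [FiniteDimensional ℝ E]
  [MeasurableSpace E] [BorelSpace E] (μ : Measure E) [μ.IsAddHaarMeasure]
  (ℓ : E →L[ℝ] ℝ) (H : E → ℝ) (K : ℝ), ℓ ≠ 0 → LK K H →
  (∀ᵐ y ∂μ, fderiv ℝ H y = 0 ∨ fderiv ℝ H y = ℓ) →
  ∃ A : Set ℝ, MeasurableSet A ∧
    ∀ᵐ y ∂μ, (ℓ y ∈ A → fderiv ℝ H y = ℓ) ∧ (ℓ y ∉ A → fderiv ℝ H y = 0)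

/-- **HD.** Proof: `min (L x - t) 0 = L x - t - hinge t (L x)`, so `U (min (L - t) 0) = ℓ - H` modulo constants, and
`min (L - t) 0 * hinge t' L = 0` for `t ≤ t'`; so a.e. `fderiv (ℓ - H) = 0` or `fderiv H' = 0`.  Same with `t' = t`, `H' = H`
and with `t = t'`, `H = H'`. (`fderiv (ℓ - H) = ℓ - fderiv H` where `H` is differentiable.) -/
def S_HD : Prop := ∀ (E : Type) [NormedAddCommGroup E] [NormedSpace ℝ E] [FiniteDimensional ℝ E]
  [MeasurableSpace E] [BorelSpace E] (μ : Measure E) [μ.IsAddHaarMeasure] (S : Rel E), DP μ S →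
  ∀ (ℓ : E →L[ℝ] ℝ) (L : E → ℝ), S.R L ℓ → ∀ (t t' : ℝ) (H H' : E → ℝ), t ≤ t' →
  S.R (fun x => Rel.hinge t (L x)) H → S.R (fun x => Rel.hinge t' (L x)) H' →
  ∀ᵐ y ∂μ, (fderiv ℝ H y = 0 ∧ fderiv ℝ H' y = 0) ∨ (fderiv ℝ H y = ℓ ∧ fderiv ℝ H' y = 0) ∨
    (fderiv ℝ H y = ℓ ∧ fderiv ℝ H' y = ℓ)

/-- **LIM.** (assume `S_HD`, `S_WEAK`).
Proof. Second claim: `hinge n L → 0` pointwise, `LK K`; `S.cont` gives `H n → const`, WEAK gives
`∫_D ∂_u (H n) → 0` for bounded `D`, where `ℓ u = 1` (case `ℓ ≠ 0`; `ℓ = 0` is trivial by HD).  By HD a.e.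
`∂_u (H n) ∈ {0, 1}`; so the set `D ∩ {∀ n, fderiv (H n) = ℓ}` has measure `≤ ∫_D ∂_u (H n) → 0`.
First claim: the same with `min (L + n) 0 = L + n - hinge (-n) L → 0`, whose image is `ℓ - H' n`. -/
def S_LIM : Prop := ∀ (E : Type) [NormedAddCommGroup E] [NormedSpace ℝ E] [FiniteDimensional ℝ E]
  [MeasurableSpace E] [BorelSpace E] (μ : Measure E) [μ.IsAddHaarMeasure] (S : Rel E), DP μ S →
  ∀ (ℓ : E →L[ℝ] ℝ) (L : E → ℝ), S.R L ℓ →
  (∀ H : ℕ → E → ℝ, (∀ n : ℕ, S.R (fun x => Rel.hinge (-(n : ℝ)) (L x)) (H n)) →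
    ∀ᵐ y ∂μ, ∃ n, fderiv ℝ (H n) y = ℓ) ∧
  (∀ H : ℕ → E → ℝ, (∀ n : ℕ, S.R (fun x => Rel.hinge (n : ℝ) (L x)) (H n)) →
    ∀ᵐ y ∂μ, ∃ n, fderiv ℝ (H n) y = 0)

/-- **THETA.** Existence of the level function (assume `S_HD`, `S_LIM`, `S_RD`).
Proof. For each rational `q` let `H_q` be an image of `hinge q L` and `A_q ⊆ ℝ` the measurable set of RD.  Put
`θ s = sup {q | s ∈ A_q}` (measurable: e.g. `EReal` supremum over the countable set, then `toReal`).  By HD and LIM, for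
a.e. `y`: the set `{q | ℓ y ∈ A_q}` is a down-set of the rationals, nonempty and bounded above (use
`fderiv H_q y = ℓ` iff `ℓ y ∈ A_q`, valid a.e. for all rational `q`; `ℓ ≠ 0`).  Given real `t`, `H`: if `t < θ (ℓ y)` there is
a rational `q > t` with `ℓ y ∈ A_q`, i.e. `fderiv H_q y = ℓ`, and HD for `t < q` gives `fderiv H y = ℓ`.  If
`θ (ℓ y) < t` take a rational `q` with `θ (ℓ y) < q < t`: `ℓ y ∉ A_q`, `fderiv H_q y = 0`, HD gives `fderiv H y = 0`.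
(null sets: countably many rational `q`.) -/
def S_THETA : Prop := ∀ (E : Type) [NormedAddCommGroup E] [NormedSpace ℝ E] [FiniteDimensional ℝ E]
  [MeasurableSpace E] [BorelSpace E] (μ : Measure E) [μ.IsAddHaarMeasure] (S : Rel E), DP μ S →
  ∀ (ℓ : E →L[ℝ] ℝ) (L : E → ℝ), ℓ ≠ 0 → S.R L ℓ → ∃ θ : ℝ → ℝ, IsTheta μ S ℓ L θ

/-- **ODD.** Reflection and scaling of level functions.
Proof. `hinge t (-L) = hinge (-t) L - L - t`, so if `S.R (hinge t (-L)) H` then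
`S.R (hinge (-t) L) (H + ℓ)` modulo constants; `fderiv (H + ℓ) = fderiv H + ℓ` a.e.  Scaling:
`hinge t (r L) = r hinge (t / r) L`. -/
def S_ODD : Prop := ∀ (E : Type) [NormedAddCommGroup E] [NormedSpace ℝ E] [FiniteDimensional ℝ E]
  [MeasurableSpace E] [BorelSpace E] (μ : Measure E) [μ.IsAddHaarMeasure] (S : Rel E)
  (ℓ : E →L[ℝ] ℝ) (L : E → ℝ) (θ : ℝ → ℝ), S.R L ℓ → IsTheta μ S ℓ L θ →
  IsTheta μ S (-ℓ) (fun x => - L x) (fun s => - θ (-s)) ∧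
  ∀ r : ℝ, 0 < r → IsTheta μ S (r • ℓ) (fun x => r * L x) (fun s => r * θ (s / r))

/-- **SUP.** Superadditivity of level functions.
Proof. Let `a, b` be rational.  `h = hinge a L`, `h' = hinge b M`, `f₁ = min h h'`,
`f₂ = min (L + M - (a + b)) 0 = (L + M) - (a + b) - hinge (a+b) (L + M)`.  `f₁ x ≠ 0` implies `L x > a`, `M x > b`, so `f₂ x = 0`:
`f₁ f₂ = 0`.  By DP a.e. `∇U f₁ = 0` or `∇U f₂ = 0`, where `∇U f₂ = ℓ + m - ∇U (hinge (a+b) (L+M))`.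
`min h h' = h - (h - h')₊ = h' - (h' - h)₊` and `(h - h')₊ (h' - h)₊ = 0`; by DP a.e. `∇U (h - h')₊ = 0` or
`∇U (h' - h)₊ = 0`, so a.e. `∇U f₁ = ∇U h` or `∇U f₁ = ∇U h'`.  At a.e. `y` with `a < θ (ℓ y)`, `b < θ' (m y)`:
`∇U h = ℓ ≠ 0`, `∇U h' = m ≠ 0`, so `∇U f₁ ≠ 0`, so `∇U (hinge (a+b) (L+M)) = ℓ + m ≠ 0`, so not
`θ'' (ℓ y + m y) < a + b`.  Now let `a ↑ θ (ℓ y)`, `b ↑ θ' (m y)` through rationals. -/
def S_SUP : Prop := ∀ (E : Type) [NormedAddCommGroup E] [NormedSpace ℝ E] [FiniteDimensional ℝ E]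
  [MeasurableSpace E] [BorelSpace E] (μ : Measure E) [μ.IsAddHaarMeasure] (S : Rel E), DP μ S →
  ∀ (ℓ m : E →L[ℝ] ℝ) (L M : E → ℝ) (θ θ' θ'' : ℝ → ℝ), ℓ ≠ 0 → m ≠ 0 → ℓ + m ≠ 0 →
  S.R L ℓ → S.R M m → IsTheta μ S ℓ L θ → IsTheta μ S m M θ' →
  IsTheta μ S (ℓ + m) (fun x => L x + M x) θ'' →
  ∀ᵐ y ∂μ, θ (ℓ y) + θ' (m y) ≤ θ'' (ℓ y + m y)

/-- **AFF.** (assume `S_ODD`, `S_SUP`).
Proof. SUP for `(ℓ, m)` and for `(-ℓ, -m)` (with ODD: level functions `-θ(-s)` etc.) give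
`θ (ℓ y) + θ' (m y) = θ'' (ℓ y + m y)` a.e.  The map `(ℓ, m) : E → ℝ × ℝ` is onto
(linear independence), so by `ae_comp_linearMap_mem_iff` `θ u + θ' w = θ'' (u + w)` for a.e. `(u, w) ∈ ℝ²`; Fubini
(`Measure.ae_ae_of_ae_prod`, `Measure.ae_ae_comm`) and the library theorem `pexider` (file `LR/Pex.lean`). -/
def S_AFF : Prop := ∀ (E : Type) [NormedAddCommGroup E] [NormedSpace ℝ E] [FiniteDimensional ℝ E]
  [MeasurableSpace E] [BorelSpace E] (μ : Measure E) [μ.IsAddHaarMeasure] (S : Rel E), DP μ S →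
  ∀ (ℓ m : E →L[ℝ] ℝ) (L M : E → ℝ) (θ θ' θ'' : ℝ → ℝ), LinearIndependent ℝ ![ℓ, m] →
  S.R L ℓ → S.R M m → IsTheta μ S ℓ L θ → IsTheta μ S m M θ' →
  IsTheta μ S (ℓ + m) (fun x => L x + M x) θ'' →
  ∃ κ c c' : ℝ, (∀ᵐ u, θ u = κ * u + c) ∧ (∀ᵐ u, θ' u = κ * u + c') ∧ ∀ᵐ u, θ'' u = κ * u + (c + c')

/-- **HNG.** The hinge relation (assume `S_RIDGE`).
Proof. `θ (ℓ y) = κ ℓ y + c` for a.e. `y` (`ae_comp_linearMap_mem_iff`).
`κ ≠ 0`: otherwise for `t < c` a.e. `fderiv H_t = ℓ`, so (`H_t - ℓ` has a.e. zero gradient, RIDGE with `ℓ = 0`)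
`H_t - ℓ` is constant, so `min (L - t) 0` is constant for all `t < c`; and for `t > c`, `H_t` is constant, so `hinge t L`
is constant.  If `hinge t L = C > 0` then `L` is constant, so `ℓ` is constant, contradiction; so `L ≤ t` for all `t > c`; in the
same way `L ≥ t` for all `t < c`; so `L = c` is constant, contradiction with `ℓ ≠ 0` (`Rel.uniq`).
Then for `κ ≠ 0` and an image `H` of `hinge t L` compare with `G y = κ⁻¹ hinge t (κ ℓ y + c)`: a.e.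
(the level set `κ ℓ y + c = t` is null) `fderiv G = ℓ` if `t < κ ℓ y + c` and `0` if `>`.  So `H - G` is constant by RIDGE
(`ℓ = 0`) and `S.congr` gives the claim. -/
def S_HNG : Prop := ∀ (E : Type) [NormedAddCommGroup E] [NormedSpace ℝ E] [FiniteDimensional ℝ E]
  [MeasurableSpace E] [BorelSpace E] (μ : Measure E) [μ.IsAddHaarMeasure] (S : Rel E)
  (ℓ : E →L[ℝ] ℝ) (L : E → ℝ) (θ : ℝ → ℝ) (κ c : ℝ), ℓ ≠ 0 → S.R L ℓ → IsTheta μ S ℓ L θ →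
  (∀ᵐ u, θ u = κ * u + c) →
  κ ≠ 0 ∧ ∀ t : ℝ, S.R (fun x => Rel.hinge t (L x)) (fun y => κ⁻¹ * Rel.hinge t (κ * ℓ y + c))

/-- **LIN.** Pure linear algebra. -/
def S_LIN : Prop := ∀ (V : Type) [AddCommGroup V] [Module ℝ V] [FiniteDimensional ℝ V],
  2 ≤ Module.finrank ℝ V → ∀ (κ c : V → ℝ),
  (∀ (r : ℝ) (x : V), r ≠ 0 → x ≠ 0 → κ (r • x) = κ x ∧ c (r • x) = r * c x) →
  (∀ x y : V, LinearIndependent ℝ ![x, y] → κ x = κ y ∧ c (x + y) = c x + c y) →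
  c 0 = 0 → ∃ (κ₀ : ℝ) (C : V →ₗ[ℝ] ℝ), ∀ x : V, c x = C x ∧ (x ≠ 0 → κ x = κ₀)

/-- **HIN.** All the hinge relations (assume `S_THETA`, `S_ODD`, `S_AFF`, `S_HNG`, `S_LIN`).
Proof. Let `L_ℓ = U⁻¹ ℓ` normalised by `L_ℓ 0 = 0`; it is linear in `ℓ` (`Rel.uniq'`).  For `ℓ ≠ 0` let `θ_ℓ` be a level
function of `(L_ℓ, ℓ)`.  Since `2 ≤ dim`, there is `m` linearly independent of `ℓ`, so AFF gives `θ_ℓ s = κ_ℓ s + c_ℓ` a.e.
(unique numbers).  Level functions are a.e. unique on the range of `ℓ`: if `θ, θ'` are level functions of the same pair then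
`θ = θ'` a.e. (a rational `q` strictly between gives `fderiv H_q = 0 = ℓ`); so ODD gives
`κ_{rℓ} = κ_ℓ`, `c_{rℓ} = r c_ℓ` for `r ≠ 0`, AFF gives `κ_ℓ = κ_m`, `c_{ℓ+m} = c_ℓ + c_m` for linearly independent
`ℓ, m`.  LIN gives `κ` and a linear `C`; HNG gives the relation for `ℓ ≠ 0`; for `ℓ = 0`, `L_0 = 0`, `C 0 = 0`, both functions
are constants. -/
def S_HIN : Prop := ∀ (E : Type) [NormedAddCommGroup E] [NormedSpace ℝ E] [FiniteDimensional ℝ E]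
  [MeasurableSpace E] [BorelSpace E] (μ : Measure E) [μ.IsAddHaarMeasure] (S : Rel E), DP μ S →
  2 ≤ Module.finrank ℝ E →
  ∃ (κ : ℝ) (C : (E →L[ℝ] ℝ) →ₗ[ℝ] ℝ), κ ≠ 0 ∧ ∀ (ℓ : E →L[ℝ] ℝ) (L : E → ℝ), S.R L ℓ → L 0 = 0 →
    ∀ t : ℝ, S.R (fun x => Rel.hinge t (L x)) (fun y => κ⁻¹ * Rel.hinge t (κ * ℓ y + C ℓ))

/-- **SEP.** Hinge functions of functionals separate the free space.
Proof. The library file `LR/Ridge.lean` proves it for inner product spaces (`eq_zero_of_ridge`, via Fourier inversion for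
smooth compactly supported functions).  Repeat the proof with `ℓ y` in place of `⟪x, y⟫`: `ridge_C2`, `NN_compact`,
`NN_all` are the same; for `NN_smooth` transport `f` to `EuclideanSpace ℝ (Fin n)` by a linear equivalence
`e : E ≃L[ℝ] EuclideanSpace ℝ (Fin n)` (`f ∘ e.symm` is smooth with compact support, and
`f y = ∫ v, cos (2π ⟪v, e y⟫) Re - sin (..) Im` is an integral of functions of the functionals `y ↦ ⟪v, e y⟫`). -/
def S_SEP : Prop := ∀ (E : Type) [NormedAddCommGroup E] [NormedSpace ℝ E] [FiniteDimensional ℝ E]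
  (γ : FreeSpace E), (∀ (ℓ : E →L[ℝ] ℝ) (t : ℝ), fn (fun y => Rel.hinge t (ℓ y)) γ = 0) → γ = 0

/-- **FIN.** (assume `S_HIN`, `S_SEP`; apply HIN to `(relOf T).symm`, library `LR/FromT.lean`; compare with
`exists_psi` in the library file `LR/Main.lean`).
Proof. `(relOf T).R f g` means `fn g γ = fn f (T γ)`.  HIN for `(relOf T).symm`: for all `ℓ`, with `L_ℓ` = the image of `ℓ`
under `U` (`(relOf T).R ℓ L_ℓ`, `L_ℓ 0 = 0`): `(relOf T).R (κ⁻¹ hinge t (κ ℓ + C ℓ)) (hinge t L_ℓ)`.  For fixed `p`,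
`ℓ ↦ κ⁻¹ (L_ℓ p - C ℓ)` is linear on the dual, so it is evaluation at a unique point `Ψ p ∈ E` (finite dimension); i.e.
`L_ℓ p = κ ℓ (Ψ p) + C ℓ`.  Then with `f = hinge t (κ ℓ + C ℓ)`:
`fn f (T (mol p q)) = κ (hinge t (L_ℓ p) - hinge t (L_ℓ q)) = κ (f (Ψ p) - f (Ψ q)) = fn f (κ • mol (Ψ p) (Ψ q))`.
As `κ ≠ 0` every hinge function `hinge t' ∘ ℓ'` is of this form (`ℓ = κ⁻¹ ℓ'`, `t = t' + C ℓ`); SEP. -/
def S_FIN : Prop := ∀ (E : Type) [NormedAddCommGroup E] [NormedSpace ℝ E] [FiniteDimensional ℝ E]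
  [MeasurableSpace E] [BorelSpace E] (μ : Measure E) [μ.IsAddHaarMeasure],
  2 ≤ Module.finrank ℝ E → (∀ S : Rel E, DP μ S) → ∀ T : FreeSpace E ≃ₗᵢ[ℝ] FreeSpace E,
  ∃ (κ : ℝ) (Ψ : E → E), κ ≠ 0 ∧ ∀ p q, T (mol p q) = κ • mol (Ψ p) (Ψ q)

/-- **EXPO.** Strictly exposed points are exposed in the quantitative sense.
Proof. Given `δ > 0` and `L` (wlog `L > 0`), the set `K = {u | ‖u‖ ≤ 1 ∧ δ / L ≤ ‖u - v‖}` is compact and does not contain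
`v`, so `ξ < 1` on `K`, so `ξ u ≤ 1 - ε` on `K` for some `ε > 0` (take `ε = 1` if `K` is empty).  Let `η > 0` with
`η L ≤ ε` and `η L ≤ 1`.  Let `δ ≤ ζ v`, `‖ζ‖ ≤ L`, `‖u‖ ≤ 1`.  If `ζ u ≥ 0` then `(ξ - η ζ) u ≤ ξ u ≤ 1`.  If `ζ u < 0`
then `δ ≤ ζ v - ζ u ≤ L ‖u - v‖`, so `u ∈ K`, `(ξ - η ζ) u ≤ 1 - ε + η L ≤ 1`.  Apply it also to `-u`. -/
def S_EXPO : Prop := ∀ (E : Type) [NormedAddCommGroup E] [NormedSpace ℝ E] [FiniteDimensional ℝ E]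
  (v : E) (ξ : E →L[ℝ] ℝ), ‖v‖ = 1 → ‖ξ‖ = 1 → ξ v = 1 → (∀ u : E, ‖u‖ ≤ 1 → ξ u = 1 → u = v) → Exposed v ξ

/-- **EXPA.** Every finite-dimensional normed space has a basis of exposed directions (assume `S_EXPO`).
Proof. (If `E` is trivial, `n = 0`.)  Let `A` be the set of exposed directions and suppose its span `W ≠ ⊤`.  Fix an inner product on
`E` (transport by a linear equivalence `e : E ≃L[ℝ] EuclideanSpace ℝ (Fin n)`, `|x| = ‖e x‖`); let `w ≠ 0` be orthogonal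
to `W` with `‖w‖ ≤ 1`.  For `t > 0` let `v` be a point of the closed unit ball `B` of `E` at maximal distance
`|v + t w|` from `-t w`.  The linear functional `ζ x = ⟪v + t w, x⟫` attains its maximum over `B` only at `v`: if
`x ∈ B` and `ζ x ≥ ζ v` then `⟪v + t w, x + t w⟫ ≥ |v + t w|²` and `|x + t w| ≤ |v + t w|`, so
`x + t w = v + t w` (equality in Cauchy-Schwarz).  Hence `‖v‖ = 1` (maximum of a nonzero functional, `ζ ≠ 0` as `ζ v > 0`...), and `ξ = ζ / ζ v`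
has norm `1`, `ξ v = 1`, and exposes `v`: `v ∈ A ⊆ W`, `⟪v, w⟫ = 0`.  Then `|v + t w|² = |v|² + t² |w|²`, but
`w ∈ B` gives `(1 + t)² |w|² ≤ |v|² + t² |w|²`, i.e. `(1 + 2t) |w|² ≤ |v|² ≤ max_B |·|²`: false for large `t`.  So `A` spans;
extract a basis (`Module.Basis.ofSpan` or `exists_linearIndependent`, finite, reindex by `Fin n`). -/
def S_EXPA : Prop := ∀ (E : Type) [NormedAddCommGroup E] [NormedSpace ℝ E] [FiniteDimensional ℝ E], HasExp E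

/-- **EXP1.** The Manhattan norm (assume `S_EXPO`): the unit vectors are exposed by the coordinate functionals. -/
def S_EXP1 : Prop := ∀ d : ℕ, HasExp (PiLp 1 (fun _ : Fin d => ℝ))

end Pool.Agent.H273.LFR
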