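import Mathlib
import Pool.Agent.H273.LFR.Stm

set_option autoImplicit false

open MeasureTheory Set Filter Topology
open Pool.Agent.Helper23K9.LR

namespace Pool.Agent.H273.LFR

/-- assembly of the final theorem -/
theorem rigid_of (hDPT : S_DPT) (hFIN : S_FIN) (hEXPA : S_EXPA) (E : Type) [NormedAddCommGroup E]
    [NormedSpace ℝ E] [FiniteDimensional ℝ E] (h : 2 ≤ Module.finrank ℝ E) : LipFreeRigid E := by
  let _ : MeasurableSpace E := borel E
  have _ : BorelSpace E := ⟨rfl⟩
  have hnt : Nontrivial E := Module.nontrivial_of_finrank_pos (R := ℝ) (by omega)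
  apply rigid_of_psi
  · intro p
    obtain ⟨q, hq⟩ := exists_ne p
    exact ⟨q, hq.symm⟩
  · intro T
    exact hFIN E Measure.addHaar h (fun S => hDPT E Measure.addHaar S (hEXPA E)) T

theorem manhattan_of (h : ∀ (E : Type) [NormedAddCommGroup E] [NormedSpace ℝ E] [FiniteDimensional ℝ E],
    2 ≤ Module.finrank ℝ E → LipFreeRigid E) (d : ℕ) (hd : 2 ≤ d) :
    LipFreeRigid (PiLp 1 (fun _ : Fin d => ℝ)) := by
  apply h
  have : Module.finrank ℝ (PiLp 1 (fun _ : Fin d => ℝ)) = d := by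
    rw [(WithLp.linearEquiv 1 ℝ (∀ _ : Fin d, ℝ)).finrank_eq]
    simp
  omega

end Pool.Agent.H273.LFR
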