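import Mathlib
import Pool.Agent.H273.LFR.Stm

set_option autoImplicit false

open MeasureTheory Set Filter Topology
open Pool.Agent.Helper23K9.LR

namespace Pool.Agent.H273.LFR

namespace PAFF

variable {E : Type} [NormedAddCommGroup E] [NormedSpace ℝ E]

lemma exists_ker {ℓ m : E →L[ℝ] ℝ} (hℓ : ℓ ≠ 0) (h : ∀ r : ℝ, m ≠ r • ℓ) :
    ∃ x, ℓ x = 0 ∧ m x ≠ 0 := by
  by_contra hcon
  push Not at hcon
  obtain ⟨x0, hx0⟩ : ∃ x, ℓ x ≠ 0 := by
    by_contra hc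
    push Not at hc
    exact hℓ (ContinuousLinearMap.ext hc)
  refine h (m x0 / ℓ x0) (ContinuousLinearMap.ext fun x => ?_)
  have h1 : ℓ (x - (ℓ x / ℓ x0) • x0) = 0 := by
    rw [map_sub, map_smul, smul_eq_mul, div_mul_cancel₀ _ hx0, sub_self]
  have h2 := hcon _ h1
  rw [map_sub, map_smul, smul_eq_mul, sub_eq_zero] at h2
  rw [h2, ContinuousLinearMap.smul_apply, smul_eq_mul]
  ring

/-- The pair of two functionals. -/
def pr (ℓ m : E →L[ℝ] ℝ) : E →ₗ[ℝ] ℝ × ℝ := (ℓ : E →ₗ[ℝ] ℝ).prod (m : E →ₗ[ℝ] ℝ)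

lemma surj {ℓ m : E →L[ℝ] ℝ} (h : LinearIndependent ℝ ![ℓ, m]) :
    Function.Surjective (pr ℓ m) := by
  rw [LinearIndependent.pair_iff] at h
  have hℓ : ℓ ≠ 0 := by
    rintro rfl
    have := (h 1 0 (by simp)).1
    norm_num at this
  have hm : m ≠ 0 := by
    rintro rfl
    have := (h 0 1 (by simp)).2
    norm_num at this
  obtain ⟨x, hx1, hx2⟩ := exists_ker hℓ (m := m) (fun r e => by
    have := (h r (-1) (by rw [e]; simp)).2
    norm_num at this)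
  obtain ⟨y, hy1, hy2⟩ := exists_ker hm (m := ℓ) (fun r e => by
    have := (h (-1) r (by rw [e]; simp)).1
    norm_num at this)
  rintro ⟨s, t⟩
  refine ⟨(s / ℓ y) • y + (t / m x) • x, ?_⟩
  show (ℓ ((s / ℓ y) • y + (t / m x) • x), m ((s / ℓ y) • y + (t / m x) • x)) = (s, t)
  simp only [map_add, map_smul, smul_eq_mul, hx1, hy1, mul_zero, add_zero, zero_add]
  rw [div_mul_cancel₀ _ hy2, div_mul_cancel₀ _ hx2]

end PAFF

theorem t_AFF (h1 : S_ODD) (h2 : S_SUP) : S_AFF := by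
  intro E _ _ _ _ _ μ _ S hDP ℓ m L M θ θ' θ'' hlin hL hM hθ hθ' hθ''
  have hpair := LinearIndependent.pair_iff.mp hlin
  have hℓ : ℓ ≠ 0 := by
    rintro rfl
    have := (hpair 1 0 (by simp)).1
    norm_num at this
  have hm : m ≠ 0 := by
    rintro rfl
    have := (hpair 0 1 (by simp)).2
    norm_num at this
  have hℓm : ℓ + m ≠ 0 := by
    intro e
    have := (hpair 1 1 (by simpa using e)).1
    norm_num at this
  have e1 := h2 E μ S hDP ℓ m L M θ θ' θ'' hℓ hm hℓm hL hM hθ hθ' hθ''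
  have hLn : S.R (fun x => - L x) (-ℓ : E →L[ℝ] ℝ) := Rel.neg hL
  have hMn : S.R (fun x => - M x) (-m : E →L[ℝ] ℝ) := Rel.neg hM
  have hLM : S.R (fun x => L x + M x) (ℓ + m : E →L[ℝ] ℝ) := Rel.add hL hM
  have o1 := (h1 E μ S ℓ L θ hL hθ).1
  have o2 := (h1 E μ S m M θ' hM hθ').1
  have o3 := (h1 E μ S (ℓ + m) (fun x => L x + M x) θ'' hLM hθ'').1
  have ef : (fun x => -(L x + M x)) = fun x => -L x + -M x := by
    funext x; ring
  rw [neg_add, ef] at o3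
  have hℓmn : -ℓ + -m ≠ 0 := by rw [← neg_add]; exact neg_ne_zero.mpr hℓm
  have e2 := h2 E μ S hDP (-ℓ) (-m) (fun x => - L x) (fun x => - M x) _ _ _
    (neg_ne_zero.mpr hℓ) (neg_ne_zero.mpr hm) hℓmn hLn hMn o1 o2 o3
  have e3 : ∀ᵐ y ∂μ, θ'' (ℓ y + m y) = θ (ℓ y) + θ' (m y) := by
    filter_upwards [e1, e2] with y h3 h4
    simp only [ContinuousLinearMap.neg_apply, neg_neg, neg_add_rev] at h4
    rw [add_comm (m y) (ℓ y)] at h4
    linarith
  have hms : MeasurableSet {p : ℝ × ℝ | θ'' (p.1 + p.2) = θ p.1 + θ' p.2} :=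
    measurableSet_eq_fun (hθ''.1.comp (measurable_fst.add measurable_snd))
      ((hθ.1.comp measurable_fst).add (hθ'.1.comp measurable_snd))
  have e4 : ∀ᵐ p : ℝ × ℝ, p ∈ {p : ℝ × ℝ | θ'' (p.1 + p.2) = θ p.1 + θ' p.2} := by
    rw [← ae_comp_linearMap_mem_iff (PAFF.pr ℓ m) μ volume (PAFF.surj hlin) hms]
    exact e3
  have H2 : ∀ᵐ u : ℝ, ∀ᵐ w : ℝ, θ'' (u + w) = θ u + θ' w := Measure.ae_ae_of_ae_prod e4
  have H1 : ∀ᵐ w : ℝ, ∀ᵐ u : ℝ, θ'' (u + w) = θ u + θ' w :=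
    (Measure.ae_ae_comm (μ := (volume : Measure ℝ)) (ν := (volume : Measure ℝ))
      (p := fun u w => θ'' (u + w) = θ u + θ' w) hms).1 H2
  exact pexider θ θ' θ'' hθ'.1 hθ''.1 H1 H2

end Pool.Agent.H273.LFR
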