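import Mathlib
import Pool.Agent.H273.LFR.Stm

set_option autoImplicit false

open MeasureTheory Set Filter Topology Metric
open Pool.Agent.Helper23K9.LR
open scoped ContDiff

namespace Pool.Agent.H273.LFR

namespace PANTI

variable {E : Type} [NormedAddCommGroup E] [NormedSpace ℝ E]

theorem far {v y : E} {R s : ℝ} (h : R + ‖y‖ < |s| * ‖v‖) : R < ‖y + s • v‖ := by
  have h1 : ‖s • v‖ ≤ ‖y + s • v‖ + ‖y‖ := by
    calc ‖s • v‖ = ‖(y + s • v) - y‖ := by congr 1; abel
      _ ≤ _ := norm_sub_le _ _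
  rw [norm_smul, Real.norm_eq_abs] at h1
  linarith

/-- continuous functions of `y + s v` with compact support have compact support in `s` -/
theorem csup {F : Type} [NormedAddCommGroup F] {g : E → F} {v : E} (hv : v ≠ 0) {R : ℝ}
    (hg : ∀ x, R < ‖x‖ → g x = 0) (y : E) : HasCompactSupport (fun s : ℝ => g (y + s • v)) := by
  have hv' : 0 < ‖v‖ := norm_pos_iff.2 hv
  refine HasCompactSupport.intro (isCompact_Icc (a := -((R + ‖y‖) / ‖v‖)) (b := (R + ‖y‖) / ‖v‖)) ?_
  intro s hs
  refine hg _ (far ?_)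
  rw [mem_Icc, ← abs_le, not_le, div_lt_iff₀ hv'] at hs
  exact hs

theorem main (v : E) (w : E → ℝ) (hv : v ≠ 0) (hw : ContDiff ℝ 1 w) (hc : HasCompactSupport w) :
    ∃ p : E → ℝ, ContDiff ℝ 1 p ∧ (∃ K, LK K p) ∧ ∀ y, lineDeriv ℝ p y v = w y := by
  have hv' : 0 < ‖v‖ := norm_pos_iff.2 hv
  have hdw : Continuous (fderiv ℝ w) := hw.continuous_fderiv (by norm_num)
  have hcd : HasCompactSupport (fderiv ℝ w) := hc.fderiv (𝕜 := ℝ)
  obtain ⟨R, hR⟩ : ∃ R, tsupport w ⊆ closedBall 0 R := hc.isCompact.isBounded.subset_closedBall 0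
  have hw0 : ∀ x, R < ‖x‖ → w x = 0 := by
    intro x hx
    by_contra h
    have := hR (subset_tsupport w h)
    rw [mem_closedBall_zero_iff] at this
    linarith
  have hd0 : ∀ x, R < ‖x‖ → fderiv ℝ w x = 0 := by
    intro x hx
    by_contra h
    have := hR (support_fderiv_subset ℝ (f := w) h)
    rw [mem_closedBall_zero_iff] at this
    linarith
  obtain ⟨K, hK⟩ := hdw.bounded_above_of_compact_support hcd
  have hK0 : 0 ≤ K := (norm_nonneg _).trans (hK 0)
  have hln : ∀ y : E, Continuous fun s : ℝ => y + s • v := fun y => by fun_prop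
  have hint : ∀ y, Integrable (fun s : ℝ => w (y + s • v)) := fun y =>
    (hw.continuous.comp (hln y)).integrable_of_hasCompactSupport (csup hv hw0 y)
  have hintd : ∀ y, Integrable (fun s : ℝ => fderiv ℝ w (y + s • v)) := fun y =>
    (hdw.comp (hln y)).integrable_of_hasCompactSupport (csup hv hd0 y)
  -- uniform domination
  have hdom : ∀ y₀ : E, ∀ s : ℝ, ∀ x ∈ ball y₀ 1, ‖fderiv ℝ w (x + s • v)‖ ≤
      (Icc (-((R + (‖y₀‖ + 1)) / ‖v‖)) ((R + (‖y₀‖ + 1)) / ‖v‖)).indicator (fun _ => K) s := by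
    intro y₀ s x hx
    by_cases hs : s ∈ Icc (-((R + (‖y₀‖ + 1)) / ‖v‖)) ((R + (‖y₀‖ + 1)) / ‖v‖)
    · rw [indicator_of_mem hs]
      exact hK _
    · rw [indicator_of_notMem hs]
      have h1 : ‖x‖ ≤ ‖y₀‖ + 1 := by
        rw [mem_ball, dist_eq_norm] at hx
        calc ‖x‖ = ‖(x - y₀) + y₀‖ := by rw [sub_add_cancel]
          _ ≤ ‖x - y₀‖ + ‖y₀‖ := norm_add_le _ _
          _ ≤ _ := by linarith
      rw [mem_Icc, ← abs_le, not_le, div_lt_iff₀ hv'] at hs
      rw [hd0 _ (far (by linarith)), norm_zero]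
  have hbi : ∀ y₀ : E, Integrable ((Icc (-((R + (‖y₀‖ + 1)) / ‖v‖))
      ((R + (‖y₀‖ + 1)) / ‖v‖)).indicator (fun _ => K)) (volume.restrict (Iic (0 : ℝ))) := by
    intro y₀
    refine Integrable.integrableOn ?_
    rw [integrable_indicator_iff measurableSet_Icc]
    exact continuous_const.integrableOn_Icc
  have hder : ∀ y, HasFDerivAt (fun y => ∫ s in Iic (0 : ℝ), w (y + s • v))
      (∫ s in Iic (0 : ℝ), fderiv ℝ w (y + s • v)) y := by
    intro y₀
    refine hasFDerivAt_integral_of_dominated_of_fderiv_le (ball_mem_nhds y₀ one_pos)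
      (F := fun y s => w (y + s • v)) (F' := fun y s => fderiv ℝ w (y + s • v))
      (Eventually.of_forall fun y => (hint y).aestronglyMeasurable.restrict)
      (hint y₀).integrableOn (hintd y₀).aestronglyMeasurable.restrict
      (Eventually.of_forall fun s => hdom y₀ s) (hbi y₀)
      (Eventually.of_forall fun s x _ => ?_)
    have h1 : HasFDerivAt w (fderiv ℝ w (x + s • v)) (x + s • v) :=
      ((hw.differentiable (by norm_num)) _).hasFDerivAt
    have h2 : HasFDerivAt (fun x : E => x + s • v) (ContinuousLinearMap.id ℝ E) x :=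
      (hasFDerivAt_id x).add_const _
    exact h1.comp x h2
  have hfd : fderiv ℝ (fun y => ∫ s in Iic (0 : ℝ), w (y + s • v)) =
      fun y => ∫ s in Iic (0 : ℝ), fderiv ℝ w (y + s • v) := by
    funext y
    exact (hder y).fderiv
  have hcont : Continuous fun y => ∫ s in Iic (0 : ℝ), fderiv ℝ w (y + s • v) := by
    rw [continuous_iff_continuousAt]
    intro y₀
    refine continuousAt_of_dominated
      (Eventually.of_forall fun y => (hintd y).aestronglyMeasurable.restrict)
      (bound := (Icc (-((R + (‖y₀‖ + 1)) / ‖v‖)) ((R + (‖y₀‖ + 1)) / ‖v‖)).indicator (fun _ => K))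
      ?_ (hbi y₀) (Eventually.of_forall fun s => ?_)
    · filter_upwards [ball_mem_nhds y₀ one_pos] with x hx
      exact Eventually.of_forall fun s => hdom y₀ s x hx
    · exact (hdw.comp (by fun_prop)).continuousAt
  have hbd : ∀ y, ‖∫ s in Iic (0 : ℝ), fderiv ℝ w (y + s • v)‖ ≤ K * (2 * (2 * |R| / ‖v‖)) := by
    intro y
    by_cases hex : ∃ s0 : ℝ, ‖y + s0 • v‖ ≤ R
    · obtain ⟨s0, hs0⟩ := hex
      have h1 : ∀ s : ℝ, ‖fderiv ℝ w (y + s • v)‖ ≤
          (closedBall s0 (2 * |R| / ‖v‖)).indicator (fun _ => K) s := by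
        intro s
        by_cases hs : s ∈ closedBall s0 (2 * |R| / ‖v‖)
        · rw [indicator_of_mem hs]
          exact hK _
        · rw [indicator_of_notMem hs]
          rw [mem_closedBall, Real.dist_eq, not_le, div_lt_iff₀ hv'] at hs
          have h2 : ‖(s - s0) • v‖ ≤ ‖y + s • v‖ + ‖y + s0 • v‖ := by
            calc ‖(s - s0) • v‖ = ‖(y + s • v) - (y + s0 • v)‖ := by
                  congr 1; rw [sub_smul]; abel
              _ ≤ _ := norm_sub_le _ _
          rw [norm_smul, Real.norm_eq_abs] at h2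
          have h3 := le_abs_self R
          rw [hd0 _ (by linarith), norm_zero]
      calc ‖∫ s in Iic (0 : ℝ), fderiv ℝ w (y + s • v)‖
          ≤ ∫ s in Iic (0 : ℝ), ‖fderiv ℝ w (y + s • v)‖ := norm_integral_le_integral_norm _
        _ ≤ ∫ s, ‖fderiv ℝ w (y + s • v)‖ :=
            setIntegral_le_integral (hintd y).norm (Eventually.of_forall fun s => norm_nonneg _)
        _ ≤ ∫ s, (closedBall s0 (2 * |R| / ‖v‖)).indicator (fun _ => K) s := by
            refine integral_mono (hintd y).norm ?_ h1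
            rw [integrable_indicator_iff measurableSet_closedBall]
            exact integrableOn_const (by rw [Real.volume_closedBall]; exact ENNReal.ofReal_ne_top) (by simp)
        _ = K * (2 * (2 * |R| / ‖v‖)) := by
            rw [integral_indicator measurableSet_closedBall, setIntegral_const, smul_eq_mul,
              measureReal_def, Real.volume_closedBall, ENNReal.toReal_ofReal (by positivity)]
            ring
    · push Not at hex
      have h1 : ∀ s : ℝ, fderiv ℝ w (y + s • v) = 0 := fun s => hd0 _ (hex s)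
      simp only [h1, integral_zero, norm_zero]
      positivity
  have hdiff : Differentiable ℝ fun y => ∫ s in Iic (0 : ℝ), w (y + s • v) :=
    fun y => (hder y).differentiableAt
  refine ⟨fun y => ∫ s in Iic (0 : ℝ), w (y + s • v), ?_, ?_, ?_⟩
  · rw [contDiff_one_iff_fderiv]
    refine ⟨hdiff, ?_⟩
    rw [hfd]
    exact hcont
  · refine ⟨K * (2 * (2 * |R| / ‖v‖)), fun x y => ?_⟩
    have h1 := Convex.norm_image_sub_le_of_norm_fderiv_le (𝕜 := ℝ) (s := Set.univ)
      (f := fun y => ∫ s in Iic (0 : ℝ), w (y + s • v)) (C := K * (2 * (2 * |R| / ‖v‖)))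
      (fun x _ => hdiff x) (fun x _ => by rw [hfd]; exact hbd x) convex_univ
      (mem_univ y) (mem_univ x)
    rw [dist_eq_norm]
    exact (le_abs_self _).trans h1
  · intro y
    have h1 : lineDeriv ℝ (fun y => ∫ s in Iic (0 : ℝ), w (y + s • v)) y v =
        (∫ s in Iic (0 : ℝ), fderiv ℝ w (y + s • v)) v := by
      rw [(hdiff y).lineDeriv_eq_fderiv, hfd]
    rw [h1, ContinuousLinearMap.integral_apply (hintd y).integrableOn]
    have h2 : ∀ s : ℝ, HasDerivAt (fun s : ℝ => w (y + s • v)) (fderiv ℝ w (y + s • v) v) s := by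
      intro s
      have h3 : HasFDerivAt w (fderiv ℝ w (y + s • v)) (y + s • v) :=
        ((hw.differentiable (by norm_num)) _).hasFDerivAt
      have h4 : HasDerivAt (fun s : ℝ => y + s • v) v s := by
        have := ((hasDerivAt_id s).smul_const v).const_add y
        simpa using this
      exact h3.comp_hasDerivAt s h4
    have h3 : (fun s : ℝ => fderiv ℝ w (y + s • v) v) = deriv (fun s : ℝ => w (y + s • v)) := by
      funext s
      exact (h2 s).deriv.symm
    rw [h3]
    have h5 : ContDiff ℝ 1 (fun s : ℝ => w (y + s • v)) := hw.comp (by fun_prop)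
    rw [HasCompactSupport.integral_Iic_deriv_eq h5 (csup hv hw0 y) 0]
    simp

end PANTI

theorem t_ANTI : S_ANTI := by
  intro E _ _ _ v w hv hw hc
  exact PANTI.main v w hv (hw.of_le (by exact_mod_cast le_top)) hc

end Pool.Agent.H273.LFR
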