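import Mathlib
import Pool.Agent.H273.LFR.Stm

/-!
# Project LFR: smooth cut-off functions
-/

set_option autoImplicit false

open MeasureTheory Set Filter Topology
open scoped ContDiff Manifold

namespace Pool.Agent.H273.LFR

theorem t_CHI : S_CHI := by
  intro E _ _ _ f₁ f₂ hf₁ hd
  have hU : IsOpen (tsupport f₂)ᶜ := (isClosed_tsupport f₂).isOpen_compl
  obtain ⟨L, hL, hsub, hLU⟩ := exists_compact_between hf₁ hU
    (Set.subset_compl_iff_disjoint_right.2 hd)
  obtain ⟨χ, h1, h2, h3⟩ := exists_contMDiffMap_one_nhds_of_subset_interior (n := ⊤)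
    𝓘(ℝ, E) (isClosed_tsupport f₁) hsub
  have hsupp : tsupport (χ : E → ℝ) ⊆ L := by
    refine closure_minimal (fun x hx => ?_) hL.isClosed
    by_contra h
    exact hx (h2 x h)
  refine ⟨χ, χ.contMDiff.contDiff, HasCompactSupport.intro hL h2, fun x => h3 x, h1, ?_⟩
  exact Set.subset_compl_iff_disjoint_right.1 (hsupp.trans hLU)

end Pool.Agent.H273.LFR
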