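import Mathlib
import Pool.Agent.H273.LFR.Stm

/-!
# Project LFR, CUT: the cut-off functional (helper549)
-/

set_option autoImplicit false

open MeasureTheory Set Filter Topology Metric
open Pool.Agent.Helper23K9.LR
open scoped ContDiff BoundedContinuousFunction

namespace Pool.Agent.H273.LFR

namespace PCUT

variable {E : Type} [NormedAddCommGroup E] [NormedSpace ℝ E]

/-- the bounded continuous function given by `F`, if there is one -/
noncomputable def mk (F : E → (E →L[ℝ] ℝ)) : E →ᵇ (E →L[ℝ] ℝ) :=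
  open Classical in if h : ∃ G : E →ᵇ (E →L[ℝ] ℝ), ∀ x, G x = F x then h.choose else 0

lemma mk_apply {F : E → (E →L[ℝ] ℝ)} (h1 : Continuous F) (h2 : ∃ C, ∀ x, ‖F x‖ ≤ C) (x : E) :
    mk F x = F x := by
  obtain ⟨C, hC⟩ := h2
  have h : ∃ G : E →ᵇ (E →L[ℝ] ℝ), ∀ x, G x = F x :=
    ⟨BoundedContinuousFunction.ofNormedAddCommGroup F h1 C hC, fun _ => rfl⟩
  unfold mk
  rw [dif_pos h]
  exact h.choose_spec x

/-- data of the cut-off function -/
structure Dat (χ : E → ℝ) (M R : ℝ) : Prop where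
  sm : ContDiff ℝ ∞ χ
  cs : HasCompactSupport χ
  bd : ∀ x, 0 ≤ χ x ∧ χ x ≤ 1
  M0 : 0 ≤ M
  R0 : 0 ≤ R
  lip : LK M χ
  off : ∀ x, R < ‖x‖ → χ x = 0
  foff : ∀ x, R < ‖x‖ → fderiv ℝ χ x = 0
  fbd : ∀ x, ‖fderiv ℝ χ x‖ ≤ M

lemma exists_dat {χ : E → ℝ} (h1 : ContDiff ℝ ∞ χ) (h2 : HasCompactSupport χ)
    (h3 : ∀ x, 0 ≤ χ x ∧ χ x ≤ 1) : ∃ M R, Dat χ M R := by
  obtain ⟨C, hC⟩ := ContDiff.lipschitzWith_of_hasCompactSupport h2 h1 (by simp)
  obtain ⟨R, hR⟩ := h2.isBounded.subset_closedBall (0 : E)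
  have hoff : ∀ x, max R 0 < ‖x‖ → x ∉ tsupport χ := by
    intro x hx hxt
    have := hR hxt
    rw [mem_closedBall_zero_iff] at this
    have := le_max_left R 0
    linarith
  refine ⟨C, max R 0, h1, h2, h3, C.2, le_max_right _ _, ?_, ?_, ?_, ?_⟩
  · intro x y
    have := hC.dist_le_mul x y
    rw [Real.dist_eq] at this
    exact (le_abs_self _).trans this
  · intro x hx
    exact image_eq_zero_of_notMem_tsupport (hoff x hx)
  · intro x hx
    by_contra h
    exact hoff x hx (support_fderiv_subset ℝ h)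
  · intro x
    exact norm_fderiv_le_of_lipschitz ℝ hC

variable {χ : E → ℝ} {M R : ℝ}

lemma cont_fd (hD : Dat χ M R) : Continuous (fderiv ℝ χ) := hD.sm.continuous_fderiv (by simp)

/-- `f ∇χ` is bounded and continuous -/
lemma cont1 (hD : Dat χ M R) {f : E → ℝ} (hf : Continuous f) :
    Continuous (fun x => f x • fderiv ℝ χ x) := hf.smul (cont_fd hD)

lemma bd1 (hD : Dat χ M R) {f : E → ℝ} (hf : Continuous f) :
    ∃ C, ∀ x, ‖f x • fderiv ℝ χ x‖ ≤ C := by
  have h : HasCompactSupport (fun x => f x • fderiv ℝ χ x) := by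
    refine (hD.cs.fderiv ℝ).mono fun x hx => ?_
    rw [Function.mem_support] at hx ⊢
    intro h0
    apply hx
    rw [h0, smul_zero]
  exact (cont1 hD hf).bounded_above_of_compact_support h

lemma ap1 (hD : Dat χ M R) {f : E → ℝ} (hf : Continuous f) (x : E) :
    mk (fun x => f x • fderiv ℝ χ x) x = f x • fderiv ℝ χ x :=
  mk_apply (cont1 hD hf) (bd1 hD hf) x

/-- `χ F` is bounded and continuous -/
lemma ap2 (hD : Dat χ M R) {F : E → (E →L[ℝ] ℝ)} (hF : Continuous F) (x : E) :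
    mk (fun x => χ x • F x) x = χ x • F x := by
  have h : HasCompactSupport (fun x => χ x • F x) := by
    refine hD.cs.mono fun x hx => ?_
    rw [Function.mem_support] at hx ⊢
    intro h0
    apply hx
    rw [h0, zero_smul]
  have hc : Continuous (fun x => χ x • F x) := hD.sm.continuous.smul hF
  exact mk_apply hc (hc.bounded_above_of_compact_support h) x

/-- the cut-off of a Lipschitz function is Lipschitz -/
lemma lip1 (hD : Dat χ M R) {f : E → ℝ} {K : ℝ} (hK : 0 ≤ K) (hf : LK K f) :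
    LK (K + M * (K * R)) (fun x => χ x * (f x - f 0)) := by
  have hb : ∀ x, ‖x‖ ≤ R → |f x - f 0| ≤ K * R := fun x hx => by
    have := hf.abs x 0
    rw [dist_zero_right] at this
    exact this.trans (mul_le_mul_of_nonneg_left hx hK)
  have key : ∀ (a b : E), ‖b‖ ≤ R →
      |χ a * (f a - f b)| + |(χ a - χ b) * (f b - f 0)| ≤ (K + M * (K * R)) * dist a b := by
    intro a b hb'
    rw [abs_mul, abs_mul, add_mul]
    have e1 : |χ a| ≤ 1 := abs_le.2 ⟨by linarith [(hD.bd a).1], (hD.bd a).2⟩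
    have e2 := hf.abs a b
    have e3 := hD.lip.abs a b
    have e4 := hb b hb'
    have i1 : |χ a| * |f a - f b| ≤ 1 * (K * dist a b) :=
      mul_le_mul e1 e2 (abs_nonneg _) zero_le_one
    have i2 : |χ a - χ b| * |f b - f 0| ≤ (M * dist a b) * (K * R) :=
      mul_le_mul e3 e4 (abs_nonneg _) (mul_nonneg hD.M0 dist_nonneg)
    linarith
  have hpos : 0 ≤ K + M * (K * R) :=
    add_nonneg hK (mul_nonneg hD.M0 (mul_nonneg hK hD.R0))
  intro x y
  beta_reduce
  by_cases hy : ‖y‖ ≤ R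
  · have h1 := key x y hy
    have h2 : χ x * (f x - f 0) - χ y * (f y - f 0) =
        χ x * (f x - f y) + (χ x - χ y) * (f y - f 0) := by ring
    rw [h2]
    have h3 := le_abs_self (χ x * (f x - f y))
    have h4 := le_abs_self ((χ x - χ y) * (f y - f 0))
    linarith
  · by_cases hx : ‖x‖ ≤ R
    · have h1 := key y x hx
      have h2 : χ x * (f x - f 0) - χ y * (f y - f 0) =
          -(χ y * (f y - f x)) - (χ y - χ x) * (f x - f 0) := by ring
      rw [h2, dist_comm x y]
      have h3 := neg_abs_le (χ y * (f y - f x))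
      have h4 := neg_abs_le ((χ y - χ x) * (f x - f 0))
      linarith
    · rw [hD.off x (not_le.1 hx), hD.off y (not_le.1 hy)]
      simp only [zero_mul, sub_zero]
      exact mul_nonneg hpos dist_nonneg

/-- pointwise convergence of equi-Lipschitz functions is uniform on compact sets -/
lemma unif [FiniteDimensional ℝ E] {f : ℕ → E → ℝ} {f0 : E → ℝ} {K : ℝ} (hK : ∀ n, LK K (f n))
    (hK0 : LK K f0) (h : ∀ x, Tendsto (fun n => f n x) atTop (𝓝 (f0 x))) (R ε : ℝ) (hε : 0 < ε) :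
    ∀ᶠ n in atTop, ∀ x, ‖x‖ ≤ R → |f n x - f0 x| < ε := by
  set δ := ε / (4 * (|K| + 1)) with hδ
  have hK1 : 0 < |K| + 1 := by positivity
  have hδ0 : 0 < δ := by positivity
  have hKδ : K * δ ≤ ε / 4 := by
    have h1 : K * δ ≤ (|K| + 1) * δ :=
      mul_le_mul_of_nonneg_right (by linarith [le_abs_self K]) hδ0.le
    have h2 : (|K| + 1) * δ = ε / 4 := by
      rw [hδ]
      field_simp
    linarith
  obtain ⟨t, -, htf, htc⟩ := (isCompact_closedBall (0 : E) R).finite_cover_balls hδ0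
  have h1 : ∀ p ∈ t, ∀ᶠ n in atTop, |f n p - f0 p| < ε / 4 := by
    intro p _
    have := (h p).eventually (Metric.ball_mem_nhds (f0 p) (by positivity : 0 < ε / 4))
    filter_upwards [this] with n hn
    rwa [Real.dist_eq] at hn
  filter_upwards [(htf.eventually_all (l := atTop)).2 h1] with n hn x hx
  obtain ⟨p, hp, hxp⟩ := mem_iUnion₂.1 (htc (mem_closedBall_zero_iff.2 hx))
  rw [Metric.mem_ball] at hxp
  have e1 := (hK n).abs x p
  have e2 := hK0.abs p x
  have e3 := hn p hp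
  have hKd : K * dist x p ≤ ε / 4 := by
    rcases le_or_gt 0 K with hk | hk
    · exact (mul_le_mul_of_nonneg_left hxp.le hk).trans hKδ
    · have : K * dist x p ≤ 0 := mul_nonpos_of_nonpos_of_nonneg hk.le dist_nonneg
      linarith
  rw [dist_comm p x] at e2
  have e4 : f n x - f0 x = (f n x - f n p) + (f n p - f0 p) + (f0 p - f0 x) := by ring
  rw [e4]
  have e5 := abs_add_le ((f n x - f n p) + (f n p - f0 p)) (f0 p - f0 x)
  have e6 := abs_add_le (f n x - f n p) (f n p - f0 p)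
  linarith

/-- convergence of the covector fields -/
lemma conv [FiniteDimensional ℝ E] (hD : Dat χ M R) {f : ℕ → E → ℝ} {f0 : E → ℝ} {K : ℝ}
    (hK : ∀ n, LK K (f n)) (hK0 : LK K f0)
    (h : ∀ x, Tendsto (fun n => f n x) atTop (𝓝 (f0 x))) :
    Tendsto (fun n => mk (fun x => f n x • fderiv ℝ χ x)) atTop
      (𝓝 (mk (fun x => f0 x • fderiv ℝ χ x))) := by
  rw [BoundedContinuousFunction.tendsto_iff_tendstoUniformly, Metric.tendstoUniformly_iff]
  intro ε hε
  have hM1 : 0 < M + 1 := by linarith [hD.M0]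
  filter_upwards [unif hK hK0 h R (ε / (M + 1)) (by positivity)] with n hn x
  have e0 : ‖f0 x • fderiv ℝ χ x - f n x • fderiv ℝ χ x‖ = ‖f0 x - f n x‖ * ‖fderiv ℝ χ x‖ := by
    rw [← norm_smul]
    congr 1
    module
  rw [ap1 hD hK0.continuous, ap1 hD (hK n).continuous, dist_eq_norm, e0]
  by_cases hx : ‖x‖ ≤ R
  · have h1 := hn x hx
    rw [Real.norm_eq_abs, abs_sub_comm]
    have h2 : |f n x - f0 x| * ‖fderiv ℝ χ x‖ ≤ |f n x - f0 x| * M :=
      mul_le_mul_of_nonneg_left (hD.fbd x) (abs_nonneg _)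
    have h3 : |f n x - f0 x| * M ≤ ε / (M + 1) * M := mul_le_mul_of_nonneg_right h1.le hD.M0
    have h4 : ε / (M + 1) * M < ε := by
      rw [div_mul_eq_mul_div, div_lt_iff₀ hM1]
      nlinarith
    linarith
  · rw [hD.foff x (not_le.1 hx), norm_zero, mul_zero]
    exact hε

omit [NormedSpace ℝ E] in
lemma lkc {f : E → ℝ} {K : ℝ} (hf : LK K f) : LK K (fun x => f x - f 0) := fun x y => by
  have := hf x y
  linarith

/-- the cut-off functional -/
noncomputable def cut [FiniteDimensional ℝ E] (γ : Fct E) (Λ : (E →ᵇ (E →L[ℝ] ℝ)) →L[ℝ] ℝ)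
    (hD : Dat χ M R) : Fct E where
  a f := γ.a (fun x => χ x * (f x - f 0)) - Λ (mk (fun x => (f x - f 0) • fderiv ℝ χ x))
  lin := by
    intro f g hf hg s t
    obtain ⟨K, hf⟩ := hf
    obtain ⟨L, hg⟩ := hg
    have hf1 := lip1 hD (le_max_right K 0) (hf.mono (le_max_left K 0))
    have hg1 := lip1 hD (le_max_right L 0) (hg.mono (le_max_left L 0))
    have e1 : γ.a (fun x => χ x * (s * f x + t * g x - (s * f 0 + t * g 0))) =
        s * γ.a (fun x => χ x * (f x - f 0)) + t * γ.a (fun x => χ x * (g x - g 0)) := by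
      rw [← γ.lin ⟨_, hf1⟩ ⟨_, hg1⟩ s t]
      congr 1
      funext x
      ring
    have e2 : mk (fun x => (s * f x + t * g x - (s * f 0 + t * g 0)) • fderiv ℝ χ x) =
        s • mk (fun x => (f x - f 0) • fderiv ℝ χ x) +
          t • mk (fun x => (g x - g 0) • fderiv ℝ χ x) := by
      ext1 x
      rw [BoundedContinuousFunction.add_apply, BoundedContinuousFunction.smul_apply,
        BoundedContinuousFunction.smul_apply, ap1 hD (lkc hf).continuous,
        ap1 hD (lkc hg).continuous,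
        ap1 hD (f := fun x => s * f x + t * g x - (s * f 0 + t * g 0))
          (((hf.const_mul s).add (hg.const_mul t)).continuous.sub continuous_const),
        smul_smul, smul_smul, ← add_smul]
      congr 1
      ring
    beta_reduce
    rw [e1, e2, map_add, map_smul, map_smul, smul_eq_mul, smul_eq_mul]
    ring
  cont := by
    intro f f0 K hK h
    have hK' : ∀ n, LK (max K 0) (f n) := fun n => (hK n).mono (le_max_left _ _)
    have hf0 : LK (max K 0) f0 := LK_of_tendsto hK' h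
    refine Tendsto.sub ?_ ?_
    · refine γ.cont _ _ _ (fun n => lip1 hD (le_max_right K 0) (hK' n)) fun x y => ?_
      exact ((h x 0).const_mul (χ x)).sub ((h y 0).const_mul (χ y))
    · exact (Λ.continuous.tendsto _).comp
        (conv hD (fun n => lkc (hK' n)) (lkc hf0) (fun x => h x 0))

end PCUT

open PCUT in
theorem t_CUT (h1 : S_MOLL) (h2 : S_HB) : S_CUT := by
  intro E _ _ _ γ N hN χ hχ hχc hχb
  obtain ⟨M, R, hD⟩ := exists_dat hχ hχc hχb
  obtain ⟨Λ, hΛ, hΛg⟩ := h2 E γ N hN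
  have hN0 : 0 ≤ N := by
    have := hN (fun _ => 0) (fun x y => by simp)
    rwa [γ.zero] at this
  have hχd : ∀ x, HasFDerivAt χ (fderiv ℝ χ x) x := fun x =>
    (hχ.differentiable (by simp) x).hasFDerivAt
  -- the value for `C¹` functions
  have ha : ∀ f : E → ℝ, ContDiff ℝ 1 f → (∃ K, LK K f) →
      (cut γ Λ hD).a f = Λ (mk (fun x => χ x • fderiv ℝ f x)) := by
    intro f hf hfK
    obtain ⟨K, hfK⟩ := hfK
    have hfd : Continuous (fderiv ℝ f) := hf.continuous_fderiv (by simp)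
    have e := hΛg (fun x => χ x * (f x - f 0)) (mk (fun x => χ x • fderiv ℝ f x) +
      mk (fun x => (f x - f 0) • fderiv ℝ χ x)) (fun x => by
        rw [BoundedContinuousFunction.add_apply, ap2 hD hfd, ap1 hD (lkc hfK).continuous]
        exact (hχd x).mul (((hf.differentiable (by simp) x).hasFDerivAt).sub_const (f 0)))
    show γ.a (fun x => χ x * (f x - f 0)) - Λ (mk (fun x => (f x - f 0) • fderiv ℝ χ x)) = _
    rw [← e, map_add]
    ring
  have hb1 : ∀ f g : E → ℝ, ContDiff ℝ 1 f → ContDiff ℝ 1 g → LK 1 f → LK 1 g →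
      (cut γ Λ hD).a f + (γ.a g - (cut γ Λ hD).a g) ≤ N := by
    intro f g hf hg hfK hgK
    have hfd : Continuous (fderiv ℝ f) := hf.continuous_fderiv (by simp)
    have hgd : Continuous (fderiv ℝ g) := hg.continuous_fderiv (by simp)
    have nf : ∀ x, ‖fderiv ℝ f x‖ ≤ 1 := fun x => by
      have := norm_fderiv_le_of_lipschitz ℝ hfK.lipschitz (x₀ := x)
      simpa using this
    have ng : ∀ x, ‖fderiv ℝ g x‖ ≤ 1 := fun x => by
      have := norm_fderiv_le_of_lipschitz ℝ hgK.lipschitz (x₀ := x)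
      simpa using this
    have apg : ∀ x, mk (fderiv ℝ g) x = fderiv ℝ g x := mk_apply hgd ⟨1, ng⟩
    have e1 : γ.a g = Λ (mk (fderiv ℝ g)) := (hΛg g _ (fun x => by
      rw [apg]
      exact (hg.differentiable (by simp) x).hasFDerivAt)).symm
    rw [ha f hf ⟨1, hfK⟩, ha g hg ⟨1, hgK⟩, e1, ← map_sub, ← map_add]
    refine (le_abs_self _).trans ((hΛ _).trans ?_)
    have e2 : ‖mk (fun x => χ x • fderiv ℝ f x) +
        (mk (fderiv ℝ g) - mk (fun x => χ x • fderiv ℝ g x))‖ ≤ 1 := by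
      rw [BoundedContinuousFunction.norm_le zero_le_one]
      intro x
      rw [BoundedContinuousFunction.add_apply, BoundedContinuousFunction.sub_apply, ap2 hD hfd,
        ap2 hD hgd, apg]
      have e3 : χ x • fderiv ℝ f x + (fderiv ℝ g x - χ x • fderiv ℝ g x) =
          χ x • fderiv ℝ f x + (1 - χ x) • fderiv ℝ g x := by
        rw [sub_smul, one_smul]
      rw [e3]
      refine (norm_add_le _ _).trans ?_
      rw [norm_smul, norm_smul, Real.norm_of_nonneg (hD.bd x).1,
        Real.norm_of_nonneg (by linarith [(hD.bd x).2] : 0 ≤ 1 - χ x)]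
      have i1 := mul_le_mul_of_nonneg_left (nf x) (hD.bd x).1
      have i2 := mul_le_mul_of_nonneg_left (ng x)
        (by linarith [(hD.bd x).2] : 0 ≤ 1 - χ x)
      linarith
    calc N * _ ≤ N * 1 := mul_le_mul_of_nonneg_left e2 hN0
      _ = N := mul_one N
  -- the values for `f = χ f` and `χ f = 0`
  have hχL : ∃ K, LK K χ := ⟨M, hD.lip⟩
  have hχΛ : γ.a χ = Λ (mk (fderiv ℝ χ)) := (hΛg χ _ (fun x => by
    rw [mk_apply (cont_fd hD) ⟨M, hD.fbd⟩]
    exact hχd x)).symm
  have hm : ∀ f : E → ℝ, (∃ K, LK K f) → (∀ x, f x • fderiv ℝ χ x = 0) →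
      mk (fun x => (f x - f 0) • fderiv ℝ χ x) = (-f 0) • mk (fderiv ℝ χ) := by
    intro f hf hf0
    obtain ⟨K, hf⟩ := hf
    ext1 x
    rw [ap1 hD (lkc hf).continuous, BoundedContinuousFunction.smul_apply,
      mk_apply (cont_fd hD) ⟨M, hD.fbd⟩]
    have e : (f x - f 0) • fderiv ℝ χ x = f x • fderiv ℝ χ x + (-f 0) • fderiv ℝ χ x := by module
    rw [e, hf0, zero_add]
  refine ⟨cut γ Λ hD, ?_, ?_, ?_⟩
  · intro f g hf hg
    obtain ⟨F, hF1, hF2, hF3⟩ := h1 E f 1 hf
    obtain ⟨G, hG1, hG2, hG3⟩ := h1 E g 1 hg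
    have t1 := (cut γ Λ hD).cont F f 1 hF2 (fun x y => (hF3 x).sub (hF3 y))
    have t2 := (cut γ Λ hD).cont G g 1 hG2 (fun x y => (hG3 x).sub (hG3 y))
    have t3 := γ.cont G g 1 hG2 (fun x y => (hG3 x).sub (hG3 y))
    exact le_of_tendsto' (t1.add (t3.sub t2)) fun n =>
      hb1 (F n) (G n) ((hF1 n).of_le (by simp)) ((hG1 n).of_le (by simp)) (hF2 n) (hG2 n)
  · intro f hf hf0 hf1
    show γ.a (fun x => χ x * (f x - f 0)) - Λ (mk (fun x => (f x - f 0) • fderiv ℝ χ x)) = _
    rw [hm f hf hf0, map_smul, ← hχΛ, smul_eq_mul]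
    have e : (fun x => χ x * (f x - f 0)) = fun x => 1 * f x + (-f 0) * χ x := by
      funext x
      rw [mul_sub, hf1]
      ring
    rw [e, γ.lin hf hχL]
    ring
  · intro f hf hf0 hf1
    show γ.a (fun x => χ x * (f x - f 0)) - Λ (mk (fun x => (f x - f 0) • fderiv ℝ χ x)) = _
    rw [hm f hf hf0, map_smul, ← hχΛ, smul_eq_mul]
    have e : (fun x => χ x * (f x - f 0)) = fun x => (-f 0) * χ x := by
      funext x
      rw [mul_sub, hf1]
      ring
    rw [e, γ.smul hχL]
    ring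

end Pool.Agent.H273.LFR
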