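import Mathlib
import Pool.Agent.H273.LFR.Stm

/-!
# LFR, DENS (by helper52)
-/

set_option autoImplicit false

open MeasureTheory Set Filter Topology Metric
open Pool.Agent.Helper23K9.LR
open scoped NNReal ENNReal ContDiff

namespace Pool.Agent.H273.LFR.PDENS

section basic

variable {E : Type} [NormedAddCommGroup E] [NormedSpace ℝ E]

theorem lip_of_LK {K : ℝ} {f : E → ℝ} (h : LK K f) : LipschitzWith K.toNNReal f := by
  apply LipschitzWith.of_dist_le_mul
  intro x y
  rw [Real.dist_eq, abs_le]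
  have h1 := h x y
  have h2 := h y x
  rw [dist_comm y x] at h2
  have h3 : K * dist x y ≤ K.toNNReal * dist x y :=
    mul_le_mul_of_nonneg_right (Real.le_coe_toNNReal K) dist_nonneg
  constructor <;> linarith

theorem LK_of_lip {L : ℝ≥0} {f : E → ℝ} (h : LipschitzWith L f) : LK L f := fun x y => by
  have := h.dist_le_mul x y
  rw [Real.dist_eq] at this
  exact (le_abs_self _).trans this

/-- a compactly supported function with vanishing derivative in a direction `v ≠ 0` is zero -/
theorem eq_zero_of_dir {f : E → ℝ} (hf : Differentiable ℝ f) (hc : HasCompactSupport f) {v : E}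
    (hv : v ≠ 0) (h : ∀ x, fderiv ℝ f x v = 0) (x : E) : f x = 0 := by
  have hconst : ∀ t : ℝ, f (x + t • v) = f x := by
    intro t
    have hd : ∀ s : ℝ, HasDerivAt (fun s : ℝ => f (x + s • v)) 0 s := by
      intro s
      have h1 : HasDerivAt (fun s : ℝ => x + s • v) v s := by
        simpa using ((hasDerivAt_id s).smul_const v).const_add x
      have h2 := (hf (x + s • v)).hasFDerivAt.comp_hasDerivAt s h1
      rw [h] at h2
      exact h2
    have h3 := is_const_of_deriv_eq_zero (fun s => (hd s).differentiableAt) (fun s => (hd s).deriv) t 0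
    simpa using h3
  obtain ⟨R, hR⟩ := hc.isBounded.exists_norm_le
  have hvn : 0 < ‖v‖ := norm_pos_iff.2 hv
  set t : ℝ := (|R| + ‖x‖ + 1) / ‖v‖ with htdef
  have ht0 : 0 ≤ t := by positivity
  have ht : ‖t • v‖ = |R| + ‖x‖ + 1 := by
    rw [norm_smul, Real.norm_of_nonneg ht0, htdef, div_mul_cancel₀ _ hvn.ne']
  rw [← hconst t]
  by_contra hne
  have hmem : x + t • v ∈ tsupport f := subset_tsupport f hne
  have h4 := hR _ hmem
  have h5 : ‖t • v‖ ≤ ‖x + t • v‖ + ‖x‖ := by
    have := norm_sub_le (x + t • v) x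
    simpa using this
  have := le_abs_self R
  linarith

/-- line derivatives and scaling -/
theorem lineDeriv_scale (k : E → ℝ) (c : ℝ) (hc : c ≠ 0) (y0 x v : E) :
    lineDeriv ℝ (fun x => c⁻¹ * k (y0 + c • x)) x v = lineDeriv ℝ k (y0 + c • x) v := by
  unfold lineDeriv
  have h1 : (fun t : ℝ => c⁻¹ * k (y0 + c • (x + t • v))) =
      fun t : ℝ => c⁻¹ * (fun s : ℝ => k (y0 + c • x + s • v)) (c * t) := by
    funext t
    simp only [smul_add, smul_smul, add_assoc]
  rw [h1, deriv_const_mul_field]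
  have h2 := deriv_comp_mul_left c (fun s : ℝ => k (y0 + c • x + s • v)) 0
  rw [h2, mul_zero, smul_eq_mul, ← mul_assoc, inv_mul_cancel₀ hc, one_mul]

end basic

section main

variable {E : Type} [NormedAddCommGroup E] [NormedSpace ℝ E] [FiniteDimensional ℝ E]
  [MeasurableSpace E] [BorelSpace E] (μ : Measure E) [μ.IsAddHaarMeasure]

/-- test functions -/
theorem exists_test {v w : E} (hv : v ≠ 0) (hw : w ≠ 0) : ∃ a a' b : E → ℝ,
    ContDiff ℝ ∞ a ∧ ContDiff ℝ ∞ a' ∧ ContDiff ℝ ∞ b ∧
    (∀ x, 1 < ‖x‖ → a x = 0) ∧ (∀ x, 1 < ‖x‖ → a' x = 0) ∧ (∀ x, 1 < ‖x‖ → b x = 0) ∧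
    (∀ x, fderiv ℝ a x v = b x) ∧ (∀ x, fderiv ℝ a' x w = b x) ∧ ∃ x, b x ≠ 0 := by
  let φ : ContDiffBump (0 : E) := ⟨1 / 2, 1, by norm_num, by norm_num⟩
  have hφ : ContDiff ℝ ∞ φ := φ.contDiff
  have hφc : HasCompactSupport φ := φ.hasCompactSupport
  have hφt : tsupport φ = closedBall 0 1 := φ.tsupport_eq
  have hφ' : ContDiff ℝ ∞ (fderiv ℝ φ) := hφ.fderiv_right (by simp)
  have hac : ContDiff ℝ ∞ (fun x => fderiv ℝ φ x w) := hφ'.clm_apply contDiff_const
  have hac' : ContDiff ℝ ∞ (fun x => fderiv ℝ φ x v) := hφ'.clm_apply contDiff_const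
  have hbc : ContDiff ℝ ∞ (fun x => fderiv ℝ (fun x => fderiv ℝ φ x w) x v) :=
    (hac.fderiv_right (m := ∞) (by simp)).clm_apply contDiff_const
  have hz : ∀ x, 1 < ‖x‖ → fderiv ℝ φ x = 0 := by
    intro x hx
    by_contra hne
    have h1 : x ∈ tsupport φ := support_fderiv_subset ℝ hne
    rw [hφt, mem_closedBall_zero_iff] at h1
    linarith
  have haz : ∀ x, 1 < ‖x‖ → (fun x => fderiv ℝ φ x w) x = 0 := fun x hx => by
    simp only [hz x hx, _root_.zero_apply]
  have hasupp : ∀ f : E → ℝ, (∀ x, 1 < ‖x‖ → f x = 0) → tsupport f ⊆ closedBall 0 1 := by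
    intro f hf
    refine closure_minimal (fun x hx => ?_) isClosed_closedBall
    rw [mem_closedBall_zero_iff]
    by_contra h
    exact hx (hf x (not_le.1 h))
  have hcs : ∀ f : E → ℝ, (∀ x, 1 < ‖x‖ → f x = 0) → HasCompactSupport f := fun f hf =>
    IsCompact.of_isClosed_subset (isCompact_closedBall 0 1) (isClosed_tsupport f) (hasupp f hf)
  have hder : ∀ x u u', fderiv ℝ (fun x => fderiv ℝ φ x u) x u' = fderiv ℝ (fderiv ℝ φ) x u' u := by
    intro x u u'
    have h1 : HasFDerivAt (fderiv ℝ φ) (fderiv ℝ (fderiv ℝ φ) x) x :=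
      (hφ'.differentiable (by simp) x).hasFDerivAt
    have h2 := h1.clm_apply (hasFDerivAt_const u x)
    rw [h2.fderiv]
    simp
  refine ⟨fun x => fderiv ℝ φ x w, fun x => fderiv ℝ φ x v,
    fun x => fderiv ℝ (fun x => fderiv ℝ φ x w) x v, hac, hac', hbc, haz, fun x hx => by
      simp only [hz x hx, _root_.zero_apply], ?_, fun x => rfl, ?_, ?_⟩
  · intro x hx
    by_contra hne
    have h1 : fderiv ℝ (fun x => fderiv ℝ φ x w) x ≠ 0 := by
      intro h0; apply hne; simp only [h0, _root_.zero_apply]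
    have h2 : x ∈ tsupport (fun x => fderiv ℝ φ x w) := support_fderiv_subset ℝ h1
    have h3 := hasupp _ haz h2
    rw [mem_closedBall_zero_iff] at h3
    linarith
  · intro x
    show fderiv ℝ (fun x => fderiv ℝ φ x v) x w = fderiv ℝ (fun x => fderiv ℝ φ x w) x v
    rw [hder, hder]
    have h1 := (hφ.contDiffAt (x := x)).isSymmSndFDerivAt (by
      simp only [minSmoothness_of_isRCLikeNormedField]
      exact WithTop.coe_le_coe.2 (le_top : (2 : ℕ∞) ≤ ⊤))
    exact h1.eq w v
  · by_contra hall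
    push Not at hall
    have h1 : ∀ x, (fun x => fderiv ℝ φ x w) x = 0 :=
      eq_zero_of_dir (hac.differentiable (by simp)) (hcs _ haz) hv hall
    have h2 : ∀ x, φ x = 0 := eq_zero_of_dir (hφ.differentiable (by simp)) hφc hw h1
    have h3 : φ 0 = 1 := φ.one_of_mem_closedBall (by
      rw [mem_closedBall_zero_iff, norm_zero]; exact φ.rIn_pos.le)
    rw [h2] at h3
    exact zero_ne_one h3

/-- the integral inequality -/
theorem key {v w : E} {a a' b : E → ℝ} (ha : ContDiff ℝ ∞ a) (ha' : ContDiff ℝ ∞ a')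
    (az : ∀ x, 1 < ‖x‖ → a x = 0) (az' : ∀ x, 1 < ‖x‖ → a' x = 0) (h1 : ∀ x, fderiv ℝ a x v = b x)
    (h2 : ∀ x, fderiv ℝ a' x w = b x) (L C : ℝ≥0) (hbL : LipschitzWith L b) :
    ∃ A : ℝ, ∀ (K : E → ℝ) (N : Set E), LipschitzWith C K → MeasurableSet N → μ N ≠ ⊤ →
      (∀ᵐ x ∂μ, ‖x‖ ≤ 1 → x ∉ N → lineDeriv ℝ K x v = lineDeriv ℝ b x v ∧
        lineDeriv ℝ K x w = 0) → ∫ x, b x * b x ∂μ ≤ A * (μ N).toReal := by
  have hcs : ∀ f : E → ℝ, (∀ x, 1 < ‖x‖ → f x = 0) → HasCompactSupport f := by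
    intro f hf
    refine HasCompactSupport.of_support_subset_isCompact (isCompact_closedBall (0 : E) 1) ?_
    intro x hx
    rw [mem_closedBall_zero_iff]
    by_contra h
    exact hx (hf x (not_le.1 h))
  obtain ⟨La, hLa⟩ := ContDiff.lipschitzWith_of_hasCompactSupport (hcs a az) ha (by simp)
  obtain ⟨La', hLa'⟩ := ContDiff.lipschitzWith_of_hasCompactSupport (hcs a' az') ha' (by simp)
  obtain ⟨Ma, hMa⟩ := (hcs a az).exists_bound_of_continuous ha.continuous
  obtain ⟨Ma', hMa'⟩ := (hcs a' az').exists_bound_of_continuous ha'.continuous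
  have hMa0 : 0 ≤ Ma := (norm_nonneg _).trans (hMa 0)
  have hMa0' : 0 ≤ Ma' := (norm_nonneg _).trans (hMa' 0)
  refine ⟨(C * ‖v‖) * Ma + (C * ‖w‖) * Ma' + (L * ‖v‖) * Ma, ?_⟩
  intro K N hK hN hNf hae
  have i1 : Integrable (fun x => lineDeriv ℝ K x v * a x) μ :=
    (hK.locallyIntegrable_lineDeriv v).integrable_smul_right_of_hasCompactSupport ha.continuous
      (hcs a az)
  have i2 : Integrable (fun x => lineDeriv ℝ K x w * a' x) μ :=
    (hK.locallyIntegrable_lineDeriv w).integrable_smul_right_of_hasCompactSupport ha'.continuous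
      (hcs a' az')
  have i3 : Integrable (fun x => lineDeriv ℝ b x v * a x) μ :=
    (hbL.locallyIntegrable_lineDeriv v).integrable_smul_right_of_hasCompactSupport ha.continuous
      (hcs a az)
  have la : ∀ x, lineDeriv ℝ a x (-v) = - b x := fun x => by
    rw [(ha.differentiable (by simp) x).lineDeriv_eq_fderiv, map_neg, h1]
  have la' : ∀ x, lineDeriv ℝ a' x (-w) = - b x := fun x => by
    rw [(ha'.differentiable (by simp) x).lineDeriv_eq_fderiv, map_neg, h2]
  have e1 : ∫ x, lineDeriv ℝ K x v * a x ∂μ = ∫ x, - b x * K x ∂μ := by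
    rw [hK.integral_lineDeriv_mul_eq hLa (hcs a az) v]
    simp only [la]
  have e2 : ∫ x, lineDeriv ℝ K x w * a' x ∂μ = ∫ x, - b x * K x ∂μ := by
    rw [hK.integral_lineDeriv_mul_eq hLa' (hcs a' az') w]
    simp only [la']
  have e3 : ∫ x, lineDeriv ℝ b x v * a x ∂μ = ∫ x, - b x * b x ∂μ := by
    rw [hbL.integral_lineDeriv_mul_eq hLa (hcs a az) v]
    simp only [la]
  have e4 : ∫ x, b x * b x ∂μ = ∫ x, (lineDeriv ℝ K x v * a x - lineDeriv ℝ K x w * a' x -
      lineDeriv ℝ b x v * a x) ∂μ := by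
    have i12 : Integrable (fun x => lineDeriv ℝ K x v * a x - lineDeriv ℝ K x w * a' x) μ :=
      i1.sub i2
    rw [integral_sub i12 i3, integral_sub i1 i2, e1, e2, e3, sub_self, zero_sub,
      ← integral_neg]
    congr 1
    funext x
    ring
  rw [e4]
  have hbound : ∀ᵐ x ∂μ, lineDeriv ℝ K x v * a x - lineDeriv ℝ K x w * a' x -
      lineDeriv ℝ b x v * a x ≤
      N.indicator (fun _ => (C * ‖v‖) * Ma + (C * ‖w‖) * Ma' + (L * ‖v‖) * Ma) x := by
    filter_upwards [hae] with x hx
    by_cases hxN : x ∈ N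
    · rw [indicator_of_mem hxN]
      have g1 : ‖lineDeriv ℝ K x v * a x‖ ≤ (C * ‖v‖) * Ma := by
        rw [norm_mul]
        exact mul_le_mul (norm_lineDeriv_le_of_lipschitz ℝ hK) (hMa x) (norm_nonneg _) (by positivity)
      have g2 : ‖lineDeriv ℝ K x w * a' x‖ ≤ (C * ‖w‖) * Ma' := by
        rw [norm_mul]
        exact mul_le_mul (norm_lineDeriv_le_of_lipschitz ℝ hK) (hMa' x) (norm_nonneg _) (by positivity)
      have g3 : ‖lineDeriv ℝ b x v * a x‖ ≤ (L * ‖v‖) * Ma := by
        rw [norm_mul]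
        exact mul_le_mul (norm_lineDeriv_le_of_lipschitz ℝ hbL) (hMa x) (norm_nonneg _)
          (by positivity)
      rw [Real.norm_eq_abs, abs_le] at g1 g2 g3
      linarith [g1.2, g2.1, g3.1]
    · rw [indicator_of_notMem hxN]
      by_cases hx1 : ‖x‖ ≤ 1
      · obtain ⟨h3, h4⟩ := hx hx1 hxN
        rw [h3, h4]
        simp
      · rw [az x (not_le.1 hx1), az' x (not_le.1 hx1)]
        simp
  have hint : Integrable (N.indicator
      (fun _ => (C * ‖v‖) * Ma + (C * ‖w‖) * Ma' + (L * ‖v‖) * Ma)) μ :=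
    (integrable_indicator_iff hN).2 (integrableOn_const hNf)
  refine (integral_mono_ae ((i1.sub i2).sub i3) hint hbound).trans ?_
  rw [integral_indicator hN, setIntegral_const, smul_eq_mul, mul_comm]
  exact le_rfl

end main

end Pool.Agent.H273.LFR.PDENS

namespace Pool.Agent.H273.LFR

open PDENS

theorem t_DENS : S_DENS := by
  intro E _ _ _ _ _ μ _ v w hvw D hD C hyp
  by_contra hD0
  have hv : v ≠ 0 := hvw.ne_zero 0
  have hw : w ≠ 0 := hvw.ne_zero 1
  obtain ⟨a, a', b, ha, ha', hb, az, az', bz, h1, h2, xb, hxb⟩ := exists_test hv hw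
  have hcb : HasCompactSupport b := by
    refine HasCompactSupport.of_support_subset_isCompact (isCompact_closedBall (0 : E) 1) ?_
    intro x hx
    rw [mem_closedBall_zero_iff]
    by_contra h
    exact hx (bz x (not_le.1 h))
  obtain ⟨L, hL⟩ := ContDiff.lipschitzWith_of_hasCompactSupport hcb hb (by simp)
  obtain ⟨A, hA⟩ := key μ ha ha' az az' h1 h2 L (C * L).toNNReal hL
  have hI : 0 < ∫ x, b x * b x ∂μ := by
    have hcont : Continuous (fun x => b x * b x) := hb.continuous.mul hb.continuous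
    refine hcont.integral_pos_of_hasCompactSupport_nonneg_nonzero (x := xb) ?_ ?_ ?_
    · exact hcb.mul_right
    · intro x; exact mul_self_nonneg _
    · exact mul_ne_zero hxb hxb
  -- density point
  obtain ⟨y0, hy0D, hy0⟩ : ∃ y0 ∈ D, Tendsto (fun r => μ (Dᶜ ∩ closedBall y0 r) /
      μ (closedBall y0 r)) (𝓝[>] 0) (𝓝 0) := by
    have hae := Besicovitch.ae_tendsto_measure_inter_div_of_measurableSet μ hD.compl
    by_contra hno
    push Not at hno
    apply hD0
    refine measure_mono_null (fun y hy => ?_) (ae_iff.1 hae)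
    intro hlim
    have hyn : y ∉ Dᶜ := fun h => h hy
    rw [indicator_of_notMem hyn] at hlim
    exact hno y hy hlim
  -- for small r
  have hstep : ∀ r : ℝ, 0 < r → ∫ x, b x * b x ∂μ ≤ A * (μ (closedBall (0 : E) 1) *
      (μ (Dᶜ ∩ closedBall y0 r) / μ (closedBall y0 r))).toReal := by
    intro r hr
    -- the function g
    have hg : LK (L : ℝ) (fun y => r * b (r⁻¹ • (y - y0))) := by
      have : LipschitzWith L (fun y => r * b (r⁻¹ • (y - y0))) := by
        apply LipschitzWith.of_dist_le_mul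
        intro x y
        rw [Real.dist_eq, ← mul_sub, abs_mul, abs_of_pos hr, ← Real.dist_eq]
        have h3 := hL.dist_le_mul (r⁻¹ • (x - y0)) (r⁻¹ • (y - y0))
        rw [dist_smul₀, dist_sub_right, Real.norm_of_nonneg (inv_nonneg.2 hr.le)] at h3
        calc r * dist (b (r⁻¹ • (x - y0))) (b (r⁻¹ • (y - y0))) ≤ r * (L * (r⁻¹ * dist x y)) :=
              mul_le_mul_of_nonneg_left h3 hr.le
          _ = L * dist x y := by field_simp
      exact LK_of_lip this
    obtain ⟨k, hk, hkae⟩ := hyp _ _ hg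
    have hkL := lip_of_LK hk
    -- rescaled
    have hKL : LipschitzWith (C * L).toNNReal (fun x => r⁻¹ * k (y0 + r • x)) := by
      apply LipschitzWith.of_dist_le_mul
      intro x y
      rw [Real.dist_eq, ← mul_sub, abs_mul, abs_of_pos (inv_pos.2 hr), ← Real.dist_eq]
      have h3 := hkL.dist_le_mul (y0 + r • x) (y0 + r • y)
      rw [dist_add_left, dist_smul₀, Real.norm_of_nonneg hr.le] at h3
      calc r⁻¹ * dist (k (y0 + r • x)) (k (y0 + r • y)) ≤
            r⁻¹ * ((C * L).toNNReal * (r * dist x y)) :=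
            mul_le_mul_of_nonneg_left h3 (inv_nonneg.2 hr.le)
        _ = (C * L).toNNReal * dist x y := by field_simp
    have hpre : ∀ Z : Set E, μ ((fun x => y0 + r • x) ⁻¹' Z) =
        ENNReal.ofReal (|(r ^ Module.finrank ℝ E)⁻¹|) * μ Z := by
      intro Z
      have h3 := Measure.addHaar_preimage_smul μ hr.ne' ((fun x => y0 + x) ⁻¹' Z)
      rw [measure_preimage_add] at h3
      exact h3
    have hcont : Continuous (fun x : E => y0 + r • x) := by fun_prop
    set N : Set E := (fun x => y0 + r • x) ⁻¹' (Dᶜ ∩ closedBall y0 r) with hN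
    have hNm : MeasurableSet N :=
      hcont.measurable (hD.compl.inter isClosed_closedBall.measurableSet)
    have hball : closedBall (0 : E) 1 = (fun x => y0 + r • x) ⁻¹' (closedBall y0 r) := by
      ext x
      simp only [mem_preimage, mem_closedBall, dist_eq_norm, sub_zero,
        add_sub_cancel_left, norm_smul, Real.norm_of_nonneg hr.le]
      constructor
      · intro h; nlinarith
      · intro h; by_contra h'; push Not at h'; nlinarith
    have hμN : μ N = μ (closedBall (0 : E) 1) *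
        (μ (Dᶜ ∩ closedBall y0 r) / μ (closedBall y0 r)) := by
      rw [hball, hpre (closedBall y0 r)]
      show μ ((fun x => y0 + r • x) ⁻¹' (Dᶜ ∩ closedBall y0 r)) = _
      rw [hpre (Dᶜ ∩ closedBall y0 r), mul_assoc]
      congr 1
      rw [← mul_div_assoc, mul_comm, mul_div_assoc,
        ENNReal.div_self (measure_closedBall_pos μ y0 hr).ne' measure_closedBall_lt_top.ne, mul_one]
    rw [← hμN]
    refine hA (fun x => r⁻¹ * k (y0 + r • x)) N hKL hNm ?_ ?_
    · have h3 : N ⊆ closedBall (0 : E) 1 := by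
        rw [hball]; exact preimage_mono inter_subset_right
      exact ((measure_mono h3).trans_lt measure_closedBall_lt_top).ne
    · have hae2 : ∀ᵐ x ∂μ, y0 + r • x ∈ D →
          lineDeriv ℝ k (y0 + r • x) v =
            lineDeriv ℝ (fun y => r * b (r⁻¹ • (y - y0))) (y0 + r • x) v ∧
          lineDeriv ℝ k (y0 + r • x) w = 0 := by
        rw [ae_iff] at hkae ⊢
        have h3 := hpre {y | ¬ (y ∈ D → lineDeriv ℝ k y v =
            lineDeriv ℝ (fun y => r * b (r⁻¹ • (y - y0))) y v ∧ lineDeriv ℝ k y w = 0)}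
        rw [hkae, mul_zero] at h3
        exact h3
      filter_upwards [hae2] with x hx hx1 hxN
      have hxD : y0 + r • x ∈ D := by
        by_contra hxD
        apply hxN
        refine ⟨hxD, ?_⟩
        have h3 : x ∈ closedBall (0 : E) 1 := by rwa [mem_closedBall_zero_iff]
        rw [hball] at h3
        exact h3
      obtain ⟨h3, h4⟩ := hx hxD
      refine ⟨?_, ?_⟩
      · rw [lineDeriv_scale k r hr.ne', h3, ← lineDeriv_scale _ r hr.ne']
        congr 1
        funext z
        rw [add_sub_cancel_left, smul_smul, inv_mul_cancel₀ hr.ne', one_smul, ← mul_assoc,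
          inv_mul_cancel₀ hr.ne', one_mul]
      · rw [lineDeriv_scale k r hr.ne', h4]
  -- limit
  have hlim : Tendsto (fun r : ℝ => A * (μ (closedBall (0 : E) 1) *
      (μ (Dᶜ ∩ closedBall y0 r) / μ (closedBall y0 r))).toReal) (𝓝[>] 0) (𝓝 (A * 0)) := by
    refine Tendsto.const_mul A ?_
    have h3 : Tendsto (fun r : ℝ => μ (closedBall (0 : E) 1) *
        (μ (Dᶜ ∩ closedBall y0 r) / μ (closedBall y0 r))) (𝓝[>] 0)
        (𝓝 (μ (closedBall (0 : E) 1) * 0)) :=
      ENNReal.Tendsto.const_mul hy0 (Or.inr measure_closedBall_lt_top.ne)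
    rw [mul_zero] at h3
    have h4 := (ENNReal.tendsto_toReal ENNReal.zero_ne_top).comp h3
    exact h4
  rw [mul_zero] at hlim
  have hle : ∫ x, b x * b x ∂μ ≤ 0 := by
    refine ge_of_tendsto hlim ?_
    filter_upwards [self_mem_nhdsWithin] with r hr
    exact hstep r hr
  linarith

end Pool.Agent.H273.LFR
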