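import Mathlib
import Pool.Agent.H273.LFR.Stm

/-!
Disjointness preservation.
-/

set_option autoImplicit false

open MeasureTheory Set Filter Topology
open Pool.Agent.Helper23K9.LR
open scoped ContDiff BoundedContinuousFunction

namespace Pool.Agent.H273.LFR

namespace PDPT

/-- soft threshold, lower and upper bounds -/
lemma LK_const {M : Type*} [PseudoMetricSpace M] {K : ℝ} (hK : 0 ≤ K) (c : ℝ) :
    LK K (fun _ : M => c) := fun x y => by
  rw [sub_self]
  exact mul_nonneg hK dist_nonneg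

/-- soft threshold -/
noncomputable def soft (ε r : ℝ) : ℝ := max (r - ε) (min (r + ε) 0)

lemma soft_zero {ε r : ℝ} (h : |r| ≤ ε) : soft ε r = 0 := by
  rw [abs_le] at h
  unfold soft
  rw [min_eq_right (by linarith), max_eq_right (by linarith)]

lemma soft_sub {ε r : ℝ} (hε : 0 ≤ ε) : |soft ε r - r| ≤ ε := by
  unfold soft
  rw [abs_le]
  constructor
  · have := le_max_left (r - ε) (min (r + ε) 0)
    linarith
  · have : max (r - ε) (min (r + ε) 0) ≤ r + ε := max_le (by linarith) (min_le_left _ _)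
    linarith

lemma soft_abs {ε r : ℝ} (hε : 0 ≤ ε) : |soft ε r| ≤ |r| := by
  unfold soft
  rw [abs_le]
  rcases le_total 0 r with h | h
  · rw [abs_of_nonneg h]
    constructor
    · have h1 : min (r + ε) 0 = 0 := min_eq_right (by linarith)
      rw [h1]
      have := le_max_right (r - ε) 0
      linarith
    · exact max_le (by linarith) ((min_le_right _ _).trans h)
  · rw [abs_of_nonpos h]
    constructor
    · have h1 : r ≤ min (r + ε) 0 := le_min (by linarith) h
      have := h1.trans (le_max_right (r - ε) _)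
      linarith
    · refine max_le (by linarith) ((min_le_right _ _).trans (by linarith))

section trunc

variable {E : Type} [NormedAddCommGroup E] [NormedSpace ℝ E]

/-- the cut-off height -/
noncomputable def hh (c K : ℝ) (n : ℕ) (x : E) : ℝ := max (c + 2 * K * n - K * ‖x‖) 0

lemma LK_hh {c K : ℝ} (hK : 0 ≤ K) (n : ℕ) : LK K (hh c K n : E → ℝ) := by
  have h1 : LK K (fun x : E => c + 2 * K * n - K * ‖x‖) := fun x y => by
    have h2 : ‖y‖ - ‖x‖ ≤ dist x y := by
      rw [dist_comm, dist_eq_norm]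
      exact norm_sub_norm_le y x
    have := mul_le_mul_of_nonneg_left h2 hK
    linarith
  exact h1.max (LK_const hK 0)

/-- the approximations -/
noncomputable def FF (f : E → ℝ) (K : ℝ) (n : ℕ) (x : E) : ℝ :=
  max (min (soft (1 / ((n : ℝ) + 1)) (f x)) (hh |f 0| K n x)) (- hh |f 0| K n x)

lemma LK_FF {f : E → ℝ} {K : ℝ} (hK : 0 ≤ K) (hf : LK K f) (n : ℕ) : LK K (FF f K n) := by
  have h1 : LK K (fun x => soft (1 / ((n : ℝ) + 1)) (f x)) := by
    unfold soft
    have e1 : LK K (fun x => f x - 1 / ((n : ℝ) + 1)) := by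
      simp only [sub_eq_add_neg]
      exact hf.add_const _
    exact e1.max ((hf.add_const _).min (LK_const hK 0))
  exact (h1.min (LK_hh hK n)).max (LK_hh hK n).neg

lemma FF_eq {f : E → ℝ} {K : ℝ} (hK : 0 ≤ K) (hf : LK K f) {n : ℕ} {x : E} (hx : ‖x‖ ≤ n) :
    FF f K n x = soft (1 / ((n : ℝ) + 1)) (f x) := by
  have h1 : |f x| ≤ |f 0| + K * ‖x‖ := by
    have h2 := hf.abs x 0
    rw [dist_zero_right] at h2
    have h3 := abs_sub_abs_le_abs_sub (f x) (f 0)
    linarith
  have h2 : |soft (1 / ((n : ℝ) + 1)) (f x)| ≤ hh |f 0| K n x := by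
    refine (soft_abs (by positivity)).trans (h1.trans (le_trans ?_ (le_max_left _ _)))
    have := mul_le_mul_of_nonneg_left hx hK
    linarith
  rw [abs_le] at h2
  unfold FF
  rw [min_eq_left h2.2, max_eq_left h2.1]

lemma FF_tendsto {f : E → ℝ} {K : ℝ} (hK : 0 ≤ K) (hf : LK K f) (x : E) :
    Tendsto (fun n => FF f K n x) atTop (𝓝 (f x)) := by
  rw [tendsto_iff_dist_tendsto_zero]
  refine squeeze_zero' (Eventually.of_forall fun n => dist_nonneg) ?_
    tendsto_one_div_add_atTop_nhds_zero_nat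
  obtain ⟨N, hN⟩ := exists_nat_ge ‖x‖
  filter_upwards [eventually_ge_atTop N] with n hn
  rw [FF_eq hK hf (hN.trans (Nat.cast_le.2 hn)), Real.dist_eq]
  exact soft_sub (by positivity)

lemma FF_zero_of_small {f : E → ℝ} {K : ℝ} {n : ℕ} {x : E} (hx : |f x| ≤ 1 / ((n : ℝ) + 1)) :
    FF f K n x = 0 := by
  have h0 : 0 ≤ hh |f 0| K n x := le_max_right _ _
  unfold FF
  rw [soft_zero hx, min_eq_left h0, max_eq_left (by linarith)]

lemma FF_zero_of_far {f : E → ℝ} {K : ℝ} {n : ℕ} {x : E} (hx : |f 0| + 2 * K * n ≤ K * ‖x‖) :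
    FF f K n x = 0 := by
  have h0 : hh |f 0| K n x = 0 := max_eq_right (by linarith)
  unfold FF
  rw [h0, neg_zero]
  exact max_eq_right (min_le_right _ _)

lemma FF_compact [FiniteDimensional ℝ E] {f : E → ℝ} {K : ℝ} (hK : 0 < K) (n : ℕ) :
    HasCompactSupport (FF f K n) := by
  haveI : ProperSpace E := FiniteDimensional.proper_real E
  refine HasCompactSupport.intro (isCompact_closedBall (0 : E) ((|f 0| + 2 * K * n) / K)) ?_
  intro x hx
  apply FF_zero_of_far
  rw [Metric.mem_closedBall, dist_zero_right, not_le, div_lt_iff₀ hK] at hx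
  linarith

lemma FF_disjoint {f₁ f₂ : E → ℝ} {K : ℝ} (hf₁ : Continuous f₁) (h0 : ∀ x, f₁ x * f₂ x = 0)
    (n : ℕ) : Disjoint (tsupport (FF f₁ K n)) (tsupport f₂) := by
  have hpos : (0 : ℝ) < 1 / ((n : ℝ) + 1) := by positivity
  have h1 : tsupport (FF f₁ K n) ⊆ {x | 1 / ((n : ℝ) + 1) ≤ |f₁ x|} := by
    refine closure_minimal ?_ (isClosed_le continuous_const hf₁.abs)
    intro x hx
    by_contra h
    have h' : |f₁ x| < 1 / ((n : ℝ) + 1) := not_le.1 h
    exact hx (FF_zero_of_small h'.le)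
  have h2 : tsupport f₂ ⊆ {x | f₁ x = 0} := by
    refine closure_minimal ?_ (isClosed_eq hf₁ continuous_const)
    intro x hx
    rcases mul_eq_zero.1 (h0 x) with h | h
    · exact h
    · exact absurd h hx
  rw [Set.disjoint_left]
  intro x hx hx'
  have h3 : 1 / ((n : ℝ) + 1) ≤ |f₁ x| := h1 hx
  have h4 : f₁ x = 0 := h2 hx'
  rw [h4, abs_zero] at h3
  linarith

end trunc

section meas

variable {E : Type} [NormedAddCommGroup E] [NormedSpace ℝ E] [FiniteDimensional ℝ E]
  [MeasurableSpace E] [BorelSpace E]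

lemma integrableOn_lineDeriv (μ : Measure E) {g : E → ℝ} {K : ℝ} (hg : LK K g) (v : E)
    {D : Set E} (hD : μ D ≠ ⊤) : IntegrableOn (fun y => lineDeriv ℝ g y v) D μ := by
  refine Measure.integrableOn_of_bounded (M := K.toNNReal * ‖v‖) hD
    (measurable_lineDeriv hg.continuous).aestronglyMeasurable
    (Eventually.of_forall fun y => norm_lineDeriv_le_of_lipschitz ℝ hg.lipschitz)

/-- a weak limit argument -/
lemma lim_zero (h3 : S_WEAK) (μ : Measure E) [μ.IsAddHaarMeasure] (S : Rel E) {f₁ g₁ g₂ : E → ℝ}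
    {K : ℝ} (hK : LK K f₁) (F : ℕ → E → ℝ) (hF : ∀ n, LK K (F n))
    (hlim : ∀ x, Tendsto (fun n => F n x) atTop (𝓝 (f₁ x))) (hR : S.R f₁ g₁)
    (hc : Continuous g₂) (v w : E)
    (hz : ∀ n G, S.R (F n) G → ∀ᵐ y ∂μ, lineDeriv ℝ G y v * lineDeriv ℝ g₂ y w = 0) :
    ∀ᵐ y ∂μ, lineDeriv ℝ g₁ y v * lineDeriv ℝ g₂ y w = 0 := by
  choose G hG using fun n => S.tot (F n) ⟨K, hF n⟩
  have hGK : ∀ n, LK K (G n) := fun n => (S.iso (hG n) K).1 (hF n)
  have hg₁ : LK K g₁ := (S.iso hR K).1 hK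
  have hGl := S.cont F G f₁ g₁ K hG hF hR (fun x y => (hlim x).sub (hlim y))
  set W : Set E := {y | lineDeriv ℝ g₂ y w ≠ 0} with hW
  have hWm : MeasurableSet W :=
    (measurable_lineDeriv hc (measurableSet_singleton (0 : ℝ))).compl
  have key : ∀ D : Set E, MeasurableSet D → μ D ≠ ⊤ → D ⊆ W →
      ∫ y in D, lineDeriv ℝ g₁ y v ∂μ = 0 := by
    intro D hD hDf hDW
    have e1 := h3 E μ G g₁ K hGK hGl v D hD hDf
    have e2 : ∀ n, ∫ y in D, lineDeriv ℝ (G n) y v ∂μ = 0 := by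
      intro n
      rw [← integral_zero E ℝ (μ := μ.restrict D)]
      refine setIntegral_congr_ae hD ?_
      filter_upwards [hz n (G n) (hG n)] with y hy hyD
      rcases mul_eq_zero.1 hy with h | h
      · exact h
      · exact absurd h (hDW hyD)
    simp only [e2] at e1
    exact tendsto_nhds_unique e1 tendsto_const_nhds
  have h4 : (fun y => lineDeriv ℝ g₁ y v) =ᵐ[μ.restrict W] 0 := by
    refine ae_eq_zero_of_forall_setIntegral_eq_of_sigmaFinite ?_ ?_
    · intro s _ hs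
      exact integrableOn_lineDeriv _ hg₁ v hs.ne
    · intro s hs hs'
      rw [Measure.restrict_restrict hs]
      rw [Measure.restrict_apply hs] at hs'
      exact key _ (hs.inter hWm) hs'.ne inter_subset_right
  have h5 := (ae_restrict_iff' hWm).1 h4
  filter_upwards [h5] with y hy
  by_cases h : lineDeriv ℝ g₂ y w = 0
  · rw [h, mul_zero]
  · rw [show lineDeriv ℝ g₁ y v = 0 from hy h, zero_mul]

end meas

end PDPT

open PDPT in
theorem t_DPT (h1 : S_KL1) (h2 : S_KL2) (h3 : S_WEAK) : S_DPT := by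
  intro E _ _ _ _ _ μ _ S hE f₁ f₂ g₁ g₂ hf₁ hf₂ h0
  obtain ⟨n, b, hb⟩ := hE
  choose ξ hξ using hb
  -- compact supports
  have hA : ∀ F G : E → ℝ, S.R F G → HasCompactSupport F → Disjoint (tsupport F) (tsupport f₂) →
      ∀ i j, ∀ᵐ y ∂μ, lineDeriv ℝ G y (b i) * lineDeriv ℝ g₂ y (b j) = 0 := by
    intro F G hFG hF hd i j
    by_cases hij : i = j
    · subst hij
      exact h1 E μ S (b i) (ξ i) (hξ i) F f₂ G g₂ hFG hf₂ hF hd
    · have hli : LinearIndependent ℝ ![b i, b j] := by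
        have h4 := b.linearIndependent.comp ![i, j] (by
          intro a c hac
          fin_cases a <;> fin_cases c <;> simp_all [eq_comm])
        have h5 : (b : Fin n → E) ∘ ![i, j] = ![b i, b j] := by
          funext k
          fin_cases k <;> rfl
        rwa [h5] at h4
      exact h2 E μ S (b i) (b j) (ξ i) (ξ j) (hξ i) (hξ j) hli F f₂ G g₂ hFG hf₂ hF hd
  obtain ⟨K₀, hK₀⟩ := S.lip hf₁
  set K : ℝ := max K₀ 1 with hKdef
  have hK : 0 < K := lt_of_lt_of_le one_pos (le_max_right _ _)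
  have hfK : LK K f₁ := hK₀.mono (le_max_left _ _)
  obtain ⟨K₂, hK₂⟩ := S.lip hf₂
  have hg₂ : LK K₂ g₂ := (S.iso hf₂ K₂).1 hK₂
  have hg₁ : LK K g₁ := (S.iso hf₁ K).1 hfK
  have hB : ∀ i j, ∀ᵐ y ∂μ, lineDeriv ℝ g₁ y (b i) * lineDeriv ℝ g₂ y (b j) = 0 := by
    intro i j
    refine lim_zero h3 μ S hfK (FF f₁ K) (LK_FF hK.le hfK) (FF_tendsto hK.le hfK) hf₁
      hg₂.continuous (b i) (b j) ?_
    intro n G hG
    exact hA _ G hG (FF_compact hK n) (FF_disjoint hfK.continuous h0 n) i j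
  have hB' : ∀ᵐ y ∂μ, ∀ i j, lineDeriv ℝ g₁ y (b i) * lineDeriv ℝ g₂ y (b j) = 0 := by
    rw [ae_all_iff]
    intro i
    rw [ae_all_iff]
    exact hB i
  filter_upwards [hB', hg₁.lipschitz.ae_differentiableAt (μ := μ),
    hg₂.lipschitz.ae_differentiableAt (μ := μ)] with y hy hd₁ hd₂
  by_contra hcon
  push Not at hcon
  apply hcon.2
  have h6 : ∃ i, fderiv ℝ g₁ y (b i) ≠ 0 := by
    by_contra h7
    push Not at h7
    apply hcon.1
    ext x
    have h8 : (fderiv ℝ g₁ y : E →ₗ[ℝ] ℝ) = 0 := b.ext fun i => by simpa using h7 i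
    have h9 := LinearMap.congr_fun h8 x
    simpa using h9
  obtain ⟨i, hi⟩ := h6
  ext x
  have h8 : (fderiv ℝ g₂ y : E →ₗ[ℝ] ℝ) = 0 := b.ext fun j => by
    have h9 := hy i j
    rw [hd₁.lineDeriv_eq_fderiv, hd₂.lineDeriv_eq_fderiv] at h9
    simpa [hi] using h9
  have h9 := LinearMap.congr_fun h8 x
  simpa using h9

end Pool.Agent.H273.LFR
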