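import Mathlib
import Pool.Agent.H273.LFR.Stm

/-! EXPA (project LFR of helper273): bases of exposed directions. -/

set_option autoImplicit false

open MeasureTheory Set Filter Topology
open Pool.Agent.Helper23K9.LR

namespace Pool.Agent.H273.LFR

namespace PEXPA

variable {E : Type} [NormedAddCommGroup E] [NormedSpace ℝ E] [FiniteDimensional ℝ E]

open scoped RealInnerProductSpace in
/-- the point of the unit ball farthest from `-t w` is exposed -/
theorem far (h1 : S_EXPO) (w : E) (hw : ‖w‖ = 1) (t : ℝ) :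
    ∃ (v : E) (ξ : E →L[ℝ] ℝ), Exposed v ξ ∧
      ‖toEuclidean w + t • toEuclidean w‖ ≤ ‖toEuclidean v + t • toEuclidean w‖ := by
  set e := toEuclidean (E := E) with he
  have : ProperSpace E := FiniteDimensional.proper ℝ E
  have hcont : ContinuousOn (fun x => ‖e x + t • e w‖) (Metric.closedBall (0 : E) 1) := by
    apply Continuous.continuousOn
    fun_prop
  obtain ⟨v, hv, hmax⟩ := (isCompact_closedBall (0 : E) 1).exists_isMaxOn
    ⟨0, by simp⟩ hcont
  have hmax' : ∀ x : E, ‖x‖ ≤ 1 → ‖e x + t • e w‖ ≤ ‖e v + t • e w‖ := by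
    intro x hx
    exact hmax (by rwa [mem_closedBall_zero_iff])
  rw [mem_closedBall_zero_iff] at hv
  set u := e v + t • e w with hu
  let ζ : E →L[ℝ] ℝ := (innerSL ℝ u).comp (e : E →L[ℝ] _)
  have hζ : ∀ x, ζ x = ⟪u, e x⟫ := fun x => rfl
  have hw0 : w ≠ 0 := by
    intro h
    rw [h, norm_zero] at hw
    exact zero_ne_one hw
  have key : ∀ x : E, ‖x‖ ≤ 1 → ζ v ≤ ζ x → x = v := by
    intro x hx hzx
    have e1 := hmax' x hx
    have e2 : ⟪u, u⟫ ≤ ⟪u, e x + t • e w⟫ := by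
      have : ⟪u, u⟫ = ⟪u, e v⟫ + ⟪u, t • e w⟫ := by rw [← inner_add_right]
      rw [this, inner_add_right]
      rw [hζ, hζ] at hzx
      linarith
    have e3 : ‖(e x + t • e w) - u‖ ^ 2 ≤ 0 := by
      rw [norm_sub_sq_real, real_inner_comm]
      rw [real_inner_self_eq_norm_sq] at e2
      have e4 : ‖e x + t • e w‖ ^ 2 ≤ ‖u‖ ^ 2 := by gcongr
      linarith
    have e5 : ‖(e x + t • e w) - u‖ = 0 := by
      have := sq_nonneg ‖(e x + t • e w) - u‖
      exact pow_eq_zero_iff (two_ne_zero) |>.1 (le_antisymm e3 this)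
    rw [norm_eq_zero, sub_eq_zero, hu] at e5
    exact e.injective (add_right_cancel e5)
  have hpos : 0 < ζ v := by
    by_contra hcon
    push Not at hcon
    have e1 : (0 : E) = v := key 0 (by simp) (by rw [map_zero]; exact hcon)
    have e2 : ζ v = 0 := by rw [← e1, map_zero]
    rcases le_total 0 (ζ w) with h | h
    · have := key w hw.le (by rw [e2]; exact h)
      exact hw0 (this.trans e1.symm)
    · have := key (-w) (by rw [norm_neg]; exact hw.le) (by rw [e2, map_neg]; linarith)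
      exact hw0 (neg_eq_zero.1 (this.trans e1.symm))
  have hv0 : v ≠ 0 := by
    intro h
    rw [h, map_zero] at hpos
    exact lt_irrefl _ hpos
  have hvn : 0 < ‖v‖ := norm_pos_iff.2 hv0
  have hv1 : ‖v‖ = 1 := by
    have e1 : ‖(‖v‖⁻¹) • v‖ = 1 := by
      rw [norm_smul, norm_inv, norm_norm, inv_mul_cancel₀ hvn.ne']
    have e2 := key (‖v‖⁻¹ • v) e1.le (by
      rw [map_smul, smul_eq_mul]
      have : 1 ≤ ‖v‖⁻¹ := (one_le_inv₀ hvn).2 hv
      nlinarith)
    rw [← e1, e2]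
  have hle : ∀ x : E, ‖x‖ ≤ 1 → ζ x ≤ ζ v := by
    intro x hx
    by_contra hcon
    push Not at hcon
    have := key x hx hcon.le
    rw [this] at hcon
    exact lt_irrefl _ hcon
  let ξ : E →L[ℝ] ℝ := (ζ v)⁻¹ • ζ
  have hξ : ∀ x, ξ x = (ζ v)⁻¹ * ζ x := fun x => rfl
  have hξv : ξ v = 1 := by rw [hξ, inv_mul_cancel₀ hpos.ne']
  have hξ1 : ‖ξ‖ = 1 := by
    apply le_antisymm
    · apply ContinuousLinearMap.opNorm_le_of_unit_norm zero_le_one
      intro x hx
      rw [Real.norm_eq_abs, abs_le, hξ]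
      have e1 := hle x hx.le
      have e2 := hle (-x) (by rw [norm_neg]; exact hx.le)
      rw [map_neg] at e2
      constructor
      · rw [← sub_nonneg]
        have : (ζ v)⁻¹ * ζ x - -1 = (ζ v)⁻¹ * (ζ x + ζ v) := by
          rw [mul_add, inv_mul_cancel₀ hpos.ne']
          ring
        rw [this]
        exact mul_nonneg (inv_nonneg.2 hpos.le) (by linarith)
      · rw [← sub_nonneg]
        have : 1 - (ζ v)⁻¹ * ζ x = (ζ v)⁻¹ * (ζ v - ζ x) := by
          rw [mul_sub, inv_mul_cancel₀ hpos.ne']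
        rw [this]
        exact mul_nonneg (inv_nonneg.2 hpos.le) (by linarith)
    · have e1 := ξ.le_opNorm v
      rw [hξv, hv1, mul_one, norm_one] at e1
      exact e1
  refine ⟨v, ξ, h1 E v ξ hv1 hξ1 hξv (fun x hx hxe => key x hx ?_), hmax' w hw.le⟩
  rw [hξ] at hxe
  have : ζ x = ζ v := by
    field_simp at hxe
    exact hxe
  exact this.ge

theorem span_top (h1 : S_EXPO) :
    Submodule.span ℝ {v : E | ∃ ξ : E →L[ℝ] ℝ, Exposed v ξ} = ⊤ := by
  by_contra hcon
  set W := Submodule.span ℝ {v : E | ∃ ξ : E →L[ℝ] ℝ, Exposed v ξ} with hW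
  set e := toEuclidean (E := E) with he
  have hW' : W.map e.toLinearEquiv.toLinearMap ≠ ⊤ := by
    intro h
    apply hcon
    rw [eq_top_iff]
    intro x _
    have hx : e x ∈ W.map e.toLinearEquiv.toLinearMap := by
      rw [h]
      trivial
    obtain ⟨y, hy, hyx⟩ := hx
    have : y = x := e.injective hyx
    rwa [← this]
  have hperp : (W.map e.toLinearEquiv.toLinearMap)ᗮ ≠ ⊥ := by
    intro h
    exact hW' (Submodule.orthogonal_eq_bot_iff.1 h)
  obtain ⟨w', hw', hw'0⟩ := Submodule.exists_mem_ne_zero_of_ne_bot hperp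
  set w0 := e.symm w' with hw0
  have hw00 : w0 ≠ 0 := by
    intro h
    apply hw'0
    rw [← e.apply_symm_apply w', ← hw0, h, map_zero]
  have hn : 0 < ‖w0‖ := norm_pos_iff.2 hw00
  set w := ‖w0‖⁻¹ • w0 with hwdef
  have hw1 : ‖w‖ = 1 := by
    rw [hwdef, norm_smul, norm_inv, norm_norm, inv_mul_cancel₀ hn.ne']
  have hew : e w = ‖w0‖⁻¹ • w' := by
    rw [hwdef, map_smul, hw0, e.apply_symm_apply]
  have hew0 : e w ≠ 0 := by
    rw [hew]
    exact smul_ne_zero (inv_ne_zero hn.ne') hw'0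
  have hewn : 0 < ‖e w‖ := norm_pos_iff.2 hew0
  set M := ‖(e : E →L[ℝ] EuclideanSpace ℝ (Fin (Module.finrank ℝ E)))‖ with hM
  have hM0 : 0 ≤ M := norm_nonneg _
  set t := M ^ 2 / ‖e w‖ ^ 2 + 1 with ht
  obtain ⟨v, ξ, hv, hfar⟩ := far h1 w hw1 t
  have hvW : v ∈ W := Submodule.subset_span ⟨ξ, hv⟩
  have horth : inner ℝ (e v) (e w) = 0 := by
    rw [hew, inner_smul_right]
    have := (Submodule.mem_orthogonal _ _).1 hw' (e v) ⟨v, hvW, rfl⟩
    rw [this, mul_zero]
  have e1 : ‖e v + t • e w‖ ^ 2 = ‖e v‖ ^ 2 + t ^ 2 * ‖e w‖ ^ 2 := by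
    rw [norm_add_sq_real, inner_smul_right, horth, norm_smul, Real.norm_eq_abs, mul_pow, sq_abs]
    ring
  have e2 : ‖e w + t • e w‖ ^ 2 = (1 + t) ^ 2 * ‖e w‖ ^ 2 := by
    have : e w + t • e w = (1 + t) • e w := by rw [add_smul 1 t (e w), one_smul]
    rw [this, norm_smul, Real.norm_eq_abs, mul_pow, sq_abs]
  have e3 : ‖e w + t • e w‖ ^ 2 ≤ ‖e v + t • e w‖ ^ 2 := by
    gcongr
  have e4 : ‖e v‖ ≤ M := by
    have := (e : E →L[ℝ] EuclideanSpace ℝ (Fin (Module.finrank ℝ E))).le_opNorm v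
    rw [hv.1, mul_one] at this
    exact this
  have e5 : ‖e v‖ ^ 2 ≤ M ^ 2 := by gcongr
  have e6 : t * ‖e w‖ ^ 2 = M ^ 2 + ‖e w‖ ^ 2 := by
    rw [ht]
    field_simp
  have e7 : 0 < ‖e w‖ ^ 2 := by positivity
  rw [e1, e2] at e3
  nlinarith [sq_nonneg M]

end PEXPA

theorem t_EXPA (h1 : S_EXPO) : S_EXPA := by
  intro E _ _ _
  classical
  obtain ⟨b, hb, hspan, hli⟩ := exists_linearIndependent ℝ {v : E | ∃ ξ : E →L[ℝ] ℝ, Exposed v ξ}
  rw [PEXPA.span_top h1] at hspan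
  have hfin : Finite b := hli.finite
  let B : Module.Basis b ℝ E := Module.Basis.mk hli (by
    rw [Subtype.range_coe_subtype]
    exact hspan.ge)
  let σ : b ≃ Fin (Nat.card b) := Finite.equivFin b
  refine ⟨Nat.card b, B.reindex σ, fun i => ?_⟩
  rw [Module.Basis.reindex_apply]
  have h2 : B (σ.symm i) = (σ.symm i : E) := by
    rw [Module.Basis.mk_apply]
  rw [h2]
  exact hb (σ.symm i).2

end Pool.Agent.H273.LFR
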