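import Mathlib
import Pool.Agent.H273.LFR.Stm

set_option autoImplicit false

open MeasureTheory Set Filter Topology Metric
open Pool.Agent.Helper23K9.LR

namespace Pool.Agent.H273.LFR

namespace PEXPO

variable {E : Type} [NormedAddCommGroup E] [NormedSpace ℝ E]

theorem norm_le_of {f : E →L[ℝ] ℝ} (h : ∀ u : E, ‖u‖ ≤ 1 → f u ≤ 1) : ‖f‖ ≤ 1 := by
  refine ContinuousLinearMap.opNorm_le_bound _ zero_le_one fun u => ?_
  rw [one_mul]
  by_cases hu : u = 0
  · subst hu; simp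
  have hu' : 0 < ‖u‖ := norm_pos_iff.2 hu
  have h0 : ‖‖u‖⁻¹ • u‖ = 1 := by
    rw [norm_smul, norm_inv, norm_norm, inv_mul_cancel₀ hu'.ne']
  have h1 := h (‖u‖⁻¹ • u) h0.le
  have h2 := h (-(‖u‖⁻¹ • u)) (by rw [norm_neg]; exact h0.le)
  rw [map_neg] at h2
  rw [map_smul, smul_eq_mul] at h1 h2
  rw [Real.norm_eq_abs, abs_le]
  have h3 : f u = ‖u‖ * (‖u‖⁻¹ * f u) := by field_simp
  rw [h3]
  constructor <;> nlinarith

end PEXPO

theorem t_EXPO : S_EXPO := by
  intro E _ _ _ v ξ hv hξ hξv huniq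
  refine ⟨hv, hξ, hξv, fun δ L hδ => ?_⟩
  have : ProperSpace E := FiniteDimensional.proper_real E
  set L' := max L 1 with hL'
  have hL1 : 0 < L' := lt_of_lt_of_le one_pos (le_max_right _ _)
  have hLL : L ≤ L' := le_max_left _ _
  let K : Set E := closedBall 0 1 ∩ {u | δ / L' ≤ ‖u - v‖}
  have hKc : IsCompact K := (isCompact_closedBall 0 1).inter_right
    (isClosed_le continuous_const (by fun_prop))
  have hK1 : ∀ u ∈ K, ξ u < 1 := by
    intro u hu
    have h1 : ‖u‖ ≤ 1 := by simpa using hu.1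
    have h2 : ξ u ≤ 1 := by
      have := ξ.le_opNorm u
      rw [hξ, one_mul, Real.norm_eq_abs] at this
      exact (le_abs_self _).trans (this.trans h1)
    refine lt_of_le_of_ne h2 fun h3 => ?_
    have h4 := huniq u h1 h3
    have h5 : δ / L' ≤ ‖u - v‖ := hu.2
    rw [h4, sub_self, norm_zero] at h5
    have : 0 < δ / L' := by positivity
    linarith
  obtain ⟨ε, hε, hKε⟩ : ∃ ε : ℝ, 0 < ε ∧ ∀ u ∈ K, ξ u ≤ 1 - ε := by
    rcases K.eq_empty_or_nonempty with hKe | hKn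
    · exact ⟨1, one_pos, fun u hu => by rw [hKe] at hu; exact absurd hu (notMem_empty u)⟩
    · obtain ⟨u0, hu0, hmax⟩ := hKc.exists_isMaxOn hKn ξ.continuous.continuousOn
      refine ⟨1 - ξ u0, by linarith [hK1 u0 hu0], fun u hu => ?_⟩
      have := hmax hu
      have this : ξ u ≤ ξ u0 := this
      linarith
  have hηp : 0 < min ε 1 / L' := by positivity
  have hη1 : min ε 1 / L' * L' ≤ ε := by
    rw [div_mul_cancel₀ _ hL1.ne']; exact min_le_left _ _
  refine ⟨min ε 1 / L', hηp, fun ζ hζ1 hζ2 => PEXPO.norm_le_of fun u hu => ?_⟩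
  set η := min ε 1 / L' with hη
  show ξ u - η * ζ u ≤ 1
  have h2 : ξ u ≤ 1 := by
    have := ξ.le_opNorm u
    rw [hξ, one_mul, Real.norm_eq_abs] at this
    exact (le_abs_self _).trans (this.trans hu)
  rcases le_or_gt 0 (ζ u) with h | h
  · have := mul_nonneg hηp.le h
    linarith
  · have h3 : ζ v - ζ u ≤ L' * ‖u - v‖ := by
      have h4 := ζ.le_opNorm (v - u)
      rw [map_sub, Real.norm_eq_abs, norm_sub_rev] at h4
      calc ζ v - ζ u ≤ |ζ v - ζ u| := le_abs_self _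
        _ ≤ ‖ζ‖ * ‖u - v‖ := h4
        _ ≤ L' * ‖u - v‖ := mul_le_mul_of_nonneg_right (hζ2.trans hLL) (norm_nonneg _)
    have h5 : u ∈ K := by
      refine ⟨by simpa using hu, ?_⟩
      show δ / L' ≤ ‖u - v‖
      rw [div_le_iff₀ hL1]
      linarith
    have h6 := hKε u h5
    have h7 : -(L') ≤ ζ u := by
      have h8 := ζ.le_opNorm u
      rw [Real.norm_eq_abs] at h8
      have h9 : ‖ζ‖ * ‖u‖ ≤ L' * 1 := mul_le_mul (hζ2.trans hLL) hu (norm_nonneg _) hL1.le
      have := neg_abs_le (ζ u)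
      linarith
    have h8 : -(η * ζ u) ≤ η * L' := by
      have := mul_le_mul_of_nonneg_left h7 hηp.le
      linarith
    linarith

end Pool.Agent.H273.LFR
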