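import Mathlib
import Pool.Agent.H273.LFR.Stm

set_option autoImplicit false

open MeasureTheory Set Filter Topology
open Pool.Agent.Helper23K9.LR
open scoped ContDiff BoundedContinuousFunction

namespace Pool.Agent.H273.LFR.PHB

variable {E V : Type} [NormedAddCommGroup E] [NormedSpace ℝ E] [NormedAddCommGroup V] [NormedSpace ℝ V]

lemma lk_of_deriv (ι : V →L[ℝ] (E →L[ℝ] ℝ)) (hι : ∀ v, ‖ι v‖ ≤ ‖v‖)
    {f : E → ℝ} {G : E →ᵇ V} (h : ∀ x, HasFDerivAt f (ι (G x)) x) :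
    LK ‖G‖ f := by
  intro x y
  have h1 := Convex.norm_image_sub_le_of_norm_hasFDerivWithin_le (f := f) (f' := fun x => ι (G x))
    (s := Set.univ) (x := y) (y := x) (C := ‖G‖)
    (fun z _ => (h z).hasFDerivWithinAt) (fun z _ => (hι _).trans (G.norm_coe_le_norm z)) convex_univ
    (Set.mem_univ _) (Set.mem_univ _)
  rw [dist_eq_norm]
  exact (le_abs_self _).trans h1

lemma uniq_of_deriv (ι : V →L[ℝ] (E →L[ℝ] ℝ)) (hι : ∀ v, ‖ι v‖ ≤ ‖v‖)
    {f g : E → ℝ} {G : E →ᵇ V} (hf : ∀ x, HasFDerivAt f (ι (G x)) x)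
    (hg : ∀ x, HasFDerivAt g (ι (G x)) x) (x y : E) : f x - f y = g x - g y := by
  have h : ∀ z, HasFDerivAt (fun z => f z - g z) (ι ((0 : E →ᵇ V) z)) z := by
    intro z
    have h2 := (hf z).sub (hg z)
    rw [sub_self] at h2
    have h3 : ι ((0 : E →ᵇ V) z) = 0 := by
      simp
    rw [h3]
    exact h2
  have h1 := lk_of_deriv ι hι h x y
  have h2 := lk_of_deriv ι hι h y x
  simp only [norm_zero, zero_mul] at h1 h2
  linarith

/-- the subspace of bounded continuous gradients -/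
def W (ι : V →L[ℝ] (E →L[ℝ] ℝ)) : Submodule ℝ (E →ᵇ V) where
  carrier := {G | ∃ f : E → ℝ, ∀ x, HasFDerivAt f (ι (G x)) x}
  add_mem' := by
    rintro G H ⟨f, hf⟩ ⟨g, hg⟩
    refine ⟨fun x => f x + g x, fun x => ?_⟩
    have h := (hf x).add (hg x)
    have h3 : ι ((G + H) x) = ι (G x) + ι (H x) := by
      rw [← map_add]; rfl
    rw [h3]
    exact h
  zero_mem' := by
    refine ⟨fun _ => 0, fun x => ?_⟩
    have h3 : ι ((0 : E →ᵇ V) x) = 0 := by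
      simp
    rw [h3]
    exact hasFDerivAt_const 0 x
  smul_mem' := by
    rintro c G ⟨f, hf⟩
    refine ⟨fun x => c • f x, fun x => ?_⟩
    have h := (hf x).const_smul c
    have h3 : ι ((c • G) x) = c • ι (G x) := by
      rw [← map_smul]; rfl
    rw [h3]
    exact h

lemma lin_aux (ι : V →L[ℝ] (E →L[ℝ] ℝ)) (hι : ∀ v, ‖ι v‖ ≤ ‖v‖)
    (γ : Fct E) {f g h : E → ℝ} {F G H : E →ᵇ V}
    (hf : ∀ x, HasFDerivAt f (ι (F x)) x) (hg : ∀ x, HasFDerivAt g (ι (G x)) x)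
    (hh : ∀ x, HasFDerivAt h (ι (H x)) x) (s t : ℝ) (e : H = s • F + t • G) :
    γ.a h = s * γ.a f + t * γ.a g := by
  have h1 : ∀ x, HasFDerivAt (fun x => s * f x + t * g x) (ι (H x)) x := by
    intro x
    have h2 := ((hf x).const_smul s).add ((hg x).const_smul t)
    have h3 : ι (H x) = s • ι (F x) + t • ι (G x) := by
      rw [e, ← map_smul ι s, ← map_smul ι t, ← map_add ι]; rfl
    rw [h3]
    exact h2
  rw [← γ.lin ⟨_, lk_of_deriv ι hι hf⟩ ⟨_, lk_of_deriv ι hι hg⟩ s t]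
  exact γ.congr ⟨_, lk_of_deriv ι hι hh⟩ (fun x y => uniq_of_deriv ι hι hh h1 x y)

/-- the functional on gradients -/
noncomputable def phi (ι : V →L[ℝ] (E →L[ℝ] ℝ)) (hι : ∀ v, ‖ι v‖ ≤ ‖v‖)
    (γ : Fct E) : W ι →ₗ[ℝ] ℝ where
  toFun G := γ.a (Classical.choose G.2)
  map_add' := by
    intro F G
    have h1 := Classical.choose_spec F.2
    have h2 := Classical.choose_spec G.2
    have h3 := Classical.choose_spec (F + G).2
    have h4 := lin_aux ι hι γ h1 h2 h3 1 1 (by simp)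
    rw [h4]; ring
  map_smul' := by
    intro c F
    have h1 := Classical.choose_spec F.2
    have h3 := Classical.choose_spec (c • F).2
    have h4 := lin_aux ι hι γ h1 h1 h3 c 0 (by simp)
    rw [h4]; simp

lemma phi_apply (ι : V →L[ℝ] (E →L[ℝ] ℝ)) (hι : ∀ v, ‖ι v‖ ≤ ‖v‖)
    (γ : Fct E) (G : W ι) {f : E → ℝ} (hf : ∀ x, HasFDerivAt f (ι (G.1 x)) x) :
    phi ι hι γ G = γ.a f := by
  have h1 := Classical.choose_spec G.2
  exact γ.congr ⟨_, lk_of_deriv ι hι h1⟩ (fun x y => uniq_of_deriv ι hι h1 hf x y)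

lemma bound_aux (ι : V →L[ℝ] (E →L[ℝ] ℝ)) (hι : ∀ v, ‖ι v‖ ≤ ‖v‖)
    (γ : Fct E) (N : ℝ) (hN : ∀ f : E → ℝ, LK 1 f → γ.a f ≤ N)
    {f : E → ℝ} {G : E →ᵇ V} (hf : ∀ x, HasFDerivAt f (ι (G x)) x) :
    γ.a f ≤ N * ‖G‖ := by
  have hk := lk_of_deriv ι hι hf
  rcases (norm_nonneg G).eq_or_lt with h0 | h0
  · have h1 : γ.a f = γ.a (fun _ => (0 : ℝ)) := by
      apply γ.congr ⟨_, hk⟩
      intro x y
      have h2 := hk x y
      have h3 := hk y x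
      rw [← h0] at h2 h3
      simp only [zero_mul] at h2 h3
      linarith
    rw [h1, γ.zero, ← h0]
    simp
  · have h1 : LK 1 (fun x => ‖G‖⁻¹ * f x) := by
      intro x y
      have h2 := hk x y
      have h3 : ‖G‖⁻¹ * (f x - f y) ≤ ‖G‖⁻¹ * (‖G‖ * dist x y) :=
        mul_le_mul_of_nonneg_left h2 (inv_nonneg.2 h0.le)
      rw [← mul_assoc, inv_mul_cancel₀ h0.ne'] at h3
      show ‖G‖⁻¹ * f x - ‖G‖⁻¹ * f y ≤ 1 * dist x y
      rw [← mul_sub]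
      exact h3
    have h2 := hN _ h1
    rw [γ.smul ⟨_, hk⟩] at h2
    have h3 : ‖G‖ * (‖G‖⁻¹ * γ.a f) ≤ ‖G‖ * N := mul_le_mul_of_nonneg_left h2 h0.le
    rw [← mul_assoc, mul_inv_cancel₀ h0.ne', one_mul] at h3
    linarith

theorem main (ι : V →L[ℝ] (E →L[ℝ] ℝ)) (hι : ∀ v, ‖ι v‖ ≤ ‖v‖)
    (γ : Fct E) (N : ℝ) (hN : ∀ f : E → ℝ, LK 1 f → γ.a f ≤ N) :
    ∃ Λ : (E →ᵇ V) →L[ℝ] ℝ, (∀ G, |Λ G| ≤ N * ‖G‖) ∧
    ∀ (f : E → ℝ) (G : E →ᵇ V), (∀ x, HasFDerivAt f (ι (G x)) x) → Λ G = γ.a f := by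
  have hN0 : 0 ≤ N := by
    have h1 := hN (fun _ => 0) (fun x y => by simp [dist_nonneg])
    rwa [γ.zero] at h1
  have hb : ∀ G : W ι, ‖phi ι hι γ G‖ ≤ N * ‖G‖ := by
    intro G
    obtain ⟨f, hf⟩ := G.2
    have h1 := bound_aux ι hι γ N hN hf
    have h2 : ∀ x, HasFDerivAt (fun x => - f x) (ι ((-G.1) x)) x := by
      intro x
      have h := (hf x).neg
      have h3 : ι ((-G.1) x) = - ι (G.1 x) := by
        rw [← map_neg]; rfl
      rw [h3]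
      exact h
    have h3 := bound_aux ι hι γ N hN h2
    rw [γ.neg ⟨_, lk_of_deriv ι hι hf⟩, norm_neg] at h3
    rw [phi_apply ι hι γ G hf, Real.norm_eq_abs, abs_le]
    refine ⟨?_, h1⟩
    have : ‖G‖ = ‖G.1‖ := rfl
    rw [this]
    linarith
  obtain ⟨g, hg1, hg2⟩ := exists_extension_norm_eq (W ι) ((phi ι hι γ).mkContinuous N hb)
  have hn : ‖g‖ ≤ N := by
    rw [hg2]
    exact LinearMap.mkContinuous_norm_le _ hN0 _
  refine ⟨g, ?_, ?_⟩
  · intro G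
    have h1 := g.le_opNorm G
    rw [Real.norm_eq_abs] at h1
    exact h1.trans (mul_le_mul_of_nonneg_right hn (norm_nonneg G))
  · intro f G hf
    have h1 := hg1 ⟨G, ⟨f, hf⟩⟩
    rw [LinearMap.mkContinuous_apply] at h1
    rw [← phi_apply ι hι γ ⟨G, ⟨f, hf⟩⟩ hf]
    exact h1

end Pool.Agent.H273.LFR.PHB

namespace Pool.Agent.H273.LFR

theorem t_HB : S_HB := by
  intro E _ _ _ γ N hN
  exact PHB.main (V := E →L[ℝ] ℝ) (ContinuousLinearMap.id ℝ (E →L[ℝ] ℝ)) (fun v => le_rfl) γ N hN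

end Pool.Agent.H273.LFR
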