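import Mathlib
import Pool.Agent.H273.LFR.Stm

/-!
# Project LFR, part HD: dichotomy for gradients of images of hinge functions
-/

set_option autoImplicit false

open MeasureTheory Set Filter Topology
open Pool.Agent.Helper23K9.LR

namespace Pool.Agent.H273.LFR

namespace PHD

variable {E : Type} [NormedAddCommGroup E] [NormedSpace ℝ E]

lemma shift {S : Rel E} {ℓ : E →L[ℝ] ℝ} {L : E → ℝ} (hL : S.R L ℓ) {t : ℝ} {H : E → ℝ}
    (hH : S.R (fun x => Rel.hinge t (L x)) H) :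
    S.R (fun x => L x - t - Rel.hinge t (L x)) (fun x => ℓ x - H x) :=
  S.congr (Rel.sub hL hH) (fun x y => by ring) (fun _ _ => rfl)

lemma mul_zero' (t t' : ℝ) (h : t ≤ t') (u : ℝ) :
    (u - t - Rel.hinge t u) * Rel.hinge t' u = 0 := by
  unfold Rel.hinge
  rcases le_total u t' with h1 | h1
  · rw [max_eq_right (by linarith : u - t' ≤ 0), mul_zero]
  · rw [max_eq_left (by linarith : 0 ≤ u - t), sub_self, zero_mul]

variable [FiniteDimensional ℝ E] [MeasurableSpace E] [BorelSpace E]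
  (μ : Measure E) [μ.IsAddHaarMeasure]

lemma ae_diff {S : Rel E} {f H : E → ℝ} (hH : S.R f H) : ∀ᵐ y ∂μ, DifferentiableAt ℝ H y := by
  obtain ⟨K, hK⟩ := S.lip hH
  exact ((S.iso hH K).1 hK).lipschitz.ae_differentiableAt

omit [FiniteDimensional ℝ E] [MeasurableSpace E] [BorelSpace E] in
lemma fd_sub {ℓ : E →L[ℝ] ℝ} {H : E → ℝ} {y : E} (h : DifferentiableAt ℝ H y)
    (h0 : fderiv ℝ (fun x => ℓ x - H x) y = 0) : fderiv ℝ H y = ℓ := by
  have h1 : HasFDerivAt (fun x => ℓ x - H x) (ℓ - fderiv ℝ H y) y :=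
    ℓ.hasFDerivAt.sub h.hasFDerivAt
  rw [h1.fderiv] at h0
  exact (sub_eq_zero.1 h0).symm

end PHD

theorem t_HD : S_HD := by
  intro E _ _ _ _ _ μ _ S hD ℓ L hL t t' H H' htt hH hH'
  have a1 := hD _ _ _ _ (PHD.shift hL hH) hH' (fun x => PHD.mul_zero' t t' htt (L x))
  have a2 := hD _ _ _ _ (PHD.shift hL hH) hH (fun x => PHD.mul_zero' t t le_rfl (L x))
  have a3 := hD _ _ _ _ (PHD.shift hL hH') hH' (fun x => PHD.mul_zero' t' t' le_rfl (L x))
  filter_upwards [a1, a2, a3, PHD.ae_diff μ hH, PHD.ae_diff μ hH'] with y h1 h2 h3 d d'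
  rcases h1 with h1 | h1
  · have e := PHD.fd_sub d h1
    rcases h3 with h3 | h3
    · exact Or.inr (Or.inr ⟨e, PHD.fd_sub d' h3⟩)
    · exact Or.inr (Or.inl ⟨e, h3⟩)
  · rcases h2 with h2 | h2
    · exact Or.inr (Or.inl ⟨PHD.fd_sub d h2, h1⟩)
    · exact Or.inl ⟨h2, h1⟩

end Pool.Agent.H273.LFR
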