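import Mathlib
import Pool.Agent.H273.LFR.Stm

set_option autoImplicit false

open MeasureTheory Set Filter Topology
open Pool.Agent.Helper23K9.LR

namespace Pool.Agent.H273.LFR

namespace PHIN

lemma aff_uniq {θ : ℝ → ℝ} {κ c κ' c' : ℝ} (h : ∀ᵐ u : ℝ, θ u = κ * u + c)
    (h' : ∀ᵐ u : ℝ, θ u = κ' * u + c') : κ = κ' ∧ c = c' := by
  have h1 : (fun u : ℝ => κ * u + c) =ᵐ[volume] (fun u : ℝ => κ' * u + c') := by
    filter_upwards [h, h'] with u h2 h3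
    rw [← h2, h3]
  have h2 : (fun u : ℝ => κ * u + c) = (fun u : ℝ => κ' * u + c') := by
    refine (Continuous.ae_eq_iff_eq (volume : Measure ℝ) ?_ ?_).1 h1 <;> fun_prop
  have h3 := congrFun h2 0
  have h4 := congrFun h2 1
  simp only [mul_zero, zero_add, mul_one] at h3 h4
  constructor <;> linarith

lemma ae_mul {P : ℝ → Prop} {a : ℝ} (ha : a ≠ 0) (h : ∀ᵐ u : ℝ, P u) : ∀ᵐ u : ℝ, P (a * u) := by
  rw [ae_iff] at h ⊢
  have h1 : {u : ℝ | ¬ P (a * u)} = (a * ·) ⁻¹' {u : ℝ | ¬ P u} := rfl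
  rw [h1, Real.volume_preimage_mul_left ha, h, mul_zero]

section
variable {E : Type} [NormedAddCommGroup E] [NormedSpace ℝ E]

lemma LK_clm (ℓ : E →L[ℝ] ℝ) : LK ‖ℓ‖ (fun x => ℓ x) := fun x y => by
  rw [← map_sub, dist_eq_norm]
  exact (le_abs_self _).trans (ℓ.le_opNorm _)

variable (S : Rel E)

lemma exists_Lf (ℓ : E →L[ℝ] ℝ) : ∃ L : E → ℝ, S.R L ℓ ∧ L 0 = 0 := by
  obtain ⟨f, hf⟩ := S.surj (fun x => ℓ x) ⟨_, LK_clm ℓ⟩
  exact ⟨fun x => f x - f 0, S.congr hf (fun x y => by ring) (fun x y => rfl), by simp⟩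

/-- the normalised preimage of a functional -/
noncomputable def Lf (ℓ : E →L[ℝ] ℝ) : E → ℝ := Classical.choose (exists_Lf S ℓ)

lemma Lf_R (ℓ : E →L[ℝ] ℝ) : S.R (Lf S ℓ) ℓ := (Classical.choose_spec (exists_Lf S ℓ)).1

lemma Lf_zero (ℓ : E →L[ℝ] ℝ) : Lf S ℓ 0 = 0 := (Classical.choose_spec (exists_Lf S ℓ)).2

lemma Lf_uniq {ℓ : E →L[ℝ] ℝ} {L : E → ℝ} (h : S.R L ℓ) (h0 : L 0 = 0) : L = Lf S ℓ := by
  funext x
  have := Rel.uniq' h (Lf_R S ℓ) x 0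
  rw [h0, Lf_zero] at this
  linarith

lemma Lf_add (ℓ m : E →L[ℝ] ℝ) : (fun x => Lf S ℓ x + Lf S m x) = Lf S (ℓ + m) := by
  apply Lf_uniq
  · exact Rel.add (Lf_R S ℓ) (Lf_R S m)
  · simp [Lf_zero]

lemma Lf_neg (ℓ : E →L[ℝ] ℝ) : (fun x => - Lf S ℓ x) = Lf S (-ℓ) := by
  apply Lf_uniq
  · exact Rel.neg (Lf_R S ℓ)
  · simp [Lf_zero]

lemma Lf_smul (r : ℝ) (ℓ : E →L[ℝ] ℝ) : (fun x => r * Lf S ℓ x) = Lf S (r • ℓ) := by
  apply Lf_uniq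
  · exact Rel.smul (Lf_R S ℓ) r
  · simp [Lf_zero]

lemma add_ne_zero_of_li {V : Type} [AddCommGroup V] [Module ℝ V] {x y : V}
    (h : LinearIndependent ℝ ![x, y]) : x + y ≠ 0 := by
  intro h1
  have := (LinearIndependent.pair_iff.1 h) 1 1 (by simpa using h1)
  exact one_ne_zero this.1

lemma ne_zero_left_of_li {V : Type} [AddCommGroup V] [Module ℝ V] {x y : V}
    (h : LinearIndependent ℝ ![x, y]) : x ≠ 0 := by
  have := h.ne_zero 0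
  simpa using this

lemma ne_zero_right_of_li {V : Type} [AddCommGroup V] [Module ℝ V] {x y : V}
    (h : LinearIndependent ℝ ![x, y]) : y ≠ 0 := by
  have := h.ne_zero 1
  simpa using this

lemma exists_li {V : Type} [AddCommGroup V] [Module ℝ V] [FiniteDimensional ℝ V]
    (h : 2 ≤ Module.finrank ℝ V) {x : V} (hx : x ≠ 0) : ∃ y : V, LinearIndependent ℝ ![x, y] := by
  have h1 : Module.finrank ℝ (Submodule.span ℝ {x}) = 1 := finrank_span_singleton hx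
  have h2 : Submodule.span ℝ {x} ≠ ⊤ := by
    intro h3
    rw [h3, finrank_top] at h1
    omega
  obtain ⟨y, hy⟩ : ∃ y, y ∉ Submodule.span ℝ {x} := by
    by_contra hcon
    push Not at hcon
    exact h2 (Submodule.eq_top_iff'.2 hcon)
  refine ⟨y, ?_⟩
  rw [LinearIndependent.pair_iff' hx]
  intro a ha
  exact hy (Submodule.mem_span_singleton.2 ⟨a, ha⟩)

end

end PHIN

open PHIN

theorem t_HIN (h1 : S_THETA) (h2 : S_ODD) (h3 : S_AFF) (h4 : S_HNG) (h5 : S_LIN) : S_HIN := by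
  intro E _ _ _ _ _ μ _ S hDP hE
  have hV : 2 ≤ Module.finrank ℝ (E →L[ℝ] ℝ) := by
    have e : (E →ₗ[ℝ] ℝ) ≃ₗ[ℝ] (E →L[ℝ] ℝ) := LinearMap.toContinuousLinearMap
    rw [← e.finrank_eq]
    have := Subspace.dual_finrank_eq (K := ℝ) (V := E)
    unfold Module.Dual at this
    rw [this]
    exact hE
  have : FiniteDimensional ℝ (E →L[ℝ] ℝ) :=
    Module.finite_of_finrank_pos (by omega)
  -- claim A
  have hA : ∀ ℓ : E →L[ℝ] ℝ, ∃ k c : ℝ, ℓ ≠ 0 → ∀ θ : ℝ → ℝ, IsTheta μ S ℓ (Lf S ℓ) θ →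
      ∀ᵐ u : ℝ, θ u = k * u + c := by
    intro ℓ
    by_cases hℓ : ℓ = 0
    · exact ⟨0, 0, fun h => absurd hℓ h⟩
    obtain ⟨m, hm⟩ := exists_li hV hℓ
    have hm0 := ne_zero_right_of_li hm
    have hs0 := add_ne_zero_of_li hm
    obtain ⟨θ₀, hθ₀⟩ := h1 E μ S hDP ℓ (Lf S ℓ) hℓ (Lf_R S ℓ)
    obtain ⟨θ', hθ'⟩ := h1 E μ S hDP m (Lf S m) hm0 (Lf_R S m)
    obtain ⟨θ'', hθ''⟩ := h1 E μ S hDP (ℓ + m) (Lf S (ℓ + m)) hs0 (Lf_R S (ℓ + m))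
    rw [← Lf_add] at hθ''
    obtain ⟨κ, c, c', ha, hb, hc⟩ := h3 E μ S hDP ℓ m _ _ θ₀ θ' θ'' hm (Lf_R S ℓ) (Lf_R S m) hθ₀ hθ' hθ''
    refine ⟨κ, c, fun _ θ hθ => ?_⟩
    obtain ⟨κ₂, c₂, c₂', ha₂, hb₂, hc₂⟩ := h3 E μ S hDP ℓ m _ _ θ θ' θ'' hm (Lf_R S ℓ) (Lf_R S m) hθ hθ' hθ''
    have e1 := aff_uniq hb hb₂
    have e2 := aff_uniq hc hc₂
    have e3 : c = c₂ := by
      have := e2.2
      rw [e1.2] at this
      linarith
    rw [e1.1, e3]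
    exact ha₂
  choose K C hKC using hA
  -- the normalised version
  classical
  set C' : (E →L[ℝ] ℝ) → ℝ := fun ℓ => if ℓ = 0 then 0 else C ℓ with hC'
  have hC'0 : C' 0 = 0 := by simp [hC']
  have hC'n : ∀ ℓ, ℓ ≠ 0 → C' ℓ = C ℓ := by
    intro ℓ hℓ
    simp [hC', hℓ]
  have hpos : ∀ (r : ℝ) (x : E →L[ℝ] ℝ), 0 < r → x ≠ 0 → K (r • x) = K x ∧ C (r • x) = r * C x := by
    intro r x hr hx
    obtain ⟨θ, hθ⟩ := h1 E μ S hDP x (Lf S x) hx (Lf_R S x)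
    have ha := hKC x hx θ hθ
    have hb := (h2 E μ S x (Lf S x) θ (Lf_R S x) hθ).2 r hr
    rw [Lf_smul] at hb
    have hrx : r • x ≠ 0 := smul_ne_zero hr.ne' hx
    have hc := hKC (r • x) hrx _ hb
    have hd : ∀ᵐ u : ℝ, r * θ (u / r) = K x * u + r * C x := by
      have := ae_mul (inv_ne_zero hr.ne') ha
      filter_upwards [this] with u hu
      rw [div_eq_inv_mul, hu]
      field_simp
    exact aff_uniq hc hd
  have hneg : ∀ x : E →L[ℝ] ℝ, x ≠ 0 → K (-x) = K x ∧ C (-x) = - C x := by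
    intro x hx
    obtain ⟨θ, hθ⟩ := h1 E μ S hDP x (Lf S x) hx (Lf_R S x)
    have ha := hKC x hx θ hθ
    have hb := (h2 E μ S x (Lf S x) θ (Lf_R S x) hθ).1
    rw [Lf_neg] at hb
    have hc := hKC (-x) (neg_ne_zero.2 hx) _ hb
    have hd : ∀ᵐ u : ℝ, - θ (-u) = K x * u + - C x := by
      have := ae_mul (neg_ne_zero.2 (one_ne_zero (α := ℝ))) ha
      filter_upwards [this] with u hu
      rw [neg_one_mul] at hu
      rw [hu]
      ring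
    exact aff_uniq hc hd
  obtain ⟨κ₀, Cl, hCl⟩ := h5 (E →L[ℝ] ℝ) hV K C' (by
    intro r x hr hx
    rw [hC'n _ (smul_ne_zero hr hx), hC'n _ hx]
    rcases lt_or_gt_of_ne hr with hr' | hr'
    · have e1 := hpos (-r) x (by linarith) hx
      have e2 := hneg ((-r) • x) (smul_ne_zero (by linarith : -r ≠ 0) hx)
      have e3 : -((-r) • x) = r • x := by
        ext z
        simp
      rw [e3] at e2
      rw [e2.1, e2.2, e1.1, e1.2]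
      exact ⟨rfl, by ring⟩
    · exact hpos r x hr' hx) (by
    intro x y hxy
    have hx := ne_zero_left_of_li hxy
    have hy := ne_zero_right_of_li hxy
    have hs := add_ne_zero_of_li hxy
    rw [hC'n _ hx, hC'n _ hy, hC'n _ hs]
    obtain ⟨θ, hθ⟩ := h1 E μ S hDP x (Lf S x) hx (Lf_R S x)
    obtain ⟨θ', hθ'⟩ := h1 E μ S hDP y (Lf S y) hy (Lf_R S y)
    obtain ⟨θ'', hθ''⟩ := h1 E μ S hDP (x + y) (Lf S (x + y)) hs (Lf_R S (x + y))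
    have f1 := hKC x hx θ hθ
    have f2 := hKC y hy θ' hθ'
    have f3 := hKC (x + y) hs θ'' hθ''
    rw [← Lf_add] at hθ''
    obtain ⟨κ, c, c', ha, hb, hc⟩ := h3 E μ S hDP x y _ _ θ θ' θ'' hxy (Lf_R S x) (Lf_R S y) hθ hθ' hθ''
    have g1 := aff_uniq f1 ha
    have g2 := aff_uniq f2 hb
    have g3 := aff_uniq f3 hc
    rw [g1.1, g2.1, g1.2, g2.2, g3.2]
    exact ⟨rfl, rfl⟩) hC'0
  have hmain : ∀ ℓ : E →L[ℝ] ℝ, ℓ ≠ 0 → ∀ L : E → ℝ, S.R L ℓ → L 0 = 0 →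
      κ₀ ≠ 0 ∧ ∀ t : ℝ, S.R (fun x => Rel.hinge t (L x)) (fun y => κ₀⁻¹ * Rel.hinge t (κ₀ * ℓ y + Cl ℓ)) := by
    intro ℓ hℓ L hL hL0
    have e := Lf_uniq S hL hL0
    subst e
    obtain ⟨θ, hθ⟩ := h1 E μ S hDP ℓ (Lf S ℓ) hℓ (Lf_R S ℓ)
    have ha := hKC ℓ hℓ θ hθ
    have e1 := hCl ℓ
    rw [hC'n _ hℓ] at e1
    rw [e1.1, e1.2 hℓ] at ha
    exact h4 E μ S ℓ (Lf S ℓ) θ κ₀ (Cl ℓ) hℓ (Lf_R S ℓ) hθ ha
  have hne : ∃ ℓ : E →L[ℝ] ℝ, ℓ ≠ 0 := by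
    have : Nontrivial (E →L[ℝ] ℝ) := Module.nontrivial_of_finrank_pos (R := ℝ) (by omega)
    exact exists_ne 0
  obtain ⟨ℓ₀, hℓ₀⟩ := hne
  have hκ : κ₀ ≠ 0 := (hmain ℓ₀ hℓ₀ (Lf S ℓ₀) (Lf_R S ℓ₀) (Lf_zero S ℓ₀)).1
  refine ⟨κ₀, Cl, hκ, fun ℓ L hL hL0 t => ?_⟩
  by_cases hℓ : ℓ = 0
  · subst hℓ
    have hz : S.R (fun _ => (0 : ℝ)) (fun x => (0 : E →L[ℝ] ℝ) x) := by
      have := Rel.smul hL 0
      simpa using this
    have hc : ∀ x, L x = 0 := by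
      intro x
      have := Rel.uniq' hL hz x 0
      simp only [sub_self, hL0, sub_zero] at this
      exact this
    refine S.congr hL (fun x y => ?_) (fun x y => ?_)
    · rw [hc x, hc y]; simp
    · simp
  · exact (hmain ℓ hℓ L hL hL0).2 t

end Pool.Agent.H273.LFR
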