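import Mathlib
import Pool.Agent.H273.LFR.Stm

set_option autoImplicit false

open MeasureTheory Set Filter Topology
open Pool.Agent.Helper23K9.LR

namespace Pool.Agent.H273.LFR

namespace PHNG

variable {E : Type} [NormedAddCommGroup E] [NormedSpace ℝ E] [FiniteDimensional ℝ E]
  [MeasurableSpace E] [BorelSpace E]

omit [FiniteDimensional ℝ E] [MeasurableSpace E] [BorelSpace E] in
lemma LK_clm (ℓ : E →L[ℝ] ℝ) : LK ‖ℓ‖ (fun x => ℓ x) := fun x y => by
  have := ℓ.le_opNorm (x - y)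
  rw [map_sub] at this
  rw [dist_eq_norm]
  exact (le_abs_self _).trans this

omit [FiniteDimensional ℝ E] [NormedSpace ℝ E] [MeasurableSpace E] [BorelSpace E] in
lemma LK_hinge {K : ℝ} {f : E → ℝ} (hf : LK K f) (t : ℝ) :
    ∃ L, LK L (fun x => Rel.hinge t (f x)) := by
  have e2 : LK |K| (fun _ : E => (0 : ℝ)) := fun x y => by
    have : 0 ≤ |K| * dist x y := mul_nonneg (abs_nonneg _) dist_nonneg
    linarith
  exact ⟨|K|, ((hf.add_const (-t)).mono (le_abs_self K)).max e2⟩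

/-- a Lipschitz function whose gradient vanishes a.e. is constant -/
lemma const_of_ae (h1 : S_RIDGE) (μ : Measure E) [μ.IsAddHaarMeasure] {H : E → ℝ} {K : ℝ}
    (hH : LK K H) (h : ∀ᵐ y ∂μ, fderiv ℝ H y = 0) (x y : E) : H x = H y :=
  h1 E μ 0 H K hH (by filter_upwards [h] with y hy; exact ⟨0, by rw [hy]; simp⟩) x y (by simp)

/-- two Lipschitz functions with a.e. the same gradient differ by a constant -/
lemma diff_of_ae (h1 : S_RIDGE) (μ : Measure E) [μ.IsAddHaarMeasure] {H G : E → ℝ} {K L : ℝ}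
    (hH : LK K H) (hG : LK L G) (h : ∀ᵐ y ∂μ, fderiv ℝ H y = fderiv ℝ G y) (x y : E) :
    H x - H y = G x - G y := by
  have hd1 := hH.lipschitz.ae_differentiableAt (μ := μ)
  have hd2 := hG.lipschitz.ae_differentiableAt (μ := μ)
  have h3 : ∀ᵐ y ∂μ, fderiv ℝ (fun x => H x + - G x) y = 0 := by
    filter_upwards [h, hd1, hd2] with y hy h4 h5
    rw [fderiv_fun_add h4 h5.fun_neg, fderiv_fun_neg, hy]
    exact add_neg_cancel _
  have := const_of_ae h1 μ (hH.add hG.neg) h3 x y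
  linarith

lemma kappa_ne_zero (h1 : S_RIDGE) (μ : Measure E) [μ.IsAddHaarMeasure] (S : Rel E)
    (ℓ : E →L[ℝ] ℝ) (L : E → ℝ) (θ : ℝ → ℝ) (c : ℝ) (hℓ : ℓ ≠ 0) (hL : S.R L ℓ)
    (hθ : IsTheta μ S ℓ L θ) (hae : ∀ᵐ y ∂μ, θ (ℓ y) = c) : False := by
  obtain ⟨KL, hKL⟩ := S.lip hL
  have hgt : ∀ t, c < t → ∀ x y, Rel.hinge t (L x) = Rel.hinge t (L y) := by
    intro t ht x y
    obtain ⟨K, hK⟩ := LK_hinge hKL t
    obtain ⟨H, hH⟩ := S.tot _ ⟨K, hK⟩
    have hHK : LK K H := (S.iso hH K).1 hK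
    have h2 : ∀ᵐ y ∂μ, fderiv ℝ H y = 0 := by
      filter_upwards [hθ.2 t H hH, hae] with y hy h3
      exact hy.2 (by rw [h3]; exact ht)
    have h3 := const_of_ae h1 μ hHK h2
    have h4 : S.R (fun x => Rel.hinge t (L x)) (fun _ => (0 : ℝ)) :=
      S.congr hH (fun _ _ => rfl) (fun x y => by rw [h3 x y]; simp)
    have h5 := Rel.uniq' h4 (S.R_const 0 0) x y
    linarith
  have hlt : ∀ t, t < c → ∀ x y, Rel.hinge t (L x) - Rel.hinge t (L y) = L x - L y := by
    intro t ht x y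
    obtain ⟨K, hK⟩ := LK_hinge hKL t
    obtain ⟨H, hH⟩ := S.tot _ ⟨K, hK⟩
    have hHK : LK K H := (S.iso hH K).1 hK
    have h2 : ∀ᵐ y ∂μ, fderiv ℝ H y = fderiv ℝ (fun x => ℓ x) y := by
      filter_upwards [hθ.2 t H hH, hae] with y hy h3
      rw [hy.1 (by rw [h3]; exact ht)]
      exact ℓ.fderiv.symm
    have h3 := diff_of_ae h1 μ hHK (LK_clm ℓ) h2
    have h4 : S.R (fun x => Rel.hinge t (L x)) ℓ :=
      S.congr hH (fun _ _ => rfl) (fun x y => h3 x y)
    exact Rel.uniq' h4 hL x y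
  have hconst : ∀ x y, ¬ L x < L y := by
    intro x y hxy
    have hy : L y ≤ c := by
      by_contra hcon
      push Not at hcon
      have h2 : max (L x) c < L y := max_lt hxy hcon
      have h3 := hgt ((max (L x) c + L y) / 2) (by linarith [le_max_right (L x) c]) x y
      have h4 := le_max_left (L x) c
      rw [Rel.hinge_lt (by linarith), Rel.hinge_gt (by linarith)] at h3
      linarith
    have h2 := hlt ((L x + L y) / 2) (by linarith) x y
    rw [Rel.hinge_lt (by linarith), Rel.hinge_gt (by linarith)] at h2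
    linarith
  have hconst' : ∀ x y, L x = L y := fun x y =>
    le_antisymm (not_lt.1 (hconst y x)) (not_lt.1 (hconst x y))
  apply hℓ
  ext x
  have h4 : S.R (fun _ => (0 : ℝ)) ℓ :=
    S.congr hL (fun x y => by rw [hconst' x y]; simp) (fun _ _ => rfl)
  have h5 := Rel.uniq h4 (S.R_const 0 0) x 0
  simpa using h5

end PHNG

open PHNG in
theorem t_HNG (h1 : S_RIDGE) : S_HNG := by
  intro E _ _ _ _ _ μ _ S ℓ L θ κ c hℓ hL hθ hae
  have hsurj : Function.Surjective (ℓ : E →ₗ[ℝ] ℝ) := by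
    apply LinearMap.surjective
    intro h
    apply hℓ
    ext x
    exact DFunLike.congr_fun h x
  have hthe : ∀ᵐ y ∂μ, θ (ℓ y) = κ * ℓ y + c := by
    have h2 := (ae_comp_linearMap_mem_iff (ℓ : E →ₗ[ℝ] ℝ) μ volume hsurj
      (s := {u | θ u = κ * u + c}) (measurableSet_eq_fun hθ.1 (by fun_prop))).2 hae
    exact h2
  have hκ : κ ≠ 0 := by
    intro hκ
    refine kappa_ne_zero h1 μ S ℓ L θ c hℓ hL hθ ?_
    filter_upwards [hthe] with y hy
    rw [hy, hκ]
    ring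
  refine ⟨hκ, fun t => ?_⟩
  obtain ⟨KL, hKL⟩ := S.lip hL
  obtain ⟨K, hK⟩ := LK_hinge hKL t
  obtain ⟨H, hH⟩ := S.tot _ ⟨K, hK⟩
  have hHK : LK K H := (S.iso hH K).1 hK
  obtain ⟨K', hK'⟩ := LK_hinge (((LK_clm ℓ).const_mul κ).add_const c) t
  have hne : ∀ᵐ y ∂μ, κ * ℓ y + c ≠ t := by
    have h2 : ∀ᵐ u : ℝ, u ∈ {u : ℝ | u ≠ (t - c) / κ} := by
      rw [ae_iff]
      have : {a : ℝ | ¬ a ∈ {u : ℝ | u ≠ (t - c) / κ}} = {(t - c) / κ} := by
        ext a
        simp
      rw [this]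
      exact measure_singleton _
    have h3 := (ae_comp_linearMap_mem_iff (ℓ : E →ₗ[ℝ] ℝ) μ volume hsurj
      (s := {u : ℝ | u ≠ (t - c) / κ}) (by
        have : {u : ℝ | u ≠ (t - c) / κ} = {(t - c) / κ}ᶜ := rfl
        rw [this]
        exact (measurableSet_singleton _).compl)).2 h2
    filter_upwards [h3] with y hy h4
    apply hy
    change ℓ y = _
    rw [eq_div_iff hκ]
    linarith
  have h2 : ∀ᵐ y ∂μ, fderiv ℝ H y = fderiv ℝ (fun y => κ⁻¹ * Rel.hinge t (κ * ℓ y + c)) y := by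
    filter_upwards [hθ.2 t H hH, hthe, hne] with y hy h3 h4
    have hcont : Continuous (fun z : E => κ * ℓ z + c) := by fun_prop
    rcases lt_or_gt_of_ne h4 with h5 | h5
    · rw [hy.2 (by rw [h3]; exact h5)]
      have hev : (fun y => κ⁻¹ * Rel.hinge t (κ * ℓ y + c)) =ᶠ[𝓝 y] fun _ => (0 : ℝ) := by
        filter_upwards [hcont.continuousAt.eventually_lt_const h5] with z hz
        rw [Rel.hinge_lt hz, mul_zero]
      rw [hev.fderiv_eq, fderiv_fun_const]
      rfl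
    · rw [hy.1 (by rw [h3]; exact h5)]
      have hev : (fun y => κ⁻¹ * Rel.hinge t (κ * ℓ y + c)) =ᶠ[𝓝 y]
          fun z => ℓ z + κ⁻¹ * (c - t) := by
        filter_upwards [hcont.continuousAt.eventually_const_lt h5] with z hz
        rw [Rel.hinge_gt hz]
        field_simp
        ring
      rw [hev.fderiv_eq, fderiv_add_const]
      exact ℓ.fderiv.symm
  have h3 := diff_of_ae h1 μ hHK (hK'.const_mul κ⁻¹) h2
  exact S.congr hH (fun _ _ => rfl) (fun x y => h3 x y)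

end Pool.Agent.H273.LFR
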