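import Mathlib
import Pool.Agent.H273.LFR.Stm

set_option autoImplicit false

open MeasureTheory Set Filter Topology
open Pool.Agent.Helper23K9.LR
open scoped ContDiff

namespace Pool.Agent.H273.LFR.PKL1

variable {E : Type} [NormedAddCommGroup E] [NormedSpace ℝ E]

lemma abs_lineDeriv_le {g : E → ℝ} {K : ℝ} (hK : 0 ≤ K) (hg : LK K g) (y v : E) :
    |lineDeriv ℝ g y v| ≤ K * ‖v‖ := by
  have h := norm_lineDeriv_le_of_lipschitz ℝ (x₀ := y) (v := v) hg.lipschitz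
  rwa [Real.norm_eq_abs, Real.coe_toNNReal K hK] at h

lemma lineDeriv_neg' (g : E → ℝ) (y v : E) :
    lineDeriv ℝ (fun x => - g x) y v = - lineDeriv ℝ g y v := by
  unfold lineDeriv
  exact deriv.fun_neg

/-- criterion for `LK 1` -/
lemma LK_of_fderiv {f : E → ℝ} (hf : Differentiable ℝ f) {C : ℝ} (h : ∀ x, ‖fderiv ℝ f x‖ ≤ C) : LK C f := by
  intro x y
  have h1 := Convex.norm_image_sub_le_of_norm_fderiv_le (𝕜 := ℝ) (f := f) (s := univ) (C := C) (x := y) (y := x)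
    (fun z _ => hf z) (fun z _ => h z) convex_univ (mem_univ _) (mem_univ _)
  rw [dist_eq_norm]
  exact (le_abs_self _).trans h1

lemma norm_fderiv_le {f : E → ℝ} {K : ℝ} (hK : 0 ≤ K) (hf : LK K f) (x : E) : ‖fderiv ℝ f x‖ ≤ K := by
  have h := norm_fderiv_le_of_lipschitz ℝ (x₀ := x) hf.lipschitz
  rwa [Real.coe_toNNReal K hK] at h

lemma LK_clm (ξ : E →L[ℝ] ℝ) : LK ‖ξ‖ (fun x => ξ x) := by
  intro x y
  rw [← map_sub, dist_eq_norm]
  exact (le_abs_self _).trans (ξ.le_opNorm _)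

lemma lineDeriv_clm (ξ : E →L[ℝ] ℝ) (y v : E) : lineDeriv ℝ (fun x => ξ x) y v = ξ v :=
  (ξ.hasFDerivAt.hasLineDerivAt v).lineDeriv

variable [FiniteDimensional ℝ E] [MeasurableSpace E] [BorelSpace E] (μ : Measure E) [μ.IsAddHaarMeasure]

theorem core (h1 : S_SPLIT) (h2 : S_SETF) (h3 : S_POS) (S : Rel E) {v : E} {ξ : E →L[ℝ] ℝ}
    (hv : Exposed v ξ) {f₁ f₂ g₁ g₂ : E → ℝ} (hR1 : S.R f₁ g₁) (hR2 : S.R f₂ g₂)
    (hc : HasCompactSupport f₁) (hd : Disjoint (tsupport f₁) (tsupport f₂)) {D : Set E}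
    (hD : MeasurableSet D) (hDb : Bornology.IsBounded D) {c : ℝ} (hc0 : 0 < c)
    (hg1 : ∀ y ∈ D, c ≤ lineDeriv ℝ g₁ y v) (hg2 : ∀ y ∈ D, c ≤ lineDeriv ℝ g₂ y v) : μ D = 0 := by
  by_contra hμ
  have hfin : μ D ≠ ⊤ := hDb.measure_lt_top.ne
  obtain ⟨hv1, hξ1, hξv, hexp⟩ := hv
  have hv0 : v ≠ 0 := by
    intro h
    rw [h, norm_zero] at hv1
    exact zero_ne_one hv1
  obtain ⟨γ₀, hγ₀⟩ := h2 E μ v D hD hfin
  set N : ℝ := μ.real D with hN
  have hNpos : 0 < N := ENNReal.toReal_pos hμ hfin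
  have hbound : ∀ f : E → ℝ, LK 1 f → (γ₀.comp S).a f ≤ N := by
    intro f hf
    have e1 := R_op S ⟨1, hf⟩
    rw [Fct.comp_a γ₀ S e1, hγ₀]
    have e2 : LK 1 (op S f) := (S.iso e1 1).1 hf
    have e3 := norm_setIntegral_le_of_norm_le_const (μ := μ) (s := D) (f := fun y => lineDeriv ℝ (op S f) y v)
      (C := 1) (lt_top_iff_ne_top.2 hfin) (fun y _ => by
        have := abs_lineDeriv_le zero_le_one e2 y v
        rw [hv1, one_mul] at this
        exact this)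
    rw [one_mul] at e3
    exact (le_abs_self _).trans e3
  obtain ⟨γ₁, γ₂, hsum, hle, e1, e2⟩ := h1 E (γ₀.comp S) N hbound f₁ f₂ (S.lip hR1) (S.lip hR2) hc hd
  set α₁ := γ₁.comp S.symm with hα₁
  set α₂ := γ₂.comp S.symm with hα₂
  have hα₁a : ∀ {f g : E → ℝ}, S.R f g → α₁.a g = γ₁.a f := fun {f g} h =>
    Fct.comp_a γ₁ S.symm (f := g) (g := f) h
  have hα₂a : ∀ {f g : E → ℝ}, S.R f g → α₂.a g = γ₂.a f := fun {f g} h =>
    Fct.comp_a γ₂ S.symm (f := g) (g := f) h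
  -- (i)
  have hi : ∀ k : E → ℝ, (∃ K, LK K k) → α₁.a k + α₂.a k = ∫ y in D, lineDeriv ℝ k y v ∂μ := by
    intro k hk
    obtain ⟨f, hf⟩ := S.surj k hk
    rw [hα₁a hf, hα₂a hf, hsum f (S.lip hf), Fct.comp_a γ₀ S hf, hγ₀]
  -- (ii)
  have hii : ∀ f g : E → ℝ, LK 1 f → LK 1 g → α₁.a f + α₂.a g ≤ N := by
    intro f g hf hg
    obtain ⟨f', hf'⟩ := S.surj f ⟨1, hf⟩
    obtain ⟨g', hg'⟩ := S.surj g ⟨1, hg⟩
    rw [hα₁a hf', hα₂a hg']
    exact hle f' g' ((S.iso hf' 1).2 hf) ((S.iso hg' 1).2 hg)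
  -- (iii)
  have hξL : LK 1 (fun x => ξ x) := by
    have := LK_clm ξ
    rwa [hξ1] at this
  have hiii : α₁.a (fun x => ξ x) + α₂.a (fun x => ξ x) = N := by
    rw [hi _ ⟨1, hξL⟩]
    simp only [lineDeriv_clm, hξv]
    rw [setIntegral_const, smul_eq_mul, mul_one]
  have hmax1 : ∀ f : E → ℝ, LK 1 f → α₁.a f ≤ α₁.a (fun x => ξ x) := by
    intro f hf
    have := hii f _ hf hξL
    linarith
  have hmax2 : ∀ f : E → ℝ, LK 1 f → α₂.a f ≤ α₂.a (fun x => ξ x) := by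
    intro f hf
    have := hii _ f hξL hf
    linarith
  -- (iv)
  have hiv : ∀ α : Fct E, (∀ f : E → ℝ, LK 1 f → α.a f ≤ α.a (fun x => ξ x)) →
      ∀ p : E → ℝ, ContDiff ℝ 1 p → (∃ K, LK K p) → (∀ y, 0 ≤ lineDeriv ℝ p y v) → 0 ≤ α.a p := by
    intro α hα p hp ⟨K, hK⟩ hpv
    wlog hK0 : 0 ≤ K generalizing K
    · exact this (max K 0) (hK.mono (le_max_left _ _)) (le_max_right _ _)
    have hpd : Differentiable ℝ p := hp.differentiable (by norm_num)
    have key : ∀ δ : ℝ, 0 < δ → 0 ≤ α.a p + δ * α.a (fun x => ξ x) := by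
      intro δ hδ
      obtain ⟨η, hη, hη2⟩ := hexp δ (K + δ) hδ
      have hL2 : LK 1 (fun x => ξ x - η * (p x + δ * ξ x)) := by
        have hder : ∀ x, HasFDerivAt (fun x => ξ x - η * (p x + δ * ξ x))
            (ξ - η • (fderiv ℝ p x + δ • ξ)) x := by
          intro x
          have a1 : HasFDerivAt (fun x => ξ x) ξ x := ξ.hasFDerivAt
          have a2 := (hpd x).hasFDerivAt
          exact a1.sub ((a2.add (a1.const_mul δ)).const_mul η)
        apply LK_of_fderiv (fun x => (hder x).differentiableAt)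
        intro x
        rw [(hder x).fderiv]
        apply hη2
        · have b1 := hpv x
          rw [(hpd x).lineDeriv_eq_fderiv] at b1
          rw [add_apply, smul_apply, hξv, smul_eq_mul, mul_one]
          linarith
        · refine (norm_add_le _ _).trans ?_
          have b2 := norm_fderiv_le hK0 hK x
          have b3 : ‖δ • ξ‖ = δ := by
            rw [norm_smul, hξ1, mul_one, Real.norm_eq_abs, abs_of_pos hδ]
          rw [b3]
          linarith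
      have c1 := hα _ hL2
      have c2 : α.a (fun x => ξ x - η * (p x + δ * ξ x)) =
          α.a (fun x => ξ x) - η * (α.a p + δ * α.a (fun x => ξ x)) := by
        have d1 : ∃ K, LK K (fun x => δ * ξ x) := ⟨_, hξL.const_mul δ⟩
        have d2 : ∃ K, LK K (fun x => p x + δ * ξ x) := ⟨_, hK.add (hξL.const_mul δ)⟩
        have d3 : ∃ K, LK K (fun x => η * (p x + δ * ξ x)) := ⟨_, (hK.add (hξL.const_mul δ)).const_mul η⟩
        rw [α.sub ⟨1, hξL⟩ d3, α.smul d2, α.add ⟨K, hK⟩ d1, α.smul ⟨1, hξL⟩]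
      rw [c2] at c1
      by_contra hcon
      push Not at hcon
      nlinarith
    have hlim : Tendsto (fun δ : ℝ => α.a p + δ * α.a (fun x => ξ x)) (𝓝[>] 0) (𝓝 (α.a p + 0 * α.a (fun x => ξ x))) := by
      apply Tendsto.mono_left _ nhdsWithin_le_nhds
      apply Continuous.tendsto
      fun_prop
    rw [zero_mul, add_zero] at hlim
    apply ge_of_tendsto hlim
    filter_upwards [self_mem_nhdsWithin] with δ hδ
    exact key δ hδ
  -- (v)
  have hv5 : ∀ p : E → ℝ, ContDiff ℝ 1 p → (∃ K, LK K p) → (∀ y, 0 ≤ lineDeriv ℝ p y v) →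
      0 ≤ α₁.a p ∧ α₁.a p ≤ ∫ y in D, lineDeriv ℝ p y v ∂μ := by
    intro p hp hK hpv
    have a1 := hiv α₁ hmax1 p hp hK hpv
    have a2 := hiv α₂ hmax2 p hp hK hpv
    have a3 := hi p hK
    refine ⟨a1, ?_⟩
    rw [← a3]
    linarith
  -- (vi)
  obtain ⟨K₂, hK₂⟩ := S.lip hR2
  have hg2L : LK K₂ g₂ := (S.iso hR2 K₂).1 hK₂
  obtain ⟨K₁, hK₁⟩ := S.lip hR1
  have hg1L : LK K₁ g₁ := (S.iso hR1 K₁).1 hK₁
  have hqL : LK (K₂ + |(-c)| * 1) (fun x => g₂ x + (-c) * ξ x) := hg2L.add (hξL.const_mul (-c))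
  have hpos := h3 E μ v hv0 D hD hDb α₁ hv5 (fun x => g₂ x + (-c) * ξ x) _ hqL (by
    filter_upwards [hg2L.lipschitz.ae_lineDifferentiableAt (μ := μ) v] with y hy hyD
    have a1 : HasLineDerivAt ℝ g₂ (lineDeriv ℝ g₂ y v) y v := hy.hasLineDerivAt
    have a2 : HasLineDerivAt ℝ (fun x => (-c) * ξ x) ((-c) * ξ v) y v := by
      have := (ξ.hasFDerivAt (x := y)).const_mul (-c)
      exact this.hasLineDerivAt v
    have a3 : HasLineDerivAt ℝ (fun x => g₂ x + (-c) * ξ x) (lineDeriv ℝ g₂ y v + (-c) * ξ v) y v :=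
      HasDerivAt.add a1 a2
    rw [a3.lineDeriv, hξv]
    have := hg2 y hyD
    linarith)
  rw [α₁.add ⟨K₂, hg2L⟩ ⟨_, hξL.const_mul (-c)⟩, α₁.smul ⟨1, hξL⟩, hα₁a hR2, e2, zero_add] at hpos
  have hneg : α₁.a (fun x => ξ x) ≤ 0 := by
    by_contra hcon
    push Not at hcon
    nlinarith
  have hzero1 : ∀ f : E → ℝ, LK 1 f → α₁.a f = 0 := by
    intro f hf
    have a1 := (hmax1 f hf).trans hneg
    have a2 := (hmax1 _ hf.neg).trans hneg
    rw [α₁.neg ⟨1, hf⟩] at a2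
    linarith
  have hzero : α₁.a g₁ = 0 := by
    have hM : (0 : ℝ) < max K₁ 1 := lt_max_of_lt_right one_pos
    have a1 : LK 1 (fun x => (max K₁ 1)⁻¹ * g₁ x) := by
      have := (hg1L.mono (le_max_left K₁ 1)).const_mul (max K₁ 1)⁻¹
      rwa [abs_of_pos (inv_pos.2 hM), inv_mul_cancel₀ hM.ne'] at this
    have a2 := hzero1 _ a1
    rw [α₁.smul ⟨K₁, hg1L⟩] at a2
    rcases mul_eq_zero.1 a2 with h | h
    · exact absurd h (inv_pos.2 hM).ne'
    · exact h
  rw [hα₁a hR1, e1, Fct.comp_a γ₀ S hR1, hγ₀] at hzero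
  have hlow : c * N ≤ ∫ y in D, lineDeriv ℝ g₁ y v ∂μ := by
    have a1 : ∫ y in D, c ∂μ = c * N := by
      rw [setIntegral_const, smul_eq_mul, mul_comm]
    rw [← a1]
    apply setIntegral_mono_on (integrableOn_const hfin) _ hD hg1
    have a2 := hg1L.lipschitz.locallyIntegrable_lineDeriv (μ := μ) v
    exact (a2.integrableOn_isCompact hDb.isCompact_closure).mono_set subset_closure
  have : 0 < c * N := mul_pos hc0 hNpos
  linarith

lemma abs_cases (s : ℝ) (hs : s ≠ 0) : ∃ σ : ℝ, (σ = 1 ∨ σ = -1) ∧ 0 < σ * s := by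
  rcases lt_or_gt_of_ne hs with h | h
  · exact ⟨-1, Or.inr rfl, by linarith⟩
  · exact ⟨1, Or.inl rfl, by linarith⟩

end Pool.Agent.H273.LFR.PKL1

namespace Pool.Agent.H273.LFR
open PKL1

theorem t_KL1 (h1 : S_SPLIT) (h2 : S_SETF) (h3 : S_POS) : S_KL1 := by
  intro E _ _ _ _ _ μ _ S v ξ hv f₁ f₂ g₁ g₂ hR1 hR2 hc hd
  obtain ⟨K₁, hK₁⟩ := S.lip hR1
  obtain ⟨K₂, hK₂⟩ := S.lip hR2
  have hg1L : LK K₁ g₁ := (S.iso hR1 K₁).1 hK₁
  have hg2L : LK K₂ g₂ := (S.iso hR2 K₂).1 hK₂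
  have hm1 : Measurable (fun y => lineDeriv ℝ g₁ y v) := measurable_lineDeriv hg1L.continuous
  have hm2 : Measurable (fun y => lineDeriv ℝ g₂ y v) := measurable_lineDeriv hg2L.continuous
  -- the exceptional sets
  have hnull : ∀ (σ τ : ℝ), (σ = 1 ∨ σ = -1) → (τ = 1 ∨ τ = -1) → ∀ n : ℕ,
      μ ({y | 1 / ((n : ℝ) + 1) ≤ σ * lineDeriv ℝ g₁ y v} ∩ {y | 1 / ((n : ℝ) + 1) ≤ τ * lineDeriv ℝ g₂ y v} ∩
        Metric.closedBall 0 n) = 0 := by
    intro σ τ hσ hτ n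
    have hsupp : ∀ (f : E → ℝ) (σ : ℝ), (σ = 1 ∨ σ = -1) → Function.support (fun x => σ * f x) = Function.support f := by
      intro f σ hσ
      ext x
      rw [Function.mem_support, Function.mem_support]
      rcases hσ with rfl | rfl <;> simp
    have hts : ∀ (f : E → ℝ) (σ : ℝ), (σ = 1 ∨ σ = -1) → tsupport (fun x => σ * f x) = tsupport f := by
      intro f σ hσ
      rw [tsupport, tsupport, hsupp f σ hσ]
    have hlin : ∀ (g : E → ℝ) (σ : ℝ), (σ = 1 ∨ σ = -1) → ∀ y, lineDeriv ℝ (fun x => σ * g x) y v = σ * lineDeriv ℝ g y v := by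
      intro g σ hσ y
      rcases hσ with rfl | rfl
      · simp
      · have := lineDeriv_neg' g y v
        simp only [neg_mul, one_mul]
        exact this
    have hcs : HasCompactSupport (fun x => σ * f₁ x) := by
      have : HasCompactSupport (fun x => σ * f₁ x) ↔ HasCompactSupport f₁ := by
        unfold HasCompactSupport
        rw [hts f₁ σ hσ]
      exact this.2 hc
    have hds : Disjoint (tsupport (fun x => σ * f₁ x)) (tsupport (fun x => τ * f₂ x)) := by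
      rw [hts f₁ σ hσ, hts f₂ τ hτ]
      exact hd
    refine core μ h1 h2 h3 S hv (Rel.smul hR1 σ) (Rel.smul hR2 τ) hcs hds ?_ ?_
      (c := 1 / ((n : ℝ) + 1)) (by positivity) ?_ ?_
    · exact ((measurableSet_le measurable_const (hm1.const_mul σ)).inter
        (measurableSet_le measurable_const (hm2.const_mul τ))).inter Metric.isClosed_closedBall.measurableSet
    · exact Metric.isBounded_closedBall.subset inter_subset_right
    · intro y hy
      rw [hlin g₁ σ hσ]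
      exact hy.1.1
    · intro y hy
      rw [hlin g₂ τ hτ]
      exact hy.1.2
  have hall : ∀ᵐ y ∂μ, ∀ n : ℕ, ∀ σ ∈ ({1, -1} : Set ℝ), ∀ τ ∈ ({1, -1} : Set ℝ),
      ¬ (y ∈ ({y | 1 / ((n : ℝ) + 1) ≤ σ * lineDeriv ℝ g₁ y v} ∩ {y | 1 / ((n : ℝ) + 1) ≤ τ * lineDeriv ℝ g₂ y v} ∩
        Metric.closedBall 0 n)) := by
    rw [ae_all_iff]
    intro n
    have hcount : ({1, -1} : Set ℝ).Countable := (Set.toFinite _).countable
    rw [ae_ball_iff hcount]
    intro σ hσ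
    rw [ae_ball_iff hcount]
    intro τ hτ
    have hσ' : σ = 1 ∨ σ = -1 := by simpa using hσ
    have hτ' : τ = 1 ∨ τ = -1 := by simpa using hτ
    exact measure_eq_zero_iff_ae_notMem.1 (hnull σ τ hσ' hτ' n)
  filter_upwards [hall] with y hy
  by_contra hcon
  have ha : lineDeriv ℝ g₁ y v ≠ 0 := left_ne_zero_of_mul hcon
  have hb : lineDeriv ℝ g₂ y v ≠ 0 := right_ne_zero_of_mul hcon
  obtain ⟨σ, hσ, hσ2⟩ := abs_cases _ ha
  obtain ⟨τ, hτ, hτ2⟩ := abs_cases _ hb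
  obtain ⟨n₁, hn₁⟩ := exists_nat_one_div_lt (lt_min hσ2 hτ2)
  obtain ⟨n₂, hn₂⟩ := exists_nat_ge ‖y‖
  set n := max n₁ n₂ with hn
  have hle : 1 / ((n : ℝ) + 1) ≤ 1 / ((n₁ : ℝ) + 1) := by
    apply one_div_le_one_div_of_le (by positivity)
    have : (n₁ : ℝ) ≤ n := by exact_mod_cast le_max_left _ _
    linarith
  have hlt := hle.trans_lt hn₁
  apply hy n σ (by simpa using hσ) τ (by simpa using hτ)
  refine ⟨⟨?_, ?_⟩, ?_⟩
  · exact (hlt.trans_le (min_le_left _ _)).le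
  · exact (hlt.trans_le (min_le_right _ _)).le
  · rw [Metric.mem_closedBall, dist_zero_right]
    refine hn₂.trans ?_
    exact_mod_cast le_max_right _ _

end Pool.Agent.H273.LFR
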