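import Mathlib
import Pool.Agent.H273.LFR.Stm

/-!
# Project LFR: limits of the level sets as `t → ±∞`
-/

set_option autoImplicit false
set_option linter.unusedSectionVars false

open MeasureTheory Set Filter Topology
open Pool.Agent.Helper23K9.LR

namespace Pool.Agent.H273.LFR

namespace PLIM

section

variable {E : Type} [NormedAddCommGroup E] [NormedSpace ℝ E]

lemma LK_hinge {K : ℝ} (h0 : 0 ≤ K) {L : E → ℝ} (h : LK K L) (t : ℝ) :
    LK K (fun x => Rel.hinge t (L x)) := by
  have hz : LK K (fun _ : E => (0 : ℝ)) := fun x y => by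
    have : 0 ≤ K * dist x y := mul_nonneg h0 dist_nonneg
    simpa using this
  have h1 := (h.add_const (-t)).max hz
  intro x y
  exact h1 x y

lemma R_zero (S : Rel E) {f g : E → ℝ} (h : S.R f g) : S.R (fun _ => 0) (fun _ => 0) :=
  S.congr (Rel.sub h h) (fun x y => by simp) (fun x y => by simp)

variable [FiniteDimensional ℝ E] [MeasurableSpace E] [BorelSpace E] {μ : Measure E}
  [μ.IsAddHaarMeasure]

/-- a sequence of functions tending to a constant whose directional derivatives are `0` or `1` -/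
lemma core (h2 : S_WEAK) (G : ℕ → E → ℝ) (K : ℝ) (hK : ∀ n, LK K (G n))
    (hlim : ∀ x y, Tendsto (fun n => G n x - G n y) atTop (𝓝 0)) (u : E)
    (h01 : ∀ n, ∀ᵐ y ∂μ, lineDeriv ℝ (G n) y u = 0 ∨ lineDeriv ℝ (G n) y u = 1) :
    ∀ᵐ y ∂μ, ∃ n, lineDeriv ℝ (G n) y u = 0 := by
  have hmeas : ∀ n, Measurable fun y => lineDeriv ℝ (G n) y u := fun n =>
    measurable_lineDeriv (hK n).continuous
  set B : Set E := {y | ∀ n, lineDeriv ℝ (G n) y u = 1} with hB
  have hBm : MeasurableSet B := by
    have h3 : B = ⋂ n, (fun y => lineDeriv ℝ (G n) y u) ⁻¹' {1} := by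
      ext y
      simp [hB]
    rw [h3]
    exact MeasurableSet.iInter fun n => hmeas n (measurableSet_singleton 1)
  have hball : ∀ R : ℕ, μ (B ∩ Metric.ball 0 R) = 0 := by
    intro R
    have hfin : μ (Metric.ball (0 : E) R) ≠ ⊤ := measure_ball_lt_top.ne
    have hfin2 : μ (B ∩ Metric.ball (0 : E) R) ≠ ⊤ :=
      ne_top_of_le_ne_top hfin (measure_mono inter_subset_right)
    have hw := h2 E μ G (fun _ => 0) K hK (fun x y => by simpa using hlim x y) u
      (Metric.ball 0 R) measurableSet_ball hfin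
    have h0 : ∫ y in Metric.ball (0 : E) R, lineDeriv ℝ (fun _ : E => (0 : ℝ)) y u ∂μ = 0 := by
      have h3 : ∀ y : E, lineDeriv ℝ (fun _ : E => (0 : ℝ)) y u = 0 := fun y => by
        simp [lineDeriv]
      simp only [h3, integral_zero]
    rw [h0] at hw
    have hle : ∀ n, μ.real (B ∩ Metric.ball 0 R) ≤
        ∫ y in Metric.ball (0 : E) R, lineDeriv ℝ (G n) y u ∂μ := by
      intro n
      have e1 : μ.real (B ∩ Metric.ball 0 R) =
          ∫ y in Metric.ball (0 : E) R, B.indicator (fun _ => (1 : ℝ)) y ∂μ := by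
        rw [integral_indicator hBm, Measure.restrict_restrict hBm]
        simp [Measure.real]
      rw [e1]
      refine integral_mono_ae ?_ ?_ ?_
      · refine Measure.integrableOn_of_bounded (M := 1) hfin
          (measurable_const.indicator hBm).aestronglyMeasurable ?_
        refine Eventually.of_forall fun y => ?_
        by_cases hy : y ∈ B
        · simp [indicator_of_mem hy]
        · simp [indicator_of_notMem hy]
      · refine Measure.integrableOn_of_bounded (M := 1) hfin (hmeas n).aestronglyMeasurable ?_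
        refine ae_restrict_of_ae ?_
        filter_upwards [h01 n] with y hy
        rcases hy with h | h <;> rw [h] <;> simp
      · refine ae_restrict_of_ae ?_
        filter_upwards [h01 n] with y hy
        by_cases hyB : y ∈ B
        · rw [indicator_of_mem hyB, hyB n]
        · rw [indicator_of_notMem hyB]
          rcases hy with h | h <;> rw [h]
          exact zero_le_one
    have h3 : μ.real (B ∩ Metric.ball 0 R) ≤ 0 := ge_of_tendsto' hw hle
    have h4 : μ.real (B ∩ Metric.ball 0 R) = 0 := le_antisymm h3 measureReal_nonneg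
    exact (measureReal_eq_zero_iff hfin2).1 h4
  have hB0 : μ B = 0 := by
    have h3 : B ⊆ ⋃ R : ℕ, B ∩ Metric.ball 0 R := by
      intro y hy
      obtain ⟨R, hR⟩ := exists_nat_gt ‖y‖
      exact mem_iUnion.2 ⟨R, hy, by simpa using hR⟩
    exact measure_mono_null h3 (measure_iUnion_null hball)
  have h5 : ∀ᵐ y ∂μ, y ∉ B := measure_eq_zero_iff_ae_notMem.1 hB0
  filter_upwards [h5, ae_all_iff.2 h01] with y hy1 hy2
  by_contra hcon
  push Not at hcon
  exact hy1 fun n => (hy2 n).resolve_left (hcon n)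

end

end PLIM

open PLIM in
theorem t_LIM (h1 : S_HD) (h2 : S_WEAK) : S_LIM := by
  intro E _ _ _ _ _ μ _ S hDP ℓ L hR
  by_cases hℓ : ℓ = 0
  · subst hℓ
    constructor
    · intro H hH
      filter_upwards [h1 E μ S hDP 0 L hR _ _ (H 0) (H 0) le_rfl (hH 0) (hH 0)] with y hy
      exact ⟨0, by rcases hy with h | h | h <;> exact h.1⟩
    · intro H hH
      filter_upwards [h1 E μ S hDP 0 L hR _ _ (H 0) (H 0) le_rfl (hH 0) (hH 0)] with y hy
      exact ⟨0, by rcases hy with h | h | h <;> exact h.1⟩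
  obtain ⟨K', hK'⟩ := S.lip hR
  have hK0 : 0 ≤ |K'| := abs_nonneg _
  have hK : LK |K'| L := hK'.mono (le_abs_self _)
  obtain ⟨u, hu⟩ : ∃ u, ℓ u = 1 := by
    obtain ⟨w, hw⟩ : ∃ w, ℓ w ≠ 0 := by
      by_contra hcon
      push Not at hcon
      exact hℓ (ContinuousLinearMap.ext hcon)
    exact ⟨(ℓ w)⁻¹ • w, by rw [map_smul, smul_eq_mul, inv_mul_cancel₀ hw]⟩
  have key : ∀ (t : ℝ) (H : E → ℝ), S.R (fun x => Rel.hinge t (L x)) H →
      ∀ᵐ y ∂μ, DifferentiableAt ℝ H y ∧ (fderiv ℝ H y = 0 ∨ fderiv ℝ H y = ℓ) := by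
    intro t H hH
    have hL : LK |K'| H := (S.iso hH _).1 (LK_hinge hK0 hK t)
    filter_upwards [hL.lipschitz.ae_differentiableAt (μ := μ),
      h1 E μ S hDP ℓ L hR t t H H le_rfl hH hH] with y hy1 hy2
    refine ⟨hy1, ?_⟩
    rcases hy2 with h | h | h
    · exact Or.inl h.1
    · exact Or.inl h.2
    · exact Or.inr h.1
  have hz := R_zero S hR
  constructor
  · -- `t → -∞`
    intro H hH
    have hG : ∀ n : ℕ, S.R (fun x => L x - Rel.hinge (-(n : ℝ)) (L x)) (fun x => ℓ x - H n x) :=
      fun n => Rel.sub hR (hH n)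
    have hLf : ∀ n : ℕ, LK (|K'| + |K'|) (fun x => L x - Rel.hinge (-(n : ℝ)) (L x)) := by
      intro n x y
      have h3 := hK.add (LK_hinge hK0 hK (-(n : ℝ))).neg x y
      simp only [← sub_eq_add_neg] at h3
      exact h3
    have hLG : ∀ n : ℕ, LK (|K'| + |K'|) (fun x => ℓ x - H n x) := fun n =>
      (S.iso (hG n) _).1 (hLf n)
    have hlim0 : ∀ x y, Tendsto (fun n : ℕ => (L x - Rel.hinge (-(n : ℝ)) (L x)) -
        (L y - Rel.hinge (-(n : ℝ)) (L y))) atTop (𝓝 ((0 : ℝ) - 0)) := by
      intro x y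
      rw [sub_zero]
      refine tendsto_const_nhds.congr' ?_
      obtain ⟨N1, hN1⟩ := exists_nat_ge (-(L x))
      obtain ⟨N2, hN2⟩ := exists_nat_ge (-(L y))
      filter_upwards [eventually_ge_atTop N1, eventually_ge_atTop N2] with n h3 h4
      have h5 : (N1 : ℝ) ≤ n := by exact_mod_cast h3
      have h6 : (N2 : ℝ) ≤ n := by exact_mod_cast h4
      unfold Rel.hinge
      rw [max_eq_left (by linarith), max_eq_left (by linarith)]
      ring
    have hlim := S.cont _ _ _ _ _ hG hLf hz hlim0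
    have hlim' : ∀ x y, Tendsto (fun n : ℕ => (ℓ x - H n x) - (ℓ y - H n y)) atTop (𝓝 0) := by
      intro x y
      have h3 := hlim x y
      rwa [sub_zero] at h3
    have hline : ∀ n : ℕ, ∀ᵐ y ∂μ, lineDeriv ℝ (fun x => ℓ x - H n x) y u =
        1 - fderiv ℝ (H n) y u := by
      intro n
      filter_upwards [key _ _ (hH n)] with y hy
      have h3 : HasFDerivAt (fun x => ℓ x - H n x) (ℓ - fderiv ℝ (H n) y) y :=
        (ℓ.hasFDerivAt).sub hy.1.hasFDerivAt
      rw [h3.differentiableAt.lineDeriv_eq_fderiv, h3.fderiv, _root_.sub_apply, hu]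
    have h01 : ∀ n : ℕ, ∀ᵐ y ∂μ, lineDeriv ℝ (fun x => ℓ x - H n x) y u = 0 ∨
        lineDeriv ℝ (fun x => ℓ x - H n x) y u = 1 := by
      intro n
      filter_upwards [key _ _ (hH n), hline n] with y hy hy2
      rw [hy2]
      rcases hy.2 with h | h
      · right
        rw [h]
        simp
      · left
        rw [h, hu]
        simp
    have hc := core (μ := μ) h2 (fun n x => ℓ x - H n x) _ hLG hlim' u h01
    filter_upwards [hc, ae_all_iff.2 hline, ae_all_iff.2 fun n => key _ _ (hH n)] with y hy1 hy2 hy3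
    obtain ⟨n, hn⟩ := hy1
    refine ⟨n, ?_⟩
    rcases (hy3 n).2 with h | h
    · exfalso
      rw [hy2 n, h] at hn
      simp at hn
    · exact h
  · -- `t → ∞`
    intro H hH
    have hLf : ∀ n : ℕ, LK |K'| (fun x => Rel.hinge (n : ℝ) (L x)) := fun n =>
      LK_hinge hK0 hK _
    have hLG : ∀ n : ℕ, LK |K'| (H n) := fun n => (S.iso (hH n) _).1 (hLf n)
    have hlim0 : ∀ x y, Tendsto (fun n : ℕ => Rel.hinge (n : ℝ) (L x) -
        Rel.hinge (n : ℝ) (L y)) atTop (𝓝 ((0 : ℝ) - 0)) := by
      intro x y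
      rw [sub_zero]
      refine tendsto_const_nhds.congr' ?_
      obtain ⟨N1, hN1⟩ := exists_nat_ge (L x)
      obtain ⟨N2, hN2⟩ := exists_nat_ge (L y)
      filter_upwards [eventually_ge_atTop N1, eventually_ge_atTop N2] with n h3 h4
      have h5 : (N1 : ℝ) ≤ n := by exact_mod_cast h3
      have h6 : (N2 : ℝ) ≤ n := by exact_mod_cast h4
      unfold Rel.hinge
      rw [max_eq_right (by linarith), max_eq_right (by linarith)]
      ring
    have hlim := S.cont _ _ _ _ _ hH hLf hz hlim0
    have hlim' : ∀ x y, Tendsto (fun n : ℕ => H n x - H n y) atTop (𝓝 0) := by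
      intro x y
      have h3 := hlim x y
      rwa [sub_zero] at h3
    have hline : ∀ n : ℕ, ∀ᵐ y ∂μ, lineDeriv ℝ (H n) y u = fderiv ℝ (H n) y u := by
      intro n
      filter_upwards [key _ _ (hH n)] with y hy
      exact hy.1.lineDeriv_eq_fderiv
    have h01 : ∀ n : ℕ, ∀ᵐ y ∂μ, lineDeriv ℝ (H n) y u = 0 ∨ lineDeriv ℝ (H n) y u = 1 := by
      intro n
      filter_upwards [key _ _ (hH n), hline n] with y hy hy2
      rw [hy2]
      rcases hy.2 with h | h
      · left
        rw [h]
        simp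
      · right
        rw [h, hu]
    have hc := core (μ := μ) h2 H _ hLG hlim' u h01
    filter_upwards [hc, ae_all_iff.2 hline, ae_all_iff.2 fun n => key _ _ (hH n)] with y hy1 hy2 hy3
    obtain ⟨n, hn⟩ := hy1
    refine ⟨n, ?_⟩
    rcases (hy3 n).2 with h | h
    · exact h
    · exfalso
      rw [hy2 n, h, hu] at hn
      exact one_ne_zero hn

end Pool.Agent.H273.LFR
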