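import Mathlib
import Pool.Agent.H273.LFR.Stm

/-! LIN (project LFR of helper273): pure linear algebra. -/

set_option autoImplicit false

open MeasureTheory Set Filter Topology
open Pool.Agent.Helper23K9.LR

namespace Pool.Agent.H273.LFR

theorem t_LIN : S_LIN := by
  intro V _ _ _ hV κ c h1 h2 h0
  have hhom : ∀ (r : ℝ) (x : V), c (r • x) = r * c x := by
    intro r x
    by_cases hr : r = 0
    · rw [hr, zero_smul, h0, zero_mul]
    by_cases hx : x = 0
    · rw [hx, smul_zero, h0, mul_zero]
    exact (h1 r x hr hx).2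
  have hadd : ∀ x y : V, c (x + y) = c x + c y := by
    intro x y
    by_cases hx : x = 0
    · rw [hx, zero_add, h0, zero_add]
    by_cases hli : LinearIndependent ℝ ![x, y]
    · exact (h2 x y hli).2
    · rw [LinearIndependent.pair_iff' hx] at hli
      push Not at hli
      obtain ⟨a, rfl⟩ := hli
      have h3 : x + a • x = (1 + a) • x := by rw [add_smul, one_smul]
      rw [h3, hhom, hhom]
      ring
  have hnt : Nontrivial V := Module.nontrivial_of_finrank_pos (R := ℝ) (by omega)
  obtain ⟨x₀, hx₀⟩ := exists_ne (0 : V)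
  refine ⟨κ x₀, IsLinearMap.mk' c ⟨hadd, fun r x => hhom r x⟩, fun x => ⟨rfl, fun hx => ?_⟩⟩
  by_cases hli : LinearIndependent ℝ ![x, x₀]
  · exact (h2 x x₀ hli).1
  · rw [LinearIndependent.pair_iff' hx] at hli
    push Not at hli
    obtain ⟨a, ha⟩ := hli
    have ha0 : a ≠ 0 := by
      rintro rfl
      rw [zero_smul] at ha
      exact hx₀ ha.symm
    rw [← ha]
    exact (h1 a x ha0 hx).1.symm

end Pool.Agent.H273.LFR
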