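import Mathlib
import Pool.Agent.H273.LFR.Stm

/-!
# Project LFR, task MOLL: mollification of a Lipschitz function
-/

set_option autoImplicit false

open MeasureTheory Set Filter Topology
open Pool.Agent.Helper23K9.LR
open scoped ContDiff Convolution

namespace Pool.Agent.H273.LFR

theorem t_MOLL : S_MOLL := by
  intro E _ _ _ f K hf
  let _ : MeasurableSpace E := borel E
  have _ : BorelSpace E := ⟨rfl⟩
  set μ : Measure E := MeasureTheory.Measure.addHaar with hμ
  set φ : ℕ → ContDiffBump (0 : E) := fun n =>
    { rIn := 1 / (2 * ((n : ℝ) + 1))
      rOut := 1 / ((n : ℝ) + 1)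
      rIn_pos := by positivity
      rIn_lt_rOut := by
        apply one_div_lt_one_div_of_lt (by positivity)
        have : (0 : ℝ) ≤ n := Nat.cast_nonneg n
        linarith } with hφ
  have hr : Tendsto (fun n => (φ n).rOut) atTop (𝓝 0) := tendsto_one_div_add_atTop_nhds_zero_nat
  have hcont : Continuous f := hf.lipschitz.continuous
  have hex : ∀ n x, ConvolutionExistsAt ((φ n).normed μ) f x (ContinuousLinearMap.lsmul ℝ ℝ) μ := by
    intro n x
    apply HasCompactSupport.convolutionExists_left_of_continuous_right
    · exact (φ n).hasCompactSupport_normed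
    · exact (φ n).continuous_normed.locallyIntegrable
    · exact hcont
  refine ⟨fun n => MeasureTheory.convolution ((φ n).normed μ) f (ContinuousLinearMap.lsmul ℝ ℝ) μ,
    ?_, ?_, ?_⟩
  · intro n
    exact (φ n).hasCompactSupport_normed.contDiff_convolution_left _ (φ n).contDiff_normed
      hcont.locallyIntegrable
  · intro n x y
    have i1 : ∀ z, Integrable (fun t => (φ n).normed μ t • f (z - t)) μ := fun z => hex n z
    beta_reduce
    rw [convolution_lsmul, convolution_lsmul, ← integral_sub (i1 x) (i1 y)]
    calc ∫ t, ((φ n).normed μ t • f (x - t) - (φ n).normed μ t • f (y - t)) ∂μ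
        ≤ ∫ t, (φ n).normed μ t * (K * dist x y) ∂μ := by
          apply integral_mono ((i1 x).sub (i1 y)) ((φ n).integrable_normed.mul_const _)
          intro t
          have h1 := hf (x - t) (y - t)
          rw [dist_sub_right] at h1
          show (φ n).normed μ t * f (x - t) - (φ n).normed μ t * f (y - t) ≤ _
          rw [← mul_sub]
          exact mul_le_mul_of_nonneg_left h1 ((φ n).nonneg_normed t)
      _ = K * dist x y := by
          rw [integral_mul_const, (φ n).integral_normed, one_mul]
  · intro x
    exact ContDiffBump.convolution_tendsto_right_of_continuous hr hcont x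

end Pool.Agent.H273.LFR
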