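import Mathlib
import Pool.Agent.H273.LFR.Stm

/-!
# Project LFR, task ODD: reflection and scaling of level functions
-/

set_option autoImplicit false

open MeasureTheory Set Filter Topology
open Pool.Agent.Helper23K9.LR

namespace Pool.Agent.H273.LFR.PODD

/-- Rademacher for the library notion `LK`. -/
theorem ae_diff {E : Type} [NormedAddCommGroup E] [NormedSpace ℝ E] [FiniteDimensional ℝ E]
    [MeasurableSpace E] [BorelSpace E] (μ : Measure E) [μ.IsAddHaarMeasure] {H : E → ℝ} {K : ℝ}
    (hK : LK K H) : ∀ᵐ y ∂μ, DifferentiableAt ℝ H y := by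
  have h1 : LipschitzWith (Real.toNNReal K) H := by
    refine LipschitzWith.of_dist_le_mul fun x y => ?_
    rw [Real.dist_eq, abs_le]
    have h2 : K ≤ (Real.toNNReal K : ℝ) := Real.le_coe_toNNReal K
    have h3 := hK x y
    have h4 := hK y x
    have h5 : K * dist x y ≤ Real.toNNReal K * dist x y := mul_le_mul_of_nonneg_right h2 dist_nonneg
    rw [dist_comm y x] at h4
    constructor <;> linarith
  exact h1.ae_differentiableAt

end Pool.Agent.H273.LFR.PODD

namespace Pool.Agent.H273.LFR

theorem t_ODD : S_ODD := by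
  intro E _ _ _ _ _ μ _ S ℓ L θ hL hθ
  obtain ⟨hm, hθ⟩ := hθ
  refine ⟨⟨(hm.comp measurable_neg).neg, ?_⟩, ?_⟩
  · intro t H hH
    have h1 : S.R (fun x => Rel.hinge (-t) (L x)) (fun y => H y + ℓ y) := by
      refine S.congr (Rel.add hH hL) ?_ (fun _ _ => rfl)
      have key : ∀ u : ℝ, Rel.hinge t (-u) + u = Rel.hinge (-t) u - t := by
        intro u
        unfold Rel.hinge
        rcases le_total u (-t) with h | h
        · rw [max_eq_left (by linarith), max_eq_right (by linarith)]; ring
        · rw [max_eq_right (by linarith), max_eq_left (by linarith)]; ring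
      intro x y
      rw [key, key]
      ring
    obtain ⟨K, hK⟩ := S.lip hH
    have hK' := (S.iso hH K).1 hK
    filter_upwards [hθ (-t) _ h1, PODD.ae_diff μ hK'] with y hy hd
    have h2 : fderiv ℝ (fun y => H y + ℓ y) y = fderiv ℝ H y + ℓ := by
      rw [fderiv_fun_add hd ℓ.differentiableAt, ContinuousLinearMap.fderiv]
    rw [h2] at hy
    have h3 : (-ℓ) y = -(ℓ y) := rfl
    constructor
    · intro h4
      rw [h3, neg_neg] at h4
      have h5 := hy.2 (by linarith)
      exact eq_neg_of_add_eq_zero_left h5
    · intro h4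
      rw [h3, neg_neg] at h4
      have h5 := hy.1 (by linarith)
      simpa using h5
  · intro r hr
    refine ⟨(hm.comp (measurable_id.div_const r)).const_mul r, ?_⟩
    intro t H hH
    have h1 : S.R (fun x => Rel.hinge (t / r) (L x)) (fun y => r⁻¹ * H y) := by
      refine S.congr (Rel.smul hH r⁻¹) ?_ (fun _ _ => rfl)
      have key : ∀ u : ℝ, r⁻¹ * Rel.hinge t (r * u) = Rel.hinge (t / r) u := by
        intro u
        unfold Rel.hinge
        rw [mul_max_of_nonneg _ _ (by positivity), mul_zero]
        congr 1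
        field_simp
      intro x y
      rw [key, key]
    obtain ⟨K, hK⟩ := S.lip hH
    have hK' := (S.iso hH K).1 hK
    filter_upwards [hθ (t / r) _ h1, PODD.ae_diff μ hK'] with y hy hd
    have h2 : fderiv ℝ (fun y => r⁻¹ * H y) y = r⁻¹ • fderiv ℝ H y := by
      rw [fderiv_const_mul hd]
    rw [h2] at hy
    have h3 : (r • ℓ) y / r = ℓ y := by
      rw [ContinuousLinearMap.smul_apply, smul_eq_mul]
      field_simp
    rw [h3]
    constructor
    · intro h4
      have h5 := hy.1 (by rw [div_lt_iff₀ hr]; linarith)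
      rw [← h5, smul_smul, mul_inv_cancel₀ hr.ne', one_smul]
    · intro h4
      have h5 := hy.2 (by rw [lt_div_iff₀ hr]; linarith)
      exact (smul_eq_zero.1 h5).resolve_left (inv_ne_zero hr.ne')

end Pool.Agent.H273.LFR
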