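import Mathlib
import Pool.Agent.H273.LFR.Stm

/-!
# Project LFR, task PAIR
-/

set_option autoImplicit false

open MeasureTheory Set Filter Topology Metric
open Pool.Agent.Helper23K9.LR
open scoped ContDiff BoundedContinuousFunction NNReal

namespace Pool.Agent.H273.LFR.PPAIR

variable {E : Type} [NormedAddCommGroup E] [NormedSpace ℝ E] [FiniteDimensional ℝ E]
  [MeasurableSpace E] [BorelSpace E] (μ : Measure E) [μ.IsAddHaarMeasure]

/-- the mollification -/
noncomputable def cv (φ f : E → ℝ) : E → ℝ :=
  MeasureTheory.convolution φ f (ContinuousLinearMap.lsmul ℝ ℝ) μ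

lemma cv_apply (φ f : E → ℝ) (x : E) : cv μ φ f x = ∫ t, φ t * f (x - t) ∂μ := rfl

lemma cv_swap (φ f : E → ℝ) (x : E) : cv μ φ f x = ∫ t, φ (x - t) * f t ∂μ := by
  unfold cv
  rw [convolution_eq_swap]
  rfl

/-- the directional derivative of a mollification -/
lemma lineDeriv_cv {φ f : E → ℝ} {C : ℝ≥0} (hφ : ContDiff ℝ ∞ φ) (hφc : HasCompactSupport φ)
    (hf : LipschitzWith C f) (v y : E) :
    lineDeriv ℝ (cv μ φ f) y v = ∫ t, φ (y - t) * lineDeriv ℝ f t v ∂μ := by
  have hs : ContDiff ℝ ∞ (cv μ φ f) :=
    hφc.contDiff_convolution_left _ hφ hf.continuous.locallyIntegrable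
  have hd : DifferentiableAt ℝ (cv μ φ f) y := (hs.differentiable (by simp)) y
  have h1 := (hd.lineDifferentiableAt (v := v)).hasLineDerivAt.tendsto_slope_zero_right
  have hint : Integrable (fun t => φ (y - t)) μ := by
    have : Integrable φ μ := hφ.continuous.integrable_of_hasCompactSupport hφc
    exact this.comp_sub_left y
  have h2 := hf.integral_inv_smul_sub_mul_tendsto_integral_lineDeriv_mul hint v
  have h3 : ∀ s : ℝ, s⁻¹ • (cv μ φ f (y + s • v) - cv μ φ f y) =
      ∫ x, (s⁻¹ • (f (x + s • v) - f x)) * φ (y - x) ∂μ := by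
    intro s
    have hi : ∀ z : E, Integrable (fun t => φ (z - t) * f t) μ := by
      intro z
      apply Continuous.integrable_of_hasCompactSupport
      · exact (hφ.continuous.comp (continuous_const.sub continuous_id)).mul hf.continuous
      · apply HasCompactSupport.mul_right
        exact hφc.comp_homeomorph (Homeomorph.subLeft z)
    have e1 : cv μ φ f (y + s • v) = ∫ x, φ (y - x) * f (x + s • v) ∂μ := by
      rw [cv_swap, ← integral_add_right_eq_self _ (s • v)]
      congr 1
      funext x
      rw [add_sub_add_right_eq_sub]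
    have i1 : Integrable (fun x => φ (y - x) * f (x + s • v)) μ := by
      have := (hi (y + s • v)).comp_add_right (s • v)
      simpa only [add_sub_add_right_eq_sub] using this
    rw [e1, cv_swap, ← integral_sub i1 (hi y), smul_eq_mul, ← integral_const_mul]
    congr 1
    funext x
    rw [smul_eq_mul]
    ring
  have h4 : Tendsto (fun s : ℝ => s⁻¹ • (cv μ φ f (y + s • v) - cv μ φ f y)) (𝓝[>] 0)
      (𝓝 (∫ x, lineDeriv ℝ f x v * φ (y - x) ∂μ)) := by
    refine h2.congr fun s => ?_
    rw [h3 s]
  rw [tendsto_nhds_unique h1 h4]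
  congr 1
  funext x
  ring

end Pool.Agent.H273.LFR.PPAIR

namespace Pool.Agent.H273.LFR

open PPAIR

theorem t_PAIR : S_PAIR := by
  intro E _ _ _ _ _ μ _ v q K hq hqc D hD hμD hpos
  have hlip := hq.lipschitz
  have hcont := hlip.continuous
  -- the bumps
  set φ : ℕ → ContDiffBump (0 : E) := fun n =>
    { rIn := 1 / (2 * ((n : ℝ) + 1))
      rOut := 1 / ((n : ℝ) + 1)
      rIn_pos := by positivity
      rIn_lt_rOut := by
        apply one_div_lt_one_div_of_lt (by positivity)
        have : (0 : ℝ) ≤ n := Nat.cast_nonneg n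
        linarith } with hφ
  have hr : Tendsto (fun n => (φ n).rOut) atTop (𝓝 0) := tendsto_one_div_add_atTop_nhds_zero_nat
  have hr2 : ∀ᶠ n in atTop, (φ n).rOut ≤ 2 * (φ n).rIn := by
    refine Eventually.of_forall fun n => ?_
    show 1 / ((n : ℝ) + 1) ≤ 2 * (1 / (2 * ((n : ℝ) + 1)))
    have : (0 : ℝ) < (n : ℝ) + 1 := by positivity
    apply le_of_eq
    field_simp
  -- the negative part
  set w : E → ℝ := fun y => max (- lineDeriv ℝ q y v) 0 with hw
  have hwm : Measurable w := (measurable_lineDeriv hcont).neg.max measurable_const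
  have hw0 : ∀ y, 0 ≤ w y := fun y => le_max_right _ _
  set B : ℝ := (K.toNNReal : ℝ) * ‖v‖ with hB
  have hB0 : 0 ≤ B := by positivity
  have hwB : ∀ y, w y ≤ B := by
    intro y
    have h1 := norm_lineDeriv_le_of_lipschitz ℝ hlip (x₀ := y) (v := v)
    rw [Real.norm_eq_abs] at h1
    exact max_le ((neg_le_abs _).trans h1) hB0
  have hwz : ∀ y, y ∉ tsupport q → w y = 0 := by
    intro y hy
    have h1 : lineDeriv ℝ q y v = 0 := by
      have h2 : q =ᶠ[𝓝 y] fun _ => (0 : ℝ) := notMem_tsupport_iff_eventuallyEq.1 hy
      have h3 : (fun s : ℝ => q (y + s • v)) =ᶠ[𝓝 0] fun _ => (0 : ℝ) := by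
        have hc : Tendsto (fun s : ℝ => y + s • v) (𝓝 0) (𝓝 y) := by
          have : Continuous fun s : ℝ => y + s • v := by fun_prop
          have h := this.tendsto 0
          rwa [zero_smul, add_zero] at h
        exact hc.eventually h2
      show deriv (fun s : ℝ => q (y + s • v)) 0 = 0
      rw [h3.deriv_eq]
      exact deriv_const 0 0
    rw [hw]
    simp [h1]
  have hwc : HasCompactSupport w := by
    apply HasCompactSupport.of_support_subset_isCompact hqc
    intro y hy
    by_contra h
    exact hy (hwz y h)
  have hwi : Integrable w μ := by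
    have h1 : IntegrableOn w (tsupport q) μ := by
      refine Measure.integrableOn_of_bounded (M := B) (hqc.measure_lt_top.ne)
        hwm.aestronglyMeasurable ?_
      refine Eventually.of_forall fun y => ?_
      rw [Real.norm_eq_abs, abs_of_nonneg (hw0 y)]
      exact hwB y
    rw [integrableOn_iff_integrable_of_support_subset] at h1
    · exact h1
    · intro y hy
      by_contra h
      exact hy (hwz y h)
  have hφs : ∀ n, ContDiff ℝ ∞ ((φ n).normed μ) := fun n => (φ n).contDiff_normed
  have hφc : ∀ n, HasCompactSupport ((φ n).normed μ) := fun n => (φ n).hasCompactSupport_normed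
  have hφ0 : ∀ n x, 0 ≤ (φ n).normed μ x := fun n => (φ n).nonneg_normed
  refine ⟨fun n => cv μ ((φ n).normed μ) q, fun n => cv μ ((φ n).normed μ) w, ?_, ?_, ?_, ?_, ?_,
    ?_, ?_, ?_⟩
  · intro n
    exact (hφc n).contDiff_convolution_left _ (hφs n) hcont.locallyIntegrable
  · intro n x y
    have i1 : ∀ z, Integrable (fun t => (φ n).normed μ t * q (z - t)) μ := fun z => by
      apply Continuous.integrable_of_hasCompactSupport
      · exact (hφs n).continuous.mul (hcont.comp (continuous_const.sub continuous_id))
      · exact (hφc n).mul_right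
    show cv μ ((φ n).normed μ) q x - cv μ ((φ n).normed μ) q y ≤ _
    rw [cv_apply, cv_apply, ← integral_sub (i1 x) (i1 y)]
    calc ∫ t, ((φ n).normed μ t * q (x - t) - (φ n).normed μ t * q (y - t)) ∂μ
        ≤ ∫ t, (φ n).normed μ t * (K * dist x y) ∂μ := by
          apply integral_mono ((i1 x).sub (i1 y)) ((φ n).integrable_normed.mul_const _)
          intro t
          have h1 := hq (x - t) (y - t)
          rw [dist_sub_right] at h1
          show (φ n).normed μ t * q (x - t) - (φ n).normed μ t * q (y - t) ≤ _
          rw [← mul_sub]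
          exact mul_le_mul_of_nonneg_left h1 ((φ n).nonneg_normed t)
      _ = K * dist x y := by
          rw [integral_mul_const, (φ n).integral_normed, one_mul]
  · intro x
    exact ContDiffBump.convolution_tendsto_right_of_continuous hr hcont x
  · intro n
    exact (hφc n).contDiff_convolution_left _ (hφs n) hwi.locallyIntegrable
  · intro n
    exact HasCompactSupport.convolution _ (hφc n) hwc
  · intro n y
    show 0 ≤ cv μ ((φ n).normed μ) w y
    rw [cv_apply]
    exact integral_nonneg fun t => mul_nonneg (hφ0 n t) (hw0 _)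
  · intro n y
    show 0 ≤ lineDeriv ℝ (cv μ ((φ n).normed μ) q) y v + cv μ ((φ n).normed μ) w y
    rw [lineDeriv_cv μ (hφs n) (hφc n) hlip, cv_swap, ← integral_add]
    · apply integral_nonneg
      intro t
      show 0 ≤ (φ n).normed μ (y - t) * lineDeriv ℝ q t v + (φ n).normed μ (y - t) * w t
      rw [← mul_add]
      apply mul_nonneg (hφ0 n _)
      have : - lineDeriv ℝ q t v ≤ w t := le_max_left _ _
      linarith
    · have h1 : Integrable (fun t => (φ n).normed μ (y - t)) μ :=
        ((φ n).integrable_normed (μ := μ)).comp_sub_left y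
      refine h1.mul_bdd (c := B) (measurable_lineDeriv hcont).aestronglyMeasurable ?_
      refine Eventually.of_forall fun t => ?_
      exact norm_lineDeriv_le_of_lipschitz ℝ hlip
    · have h1 : Integrable (fun t => (φ n).normed μ (y - t)) μ :=
        ((φ n).integrable_normed (μ := μ)).comp_sub_left y
      refine h1.mul_bdd (c := B) hwm.aestronglyMeasurable ?_
      refine Eventually.of_forall fun t => ?_
      rw [Real.norm_eq_abs, abs_of_nonneg (hw0 t)]
      exact hwB t
  · have h0 : ∫ y in D, w y ∂μ = 0 := by
      apply setIntegral_eq_zero_of_ae_eq_zero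
      filter_upwards [hpos] with y hy hyD
      have := hy hyD
      rw [hw]
      exact max_eq_right (by linarith)
    rw [← h0]
    apply tendsto_integral_of_dominated_convergence (fun _ => B)
    · intro n
      have h1 : ContDiff ℝ ∞ (cv μ ((φ n).normed μ) w) :=
        (hφc n).contDiff_convolution_left _ (hφs n) hwi.locallyIntegrable
      exact h1.continuous.aestronglyMeasurable
    · exact integrableOn_const hμD
    · intro n
      refine Eventually.of_forall fun y => ?_
      have h1 : 0 ≤ cv μ ((φ n).normed μ) w y := by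
        rw [cv_apply]
        exact integral_nonneg fun t => mul_nonneg (hφ0 n t) (hw0 _)
      rw [Real.norm_eq_abs, abs_of_nonneg h1, cv_apply]
      calc ∫ t, (φ n).normed μ t * w (y - t) ∂μ ≤ ∫ t, (φ n).normed μ t * B ∂μ := by
            apply integral_mono_of_nonneg
            · exact Eventually.of_forall fun t => mul_nonneg (hφ0 n t) (hw0 _)
            · exact (φ n).integrable_normed.mul_const _
            · exact Eventually.of_forall fun t => mul_le_mul_of_nonneg_left (hwB _) (hφ0 n t)
        _ = B := by rw [integral_mul_const, (φ n).integral_normed, one_mul]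
    · exact ae_restrict_of_ae (ContDiffBump.ae_convolution_tendsto_right_of_locallyIntegrable hr hr2
        hwi.locallyIntegrable)

end Pool.Agent.H273.LFR
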