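import Mathlib
import Pool.Agent.H273.LFR.Stm

set_option autoImplicit false

open MeasureTheory Set Filter Topology
open scoped ContDiff
open Pool.Agent.Helper23K9.LR

namespace Pool.Agent.H273.LFR

namespace PPOS

variable {E : Type} [NormedAddCommGroup E] [NormedSpace ℝ E] [FiniteDimensional ℝ E]
  [MeasurableSpace E] [BorelSpace E]

/-- the case of compact support -/
theorem pos_compact (h1 : S_ANTI) (h2 : S_PAIR) (μ : Measure E) [μ.IsAddHaarMeasure]
    (v : E) (hv : v ≠ 0) (D : Set E) (hD : MeasurableSet D) (hDb : Bornology.IsBounded D)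
    (α : Fct E)
    (hα : ∀ p : E → ℝ, ContDiff ℝ 1 p → (∃ K, LK K p) → (∀ y, 0 ≤ lineDeriv ℝ p y v) →
      0 ≤ α.a p ∧ α.a p ≤ ∫ y in D, lineDeriv ℝ p y v ∂μ)
    (q : E → ℝ) (K : ℝ) (hq : LK K q) (hqc : HasCompactSupport q)
    (hqD : ∀ᵐ y ∂μ, y ∈ D → 0 ≤ lineDeriv ℝ q y v) : 0 ≤ α.a q := by
  have hDfin : μ D ≠ ⊤ := hDb.measure_lt_top.ne
  obtain ⟨qn, wn, hqs, hqK, hqt, hws, hwc, hw0, hqw, hlim⟩ :=
    h2 E μ v q K hq hqc D hD hDfin hqD
  have hex : ∀ n, ∃ p : E → ℝ, ContDiff ℝ 1 p ∧ (∃ K, LK K p) ∧ ∀ y, lineDeriv ℝ p y v = wn n y :=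
    fun n => h1 E v (wn n) hv (hws n) (hwc n)
  choose pn hp1 hpK hpw using hex
  have key : ∀ n, 0 ≤ α.a (qn n) + ∫ y in D, wn n y ∂μ := by
    intro n
    have hqn1 : ContDiff ℝ 1 (qn n) := (hqs n).of_le (by exact_mod_cast le_top)
    have d1 : Differentiable ℝ (qn n) := hqn1.differentiable one_ne_zero
    have d2 : Differentiable ℝ (pn n) := (hp1 n).differentiable one_ne_zero
    have hL : ∃ K, LK K (fun x => qn n x + pn n x) := by
      obtain ⟨L, hL⟩ := hpK n
      exact ⟨_, (hqK n).add hL⟩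
    have hsum : ContDiff ℝ 1 (fun x => qn n x + pn n x) := hqn1.add (hp1 n)
    have hder : ∀ y, lineDeriv ℝ (fun x => qn n x + pn n x) y v
        = lineDeriv ℝ (qn n) y v + wn n y := by
      intro y
      rw [← hpw n y]
      have e1 := (d1 y).lineDeriv_eq_fderiv (v := v)
      have e2 := (d2 y).lineDeriv_eq_fderiv (v := v)
      have e3 : lineDeriv ℝ (fun x => qn n x + pn n x) y v
          = fderiv ℝ (fun x => qn n x + pn n x) y v :=
        ((d1 y).fun_add (d2 y)).lineDeriv_eq_fderiv
      rw [e1, e2, e3, fderiv_fun_add (d1 y) (d2 y)]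
      rfl
    have a1 := (hα _ hsum hL (fun y => by rw [hder y]; exact hqw n y)).1
    have a2 := (hα _ (hp1 n) (hpK n) (fun y => by rw [hpw n y]; exact hw0 n y)).2
    rw [α.add ⟨K, hqK n⟩ (hpK n)] at a1
    have a3 : ∫ y in D, lineDeriv ℝ (pn n) y v ∂μ = ∫ y in D, wn n y ∂μ := by
      simp only [hpw n]
    rw [a3] at a2
    linarith
  have t1 : Tendsto (fun n => α.a (qn n)) atTop (𝓝 (α.a q)) :=
    α.cont qn q K hqK (fun x y => (hqt x).sub (hqt y))
  have t2 := t1.add hlim
  rw [add_zero] at t2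
  exact ge_of_tendsto' t2 key

end PPOS

open PPOS in
theorem t_POS (h1 : S_ANTI) (h2 : S_PAIR) : S_POS := by
  intro E _ _ _ _ _ μ _ v hv D hD hDb α hα q K hq hqD
  -- normalise
  wlog h0 : q 0 = 0 generalizing q
  · have h3 : 0 ≤ α.a (fun x => q x + (- q 0)) := by
      refine this (fun x => q x + (- q 0)) (hq.add_const _) ?_ (by simp)
      filter_upwards [hqD] with y hy hyD
      have : lineDeriv ℝ (fun x => q x + (- q 0)) y v = lineDeriv ℝ q y v := by
        unfold lineDeriv
        simp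
      rw [this]
      exact hy hyD
    rwa [α.congr (f := fun x => q x + (- q 0)) (g := q) ⟨K, hq.add_const _⟩
      (fun x y => by ring)] at h3
  wlog hK : 0 ≤ K generalizing K
  · exact this (K := max K 0) (hq.mono (le_max_left _ _)) (le_max_right _ _)
  set h : ℕ → E → ℝ := fun n x => max (2 * K * n - K * ‖x‖) 0 with hh
  have hL1 : ∀ n, LK K (h n) := by
    intro n
    have e1 : LK K (fun x : E => 2 * K * n - K * ‖x‖) := by
      intro x y
      have h2 : ‖y‖ - ‖x‖ ≤ dist x y := by
        rw [dist_eq_norm, ← norm_neg (x - y), neg_sub]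
        exact norm_sub_norm_le y x
      have h3 := mul_le_mul_of_nonneg_left h2 hK
      linarith
    have e2 : LK K (fun _ : E => (0 : ℝ)) := fun x y => by
      have : 0 ≤ K * dist x y := mul_nonneg hK dist_nonneg
      linarith
    exact e1.max e2
  set qn : ℕ → E → ℝ := fun n x => max (min (q x) (h n x)) (- h n x) with hqn
  have hqnK : ∀ n, LK K (qn n) := fun n => (hq.min (hL1 n)).max (hL1 n).neg
  have key : ∀ (n : ℕ) (z : E), ‖z‖ ≤ n → qn n z = q z := by
    intro n z hz
    have h2 : |q z| ≤ K * ‖z‖ := by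
      have := hq.abs z 0
      rwa [h0, sub_zero, dist_zero_right] at this
    have h3 : |q z| ≤ h n z := by
      rw [hh]
      simp only
      refine le_trans ?_ (le_max_left _ _)
      nlinarith
    rw [abs_le] at h3
    rw [hqn]
    simp only
    rw [min_eq_left h3.2, max_eq_left h3.1]
  have hcs : ∀ n, HasCompactSupport (qn n) := by
    intro n
    apply HasCompactSupport.of_support_subset_isCompact (isCompact_closedBall (0 : E) (2 * n))
    intro x hx
    rw [mem_closedBall_zero_iff]
    by_contra hcon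
    push Not at hcon
    apply hx
    have h2 : h n x = 0 := by
      rw [hh]
      simp only
      apply max_eq_right
      nlinarith
    rw [hqn]
    beta_reduce
    rw [h2, neg_zero]
    exact max_eq_right (min_le_right _ _)
  obtain ⟨R, hR⟩ := hDb.subset_ball (0 : E)
  obtain ⟨N, hN⟩ := exists_nat_ge R
  have hpos : ∀ n, N ≤ n → 0 ≤ α.a (qn n) := by
    intro n hn
    refine pos_compact h1 h2 μ v hv D hD hDb α hα (qn n) K (hqnK n) (hcs n) ?_
    filter_upwards [hqD] with y hy hyD
    have hy1 : ‖y‖ < n := by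
      have h3 := hR hyD
      rw [mem_ball_zero_iff] at h3
      have h4 : (N : ℝ) ≤ n := by exact_mod_cast hn
      linarith
    have hev : qn n =ᶠ[𝓝 y] q := by
      have : Metric.ball (0 : E) n ∈ 𝓝 y :=
        Metric.isOpen_ball.mem_nhds (by rw [mem_ball_zero_iff]; exact hy1)
      filter_upwards [this] with z hz
      rw [mem_ball_zero_iff] at hz
      exact key n z hz.le
    rw [hev.lineDeriv_eq]
    exact hy hyD
  have hlim : Tendsto (fun n => α.a (qn n)) atTop (𝓝 (α.a q)) := by
    refine α.cont qn q K hqnK fun x y => ?_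
    apply tendsto_const_nhds.congr'
    obtain ⟨A, hA⟩ := exists_nat_ge (max ‖x‖ ‖y‖)
    filter_upwards [eventually_ge_atTop A] with n hn
    have h4 : (A : ℝ) ≤ n := by exact_mod_cast hn
    rw [key n x ((le_max_left _ _).trans (hA.trans h4)),
      key n y ((le_max_right _ _).trans (hA.trans h4))]
  refine ge_of_tendsto hlim ?_
  filter_upwards [eventually_ge_atTop N] with n hn
  exact hpos n hn

end Pool.Agent.H273.LFR
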