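import Mathlib
import Pool.Agent.H273.LFR.Stm

/-!
# Project LFR, job RD: the profile of a ridge function
-/

set_option autoImplicit false

open MeasureTheory Set Filter Topology
open Pool.Agent.Helper23K9.LR

namespace Pool.Agent.H273.LFR

theorem t_RD (h1 : S_RIDGE) : S_RD := by
  intro E _ _ _ _ _ μ _ ℓ H K hℓ hH hae
  obtain ⟨w, hw⟩ : ∃ w, ℓ w ≠ 0 := by
    by_contra h
    push Not at h
    exact hℓ (ContinuousLinearMap.ext h)
  set u : E := (ℓ w)⁻¹ • w with hu
  have hℓu : ℓ u = 1 := by rw [hu, map_smul, smul_eq_mul, inv_mul_cancel₀ hw]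
  set F : ℝ → ℝ := fun s => H (s • u) with hF
  have hHF : ∀ y, H y = F (ℓ y) := by
    intro y
    refine h1 E μ ℓ H K hH ?_ y (ℓ y • u) ?_
    · filter_upwards [hae] with z hz
      rcases hz with hz | hz
      · exact ⟨0, by rw [hz, zero_smul]⟩
      · exact ⟨1, by rw [hz, one_smul]⟩
    · rw [map_smul, hℓu, smul_eq_mul, mul_one]
  have hFL : LipschitzWith (K.toNNReal * ‖u‖₊) F := by
    refine hH.lipschitz.comp ?_
    refine LipschitzWith.of_dist_le_mul fun s t => ?_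
    rw [dist_eq_norm, dist_eq_norm, ← sub_smul, norm_smul, coe_nnnorm, mul_comm]
  have hsurj : Function.Surjective (ℓ : E →ₗ[ℝ] ℝ) := fun s => ⟨s • u, by
    rw [ContinuousLinearMap.coe_coe, map_smul, hℓu, smul_eq_mul, mul_one]⟩
  have hdiff : ∀ᵐ y ∂μ, (ℓ : E →ₗ[ℝ] ℝ) y ∈ {s | DifferentiableAt ℝ F s} :=
    (ae_comp_linearMap_mem_iff (ℓ : E →ₗ[ℝ] ℝ) μ volume hsurj
      (measurableSet_of_differentiableAt ℝ F)).2 hFL.ae_differentiableAt
  refine ⟨deriv F ⁻¹' {1}, measurable_deriv F (measurableSet_singleton 1), ?_⟩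
  filter_upwards [hae, hdiff] with y hy hd
  have hd' : DifferentiableAt ℝ F (ℓ y) := hd
  have hfd : fderiv ℝ H y = deriv F (ℓ y) • ℓ := by
    have e1 : HasFDerivAt (F ∘ ℓ) (deriv F (ℓ y) • (ℓ : E →L[ℝ] ℝ)) y :=
      hd'.hasDerivAt.comp_hasFDerivAt y ℓ.hasFDerivAt
    have e2 : H = F ∘ ℓ := funext hHF
    rw [e2]
    exact e1.fderiv
  constructor
  · intro hA
    have : deriv F (ℓ y) = 1 := hA
    rw [hfd, this, one_smul]
  · intro hA
    rcases hy with hy | hy
    · exact hy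
    · exfalso
      apply hA
      rw [mem_preimage, mem_singleton_iff]
      have h2 := congrArg (fun T : E →L[ℝ] ℝ => T u) (hfd.symm.trans hy)
      simpa [hℓu] using h2

end Pool.Agent.H273.LFR
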