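import Mathlib
import Pool.Agent.H273.LFR.Stm

/-!
# Project LFR: Lipschitz functions with gradient almost everywhere proportional to `ℓ`
-/

set_option autoImplicit false

open MeasureTheory Set Filter Topology Metric
open Pool.Agent.Helper23K9.LR

namespace Pool.Agent.H273.LFR

namespace PRIDGE

variable {E : Type} [NormedAddCommGroup E] [NormedSpace ℝ E]

theorem lineDeriv_shift (H : E → ℝ) (a y w : E) :
    lineDeriv ℝ (fun x => H (x + a)) y w = lineDeriv ℝ H (y + a) w := by
  unfold lineDeriv
  congr 1
  funext t
  rw [add_right_comm]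

variable [FiniteDimensional ℝ E] [MeasurableSpace E] [BorelSpace E]

theorem const_of_lineDeriv (μ : Measure E) [μ.IsAddHaarMeasure] {H : E → ℝ} {C : NNReal}
    (hH : LipschitzWith C H) {w : E} (h0 : ∀ᵐ y ∂μ, lineDeriv ℝ H y w = 0) (x0 : E) :
    H (x0 + w) = H x0 := by
  set D : E → ℝ := fun x => H (x + w) - H x with hD
  have hHc : Continuous H := hH.continuous
  have hDc : Continuous D := by
    rw [hD]
    exact (hHc.comp (continuous_add_const w)).sub hHc
  set R : ℝ := ‖x0‖ + 1 with hR
  set g : E → ℝ := indicator (ball (0 : E) R) D with hg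
  have hshift : ∀ s : ℝ, LipschitzWith C (fun x => H (x + s • w)) := fun s =>
    LipschitzWith.of_dist_le_mul fun x y => by
      have := hH.dist_le_mul (x + s • w) (y + s • w)
      rwa [dist_add_right] at this
  have hint1 : ∀ f : E → ℝ, Continuous f → Integrable (fun x => f x * g x) μ := by
    intro f hf
    have h1 : (fun x => f x * g x) = indicator (ball (0 : E) R) (fun x => f x * D x) := by
      funext x
      by_cases hx : x ∈ ball (0 : E) R
      · rw [hg, indicator_of_mem hx, indicator_of_mem hx]
      · rw [hg, indicator_of_notMem hx, indicator_of_notMem hx, mul_zero]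
    rw [h1, integrable_indicator_iff measurableSet_ball]
    have h2 : IntegrableOn (fun x => f x * D x) (closedBall (0 : E) R) μ :=
      (hf.mul hDc).continuousOn.integrableOn_compact (isCompact_closedBall _ _)
    exact h2.mono_set ball_subset_closedBall
  have hgint : Integrable g μ := by
    have := hint1 (fun _ => 1) continuous_const
    simpa using this
  have hint : ∀ s : ℝ, Integrable (fun x => H (x + s • w) * g x) μ := fun s =>
    hint1 _ (hshift s).continuous
  set J : ℝ → ℝ := fun s => ∫ x, H (x + s • w) * g x ∂μ with hJ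
  -- `J` is continuous
  have hJc : Continuous J := by
    have h1 : LipschitzWith (Real.toNNReal (C * ‖w‖ * ∫ x, ‖g x‖ ∂μ)) J := by
      refine LipschitzWith.of_dist_le_mul fun s t => ?_
      have hnn : 0 ≤ C * ‖w‖ * ∫ x, ‖g x‖ ∂μ :=
        mul_nonneg (by positivity) (integral_nonneg fun _ => norm_nonneg _)
      rw [Real.coe_toNNReal _ hnn, Real.dist_eq, Real.dist_eq]
      have h2 : J s - J t = ∫ x, (H (x + s • w) * g x - H (x + t • w) * g x) ∂μ :=
        (integral_sub (hint s) (hint t)).symm
      rw [h2, ← Real.norm_eq_abs]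
      refine (norm_integral_le_of_norm_le (hgint.norm.const_mul (C * ‖w‖ * |s - t|))
        (Eventually.of_forall fun x => ?_)).trans (le_of_eq ?_)
      · rw [← sub_mul, norm_mul]
        refine mul_le_mul_of_nonneg_right ?_ (norm_nonneg _)
        have h3 := hH.dist_le_mul (x + s • w) (x + t • w)
        rw [dist_add_left, dist_eq_norm, dist_eq_norm, ← sub_smul, norm_smul,
          Real.norm_eq_abs (s - t)] at h3
        calc ‖H (x + s • w) - H (x + t • w)‖ ≤ C * (|s - t| * ‖w‖) := h3
          _ = C * ‖w‖ * |s - t| := by ring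
      · rw [integral_const_mul]
        ring
    exact h1.continuous
  -- the right derivative of `J` vanishes
  have hJd : ∀ s : ℝ, HasDerivWithinAt J 0 (Ici s) s := by
    intro s
    rw [← hasDerivWithinAt_Ioi_iff_Ici, hasDerivWithinAt_iff_tendsto_slope' (by simp)]
    have hA := LipschitzWith.integral_inv_smul_sub_mul_tendsto_integral_lineDeriv_mul
      (μ := μ) (hshift s) hgint w
    have hq : ∀ᵐ y ∂μ, lineDeriv ℝ H (y + s • w) w = 0 :=
      (measurePreserving_add_right μ (s • w)).quasiMeasurePreserving.ae h0
    have h1 : ∫ x, lineDeriv ℝ (fun x => H (x + s • w)) x w * g x ∂μ = 0 := by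
      rw [integral_eq_zero_of_ae]
      filter_upwards [hq] with y hy
      rw [lineDeriv_shift, hy, zero_mul]
      rfl
    rw [h1] at hA
    have h2 : Tendsto (fun u : ℝ => u - s) (𝓝[>] s) (𝓝[>] 0) := by
      refine tendsto_nhdsWithin_of_tendsto_nhds_of_eventually_within _ ?_ ?_
      · have : Tendsto (fun u : ℝ => u - s) (𝓝 s) (𝓝 (s - s)) :=
          tendsto_id.sub tendsto_const_nhds
        rw [sub_self] at this
        exact this.mono_left nhdsWithin_le_nhds
      · filter_upwards [self_mem_nhdsWithin] with u hu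
        exact sub_pos.2 (show s < u from hu)
    refine (hA.comp h2).congr fun u => ?_
    rw [slope_def_field, Function.comp_apply, div_eq_inv_mul]
    have h3 : J u - J s = ∫ x, (H (x + u • w) * g x - H (x + s • w) * g x) ∂μ :=
      (integral_sub (hint u) (hint s)).symm
    rw [h3, ← integral_const_mul]
    refine integral_congr_ae (Eventually.of_forall fun x => ?_)
    dsimp only
    have h4 : x + (u - s) • w + s • w = x + u • w := by
      rw [sub_smul]
      abel
    rw [h4, smul_eq_mul]
    ring
  have hJ1 : J 1 = J 0 :=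
    constant_of_has_deriv_right_zero hJc.continuousOn (fun x _ => hJd x) 1 ⟨zero_le_one, le_rfl⟩
  have h1 : ∫ x, D x * g x ∂μ = 0 := by
    have h2 : J 1 - J 0 = ∫ x, (H (x + (1 : ℝ) • w) * g x - H (x + (0 : ℝ) • w) * g x) ∂μ :=
      (integral_sub (hint 1) (hint 0)).symm
    rw [hJ1, sub_self] at h2
    rw [h2]
    refine integral_congr_ae (Eventually.of_forall fun x => ?_)
    simp only [one_smul, zero_smul, add_zero, hD]
    ring
  have h2 : (fun x => D x * g x) = indicator (ball (0 : E) R) (fun x => D x * D x) := by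
    funext x
    by_cases hx : x ∈ ball (0 : E) R
    · rw [hg, indicator_of_mem hx, indicator_of_mem hx]
    · rw [hg, indicator_of_notMem hx, indicator_of_notMem hx, mul_zero]
  have h3 : (fun x => D x * g x) =ᵐ[μ] 0 := by
    refine (integral_eq_zero_iff_of_nonneg ?_ (hint1 D hDc)).1 h1
    intro x
    rw [h2]
    exact indicator_nonneg (fun y _ => mul_self_nonneg (D y)) x
  have h4 : D =ᵐ[μ.restrict (ball (0 : E) R)] 0 := by
    rw [EventuallyEq, ae_restrict_iff' measurableSet_ball]
    filter_upwards [h3] with x hx hxR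
    have h5 : D x * D x = 0 := by
      have h6 : D x * g x = 0 := hx
      rwa [hg, indicator_of_mem hxR] at h6
    exact mul_self_eq_zero.1 h5
  have h5 : EqOn D 0 (ball (0 : E) R) :=
    Measure.eqOn_open_of_ae_eq h4 isOpen_ball hDc.continuousOn continuousOn_const
  have h6 : D x0 = 0 := h5 (by rw [mem_ball_zero_iff]; linarith)
  rw [hD] at h6
  linarith

end PRIDGE

theorem t_RIDGE : S_RIDGE := by
  intro E _ _ _ _ _ μ _ ℓ H K hK hae x y hxy
  have hL := hK.lipschitz
  have hd := hL.ae_differentiableAt (μ := μ)
  have h0 : ∀ᵐ z ∂μ, lineDeriv ℝ H z (y - x) = 0 := by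
    filter_upwards [hd, hae] with z hz hz'
    obtain ⟨c, hc⟩ := hz'
    rw [hz.lineDeriv_eq_fderiv, hc]
    simp [hxy]
  have := PRIDGE.const_of_lineDeriv μ hL h0 x
  rw [add_sub_cancel] at this
  exact this.symm

end Pool.Agent.H273.LFR
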