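import Mathlib
import Pool.Agent.H273.LFR.Stm

set_option autoImplicit false

open MeasureTheory Set Filter Topology
open Pool.Agent.Helper23K9.LR

namespace Pool.Agent.H273.LFR

namespace PSETF

variable {E : Type} [NormedAddCommGroup E] [NormedSpace ℝ E] [FiniteDimensional ℝ E]
  [MeasurableSpace E] [BorelSpace E] (μ : Measure E) [μ.IsAddHaarMeasure]

lemma ae_lin {f g : E → ℝ} {K L : ℝ} (hf : LK K f) (hg : LK L g) (s t : ℝ) (v : E) :
    ∀ᵐ y ∂μ, lineDeriv ℝ (fun x => s * f x + t * g x) y v =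
      s * lineDeriv ℝ f y v + t * lineDeriv ℝ g y v := by
  filter_upwards [hf.lipschitz.ae_lineDifferentiableAt v,
    hg.lipschitz.ae_lineDifferentiableAt v] with y h1 h2
  have h1' : HasDerivAt (fun r : ℝ => f (y + r • v)) (lineDeriv ℝ f y v) 0 := h1.hasLineDerivAt
  have h2' : HasDerivAt (fun r : ℝ => g (y + r • v)) (lineDeriv ℝ g y v) 0 := h2.hasLineDerivAt
  have h3 : HasLineDerivAt ℝ (fun x => s * f x + t * g x)
      (s * lineDeriv ℝ f y v + t * lineDeriv ℝ g y v) y v :=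
    (h1'.const_mul s).add (h2'.const_mul t)
  exact h3.lineDeriv

lemma int_on {f : E → ℝ} {K : ℝ} (hf : LK K f) (v : E) {D : Set E} (hD : μ D ≠ ⊤) :
    IntegrableOn (fun y => lineDeriv ℝ f y v) D μ := by
  refine Measure.integrableOn_of_bounded (M := K.toNNReal * ‖v‖) hD
    (measurable_lineDeriv hf.continuous).aestronglyMeasurable ?_
  exact Eventually.of_forall fun y => norm_lineDeriv_le_of_lipschitz ℝ hf.lipschitz

end PSETF

theorem t_SETF (h1 : S_WEAK) : S_SETF := by
  intro E _ _ _ _ _ μ _ v D hD hμD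
  refine ⟨⟨fun g => ∫ y in D, lineDeriv ℝ g y v ∂μ, ?_, ?_⟩, fun g => rfl⟩
  · rintro f g ⟨K, hf⟩ ⟨L, hg⟩ s t
    rw [integral_congr_ae (ae_restrict_of_ae (PSETF.ae_lin μ hf hg s t v)),
      integral_add ((PSETF.int_on μ hf v hμD).const_mul s)
        ((PSETF.int_on μ hg v hμD).const_mul t), integral_const_mul, integral_const_mul]
  · intro f f0 K hK h
    exact h1 E μ f f0 K hK h v D hD hμD

end Pool.Agent.H273.LFR
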