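import Mathlib
import Pool.Agent.H273.LFR.Stm

/-! SPLIT (project LFR of helper273): splitting a functional into two. -/

set_option autoImplicit false

open MeasureTheory Set Filter Topology
open Pool.Agent.Helper23K9.LR

namespace Pool.Agent.H273.LFR

namespace PSPLIT

variable {M : Type*} [PseudoMetricSpace M]

/-- the difference of two functionals -/
noncomputable def fsub (γ γ₁ : Fct M) : Fct M where
  a := fun f => γ.a f - γ₁.a f
  lin := by
    intro f g hf hg s t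
    rw [γ.lin hf hg s t, γ₁.lin hf hg s t]
    ring
  cont := fun f f0 K hK h => (γ.cont f f0 K hK h).sub (γ₁.cont f f0 K hK h)

end PSPLIT

theorem t_SPLIT (h1 : S_CUT) (h2 : S_CHI) : S_SPLIT := by
  intro E _ _ _ γ N hN f₁ f₂ hf₁ hf₂ hc hd
  obtain ⟨χ, hχ, hχc, hχ01, hχ1, hχd⟩ := h2 E f₁ f₂ hc hd
  obtain ⟨γ₁, ha, hb, hc'⟩ := h1 E γ N hN χ hχ hχc hχ01
  -- near the support of `f₁`
  have e1 : ∀ x ∈ tsupport f₁, ∀ᶠ y in 𝓝 x, χ y = 1 := fun x hx =>
    hχ1.filter_mono (nhds_le_nhdsSet hx)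
  -- near the support of `f₂`
  have e2 : ∀ x ∈ tsupport f₂, χ =ᶠ[𝓝 x] 0 := by
    intro x hx
    rw [← notMem_tsupport_iff_eventuallyEq]
    exact fun h => hχd.le_bot ⟨h, hx⟩
  have z1 : ∀ x, x ∉ tsupport f₁ → f₁ x = 0 := fun x hx => image_eq_zero_of_notMem_tsupport hx
  have z2 : ∀ x, x ∉ tsupport f₂ → f₂ x = 0 := fun x hx => image_eq_zero_of_notMem_tsupport hx
  refine ⟨γ₁, PSPLIT.fsub γ γ₁, fun f _ => ?_, fun f g hf hg => ha f g hf hg, hb f₁ hf₁ ?_ ?_,
    hc' f₂ hf₂ ?_ ?_⟩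
  · change γ₁.a f + (γ.a f - γ₁.a f) = γ.a f
    ring
  · intro x
    by_cases hx : x ∈ tsupport f₁
    · have h3 : χ =ᶠ[𝓝 x] fun _ => (1 : ℝ) := e1 x hx
      rw [h3.fderiv_eq, fderiv_fun_const, Pi.zero_apply, smul_zero]
    · rw [z1 x hx, zero_smul]
  · intro x
    by_cases hx : x ∈ tsupport f₁
    · rw [(e1 x hx).self_of_nhds, one_mul]
    · rw [z1 x hx, mul_zero]
  · intro x
    by_cases hx : x ∈ tsupport f₂
    · rw [(e2 x hx).fderiv_eq]
      have : fderiv ℝ (0 : E → ℝ) x = 0 := by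
        rw [fderiv_zero]
        rfl
      rw [this, smul_zero]
    · rw [z2 x hx, zero_smul]
  · intro x
    by_cases hx : x ∈ tsupport f₂
    · rw [(e2 x hx).self_of_nhds, Pi.zero_apply, zero_mul]
    · rw [z2 x hx, mul_zero]

end Pool.Agent.H273.LFR
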