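import Mathlib
import Pool.Agent.H273.LFR.Stm

/-!
# LFR-SUP: superadditivity of level functions
-/

set_option autoImplicit false

open MeasureTheory Set Filter Topology
open Pool.Agent.Helper23K9.LR

namespace Pool.Agent.H273.LFR

namespace PSUP

lemma lk_max0 {M : Type*} [PseudoMetricSpace M] {f : M → ℝ} (hf : ∃ K, LK K f) :
    ∃ K, LK K (fun x => max (f x) 0) := by
  obtain ⟨K, hK⟩ := hf
  refine ⟨|K|, LK.max (hK.mono (le_abs_self K)) ?_⟩
  intro x y
  rw [sub_self]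
  exact mul_nonneg (abs_nonneg _) dist_nonneg

lemma lk_sub {M : Type*} [PseudoMetricSpace M] {f g : M → ℝ} (hf : ∃ K, LK K f)
    (hg : ∃ K, LK K g) : ∃ K, LK K (fun x => f x - g x) := by
  obtain ⟨K, hK⟩ := hf
  obtain ⟨K', hK'⟩ := hg
  refine ⟨K + K', ?_⟩
  have := hK.add hK'.neg
  simpa [sub_eq_add_neg] using this

lemma lk_sub_const {M : Type*} [PseudoMetricSpace M] {f : M → ℝ} (hf : ∃ K, LK K f) (c : ℝ) :
    ∃ K, LK K (fun x => f x - c) := by
  obtain ⟨K, hK⟩ := hf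
  exact ⟨K, hK.add_const (-c)⟩

lemma lk_hinge {M : Type*} [PseudoMetricSpace M] {f : M → ℝ} (hf : ∃ K, LK K f) (c : ℝ) :
    ∃ K, LK K (fun x => Rel.hinge c (f x)) := lk_max0 (lk_sub_const hf c)

section

variable {E : Type} [NormedAddCommGroup E] [NormedSpace ℝ E] [FiniteDimensional ℝ E]
  [MeasurableSpace E] [BorelSpace E] (μ : Measure E) [μ.IsAddHaarMeasure] (S : Rel E)

lemma ae_diff {f g : E → ℝ} (h : S.R f g) : ∀ᵐ y ∂μ, DifferentiableAt ℝ g y := by
  obtain ⟨K, hK⟩ := S.lip h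
  exact ((S.iso h K).1 hK).lipschitz.ae_differentiableAt

lemma fderiv_of_const {f g : E → ℝ} (h : ∀ x y, f x - f y = g x - g y) (y : E) :
    fderiv ℝ f y = fderiv ℝ g y := by
  have h1 : f = fun x => g x + (f y - g y) := by
    funext x
    have := h x y
    linarith
  rw [h1, fderiv_add_const]

lemma key (hDP : DP μ S) {ℓ m : E →L[ℝ] ℝ} {L M : E → ℝ} {θ θ' θ'' : ℝ → ℝ} (hℓ : ℓ ≠ 0)
    (hm : m ≠ 0) (hℓm : ℓ + m ≠ 0) (hL : S.R L ℓ) (hM : S.R M m) (h1 : IsTheta μ S ℓ L θ)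
    (h2 : IsTheta μ S m M θ') (h3 : IsTheta μ S (ℓ + m) (fun x => L x + M x) θ'') (a b : ℝ) :
    ∀ᵐ y ∂μ, ¬ (a < θ (ℓ y) ∧ b < θ' (m y) ∧ θ'' (ℓ y + m y) < a + b) := by
  have lL := S.lip hL
  have lM := S.lip hM
  have lh := lk_hinge lL a
  have lh' := lk_hinge lM b
  obtain ⟨H, hH⟩ := S.tot _ lh
  obtain ⟨H', hH'⟩ := S.tot _ lh'
  obtain ⟨P, hP⟩ := S.tot _ (lk_max0 (lk_sub lh lh'))
  obtain ⟨Q, hQ⟩ := S.tot _ (lk_max0 (lk_sub lh' lh))
  have hLM := Rel.add hL hM
  obtain ⟨G, hG⟩ := S.tot _ (lk_hinge (S.lip hLM) (a + b))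
  -- the minimum
  have e1 := Rel.sub hH hP
  have e2 := Rel.sub hH' hQ
  have emin : (fun x => Rel.hinge a (L x) - max (Rel.hinge a (L x) - Rel.hinge b (M x)) 0) =
      fun x => Rel.hinge b (M x) - max (Rel.hinge b (M x) - Rel.hinge a (L x)) 0 := by
    funext x
    rcases le_total (Rel.hinge a (L x)) (Rel.hinge b (M x)) with h | h
    · rw [max_eq_right (by linarith), max_eq_left (by linarith)]
      ring
    · rw [max_eq_left (by linarith), max_eq_right (by linarith)]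
      ring
  rw [← emin] at e2
  have hconst := Rel.uniq e1 e2
  -- the second function
  have e3 := Rel.sub hLM hG
  have e3' : S.R (fun x => (L x + M x) - (a + b) - Rel.hinge (a + b) (L x + M x))
      (fun x => (ℓ x + m x) - G x) :=
    S.congr e3 (fun x y => by ring) (fun x y => rfl)
  have hprod : ∀ x, (Rel.hinge a (L x) - max (Rel.hinge a (L x) - Rel.hinge b (M x)) 0) *
      ((L x + M x) - (a + b) - Rel.hinge (a + b) (L x + M x)) = 0 := by
    intro x
    unfold Rel.hinge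
    by_cases hx : a < L x ∧ b < M x
    · have h4 : (L x + M x) - (a + b) - max (L x + M x - (a + b)) 0 = 0 := by
        rw [max_eq_left (by linarith)]
        ring
      rw [h4, mul_zero]
    · have h4 : max (L x - a) 0 - max (max (L x - a) 0 - max (M x - b) 0) 0 = 0 := by
        rw [not_and_or, not_lt, not_lt] at hx
        rcases hx with hx | hx
        · rw [max_eq_right (a := L x - a) (by linarith)]
          have := le_max_right (M x - b) 0
          rw [max_eq_right (by linarith)]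
          ring
        · rw [max_eq_right (a := M x - b) (by linarith)]
          have := le_max_right (L x - a) 0
          rw [max_eq_left (a := max (L x - a) 0 - 0) (by linarith)]
          ring
      rw [h4, zero_mul]
  have hpq : ∀ x, max (Rel.hinge a (L x) - Rel.hinge b (M x)) 0 *
      max (Rel.hinge b (M x) - Rel.hinge a (L x)) 0 = 0 := by
    intro x
    rcases le_total (Rel.hinge a (L x)) (Rel.hinge b (M x)) with h | h
    · rw [max_eq_right (a := Rel.hinge a (L x) - Rel.hinge b (M x)) (by linarith), zero_mul]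
    · rw [max_eq_right (a := Rel.hinge b (M x) - Rel.hinge a (L x)) (by linarith), mul_zero]
  have d1 := hDP _ _ _ _ e1 e3' hprod
  have d2 := hDP _ _ _ _ hP hQ hpq
  filter_upwards [d1, d2, ae_diff μ S hH, ae_diff μ S hH', ae_diff μ S hP, ae_diff μ S hQ,
    ae_diff μ S hG, h1.2 a H hH, h2.2 b H' hH', h3.2 (a + b) G hG] with
    y d1 d2 dH dH' dP dQ dG t1 t2 t3
  rintro ⟨c1, c2, c3⟩
  have g1 := t1.1 c1
  have g2 := t2.1 c2
  have g3 : fderiv ℝ G y = 0 := t3.2 c3
  have g4 : fderiv ℝ (fun x => (ℓ x + m x) - G x) y ≠ 0 := by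
    have g5 : HasFDerivAt (fun x => (ℓ x + m x) - G x) ((ℓ + m) - fderiv ℝ G y) y :=
      (ℓ.hasFDerivAt.add m.hasFDerivAt).sub dG.hasFDerivAt
    rw [g5.fderiv, g3, sub_zero]
    exact hℓm
  have g6 : fderiv ℝ (fun x => H x - P x) y = 0 := d1.resolve_right g4
  have g7 : fderiv ℝ P y = ℓ := by
    have g8 : HasFDerivAt (fun x => H x - P x) (fderiv ℝ H y - fderiv ℝ P y) y :=
      dH.hasFDerivAt.sub dP.hasFDerivAt
    rw [g8.fderiv, g1, sub_eq_zero] at g6
    exact g6.symm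
  have g9 : fderiv ℝ Q y = 0 := by
    rcases d2 with h | h
    · exact absurd (g7.symm.trans h) hℓ
    · exact h
  have g10 : fderiv ℝ (fun x => H' x - Q x) y = 0 := by
    rw [← fderiv_of_const hconst y]
    exact g6
  have g11 : HasFDerivAt (fun x => H' x - Q x) (fderiv ℝ H' y - fderiv ℝ Q y) y :=
    dH'.hasFDerivAt.sub dQ.hasFDerivAt
  rw [g11.fderiv, g2, g9, sub_zero] at g10
  exact hm g10

end

end PSUP

theorem t_SUP : S_SUP := by
  intro E _ _ _ _ _ μ _ S hDP ℓ m L M θ θ' θ'' hℓ hm hℓm hL hM h1 h2 h3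
  have hall : ∀ᵐ y ∂μ, ∀ a b : ℚ,
      ¬ ((a : ℝ) < θ (ℓ y) ∧ (b : ℝ) < θ' (m y) ∧ θ'' (ℓ y + m y) < (a : ℝ) + b) := by
    rw [ae_all_iff]
    intro a
    rw [ae_all_iff]
    intro b
    exact PSUP.key μ S hDP hℓ hm hℓm hL hM h1 h2 h3 a b
  filter_upwards [hall] with y hy
  by_contra hcon
  push Not at hcon
  obtain ⟨a, ha1, ha2⟩ := exists_rat_btwn
    (show θ (ℓ y) - (θ (ℓ y) + θ' (m y) - θ'' (ℓ y + m y)) / 2 < θ (ℓ y) by linarith)
  obtain ⟨b, hb1, hb2⟩ := exists_rat_btwn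
    (show θ' (m y) - (θ (ℓ y) + θ' (m y) - θ'' (ℓ y + m y)) / 2 < θ' (m y) by linarith)
  exact hy a b ⟨ha2, hb2, by linarith⟩

end Pool.Agent.H273.LFR
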