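import Mathlib
import Pool.Agent.H273.LFR.Stm

/-!
# Project LFR: the piece THETA (existence of the level function)
-/

set_option autoImplicit false

open MeasureTheory Set Filter Topology
open Pool.Agent.Helper23K9.LR
open scoped ContDiff BoundedContinuousFunction

namespace Pool.Agent.H273.LFR

namespace PTHETA

lemma hinge_lip {M : Type*} [PseudoMetricSpace M] {f : M → ℝ} (h : ∃ K, LK K f) (t : ℝ) :
    ∃ K, LK K (fun x => Rel.hinge t (f x)) := by
  obtain ⟨K, hK⟩ := h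
  refine ⟨max K 0, ?_⟩
  have h1 : LK K (fun x => f x + -t) := hK.add_const (-t)
  have h2 : LK (max K 0) (fun x => f x + -t) := h1.mono (le_max_left _ _)
  have h3 : LK (max K 0) (fun _ : M => (0 : ℝ)) := fun x y => by
    have : 0 ≤ max K 0 * dist x y := mul_nonneg (le_max_right _ _) dist_nonneg
    simpa using this
  have h4 := h2.max h3
  intro x y
  have h5 := h4 x y
  simpa [Rel.hinge, sub_eq_add_neg] using h5

/-- the supremum of a family of rationals, in the extended reals -/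
noncomputable def sup (A : ℚ → Set ℝ) (s : ℝ) : EReal :=
  open Classical in ⨆ q : ℚ, if s ∈ A q then ((q : ℝ) : EReal) else ⊥

lemma measurable_sup {A : ℚ → Set ℝ} (hA : ∀ q, MeasurableSet (A q)) : Measurable (sup A) := by
  classical
  refine Measurable.iSup fun q => ?_
  exact Measurable.ite (hA q) measurable_const measurable_const

lemma le_sup {A : ℚ → Set ℝ} {s : ℝ} {q : ℚ} (h : s ∈ A q) : ((q : ℝ) : EReal) ≤ sup A s := by
  classical
  unfold sup
  refine le_trans ?_ (le_iSup _ q)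
  rw [if_pos h]

lemma sup_le {A : ℚ → Set ℝ} {s : ℝ} {c : ℝ} (h : ∀ q, s ∈ A q → (q : ℝ) ≤ c) :
    sup A s ≤ (c : EReal) := by
  classical
  unfold sup
  refine iSup_le fun q => ?_
  by_cases hq : s ∈ A q
  · rw [if_pos hq]
    exact EReal.coe_le_coe_iff.2 (h q hq)
  · rw [if_neg hq]
    exact bot_le

lemma lt_sup {A : ℚ → Set ℝ} {s : ℝ} {t : ℝ} (h : (t : EReal) < sup A s) :
    ∃ q : ℚ, t < q ∧ s ∈ A q := by
  classical
  unfold sup at h
  obtain ⟨q, hq⟩ := lt_iSup_iff.1 h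
  by_cases hs : s ∈ A q
  · rw [if_pos hs] at hq
    exact ⟨q, EReal.coe_lt_coe_iff.1 hq, hs⟩
  · rw [if_neg hs] at hq
    exact absurd hq not_lt_bot

end PTHETA

open PTHETA in
theorem t_THETA (h1 : S_HD) (h2 : S_LIM) (h3 : S_RD) : S_THETA := by
  intro E _ _ _ _ _ μ _ S hDP ℓ L hℓ hL
  have hlip : ∃ K, LK K L := S.lip hL
  have hH : ∀ t : ℝ, ∃ H : E → ℝ, S.R (fun x => Rel.hinge t (L x)) H := fun t =>
    S.tot _ (hinge_lip hlip t)
  choose H hHR using hH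
  have hHK : ∀ t, ∃ K, LK K (H t) := fun t => by
    obtain ⟨K, hK⟩ := hinge_lip hlip t
    exact ⟨K, (S.iso (hHR t) K).1 hK⟩
  -- the sets of RD
  have hA : ∀ q : ℚ, ∃ A : Set ℝ, MeasurableSet A ∧
      ∀ᵐ y ∂μ, (ℓ y ∈ A → fderiv ℝ (H q) y = ℓ) ∧ (ℓ y ∉ A → fderiv ℝ (H q) y = 0) := by
    intro q
    obtain ⟨K, hK⟩ := hHK q
    refine h3 E μ ℓ (H q) K hℓ hK ?_
    filter_upwards [h1 E μ S hDP ℓ L hL q q (H q) (H q) le_rfl (hHR q) (hHR q)] with y hy
    rcases hy with h | h | h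
    · exact Or.inl h.1
    · exact Or.inl h.2
    · exact Or.inr h.1
  choose A hAm hAe using hA
  obtain ⟨hlim1, hlim2⟩ := h2 E μ S hDP ℓ L hL
  -- the good points
  have hgood : ∀ᵐ y ∂μ, (∀ q : ℚ, (ℓ y ∈ A q → fderiv ℝ (H q) y = ℓ) ∧
      (ℓ y ∉ A q → fderiv ℝ (H q) y = 0)) ∧
      (∀ q q' : ℚ, q ≤ q' → ℓ y ∈ A q' → ℓ y ∈ A q) ∧
      (∃ q : ℚ, ℓ y ∈ A q) ∧ ∃ q : ℚ, ℓ y ∉ A q := by
    have e1 : ∀ᵐ y ∂μ, ∀ q : ℚ, (ℓ y ∈ A q → fderiv ℝ (H q) y = ℓ) ∧
      (ℓ y ∉ A q → fderiv ℝ (H q) y = 0) := ae_all_iff.2 hAe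
    have e2 : ∀ᵐ y ∂μ, ∀ q q' : ℚ, q ≤ q' →
        (fderiv ℝ (H q) y = 0 ∧ fderiv ℝ (H q') y = 0) ∨
        (fderiv ℝ (H q) y = ℓ ∧ fderiv ℝ (H q') y = 0) ∨
        (fderiv ℝ (H q) y = ℓ ∧ fderiv ℝ (H q') y = ℓ) := by
      refine ae_all_iff.2 fun q => ae_all_iff.2 fun q' => ?_
      by_cases hq : q ≤ q'
      · filter_upwards [h1 E μ S hDP ℓ L hL q q' (H q) (H q') (by exact_mod_cast hq) (hHR q)
          (hHR q')] with y hy _
        exact hy
      · exact Eventually.of_forall fun y h => absurd h hq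
    have e3 := hlim1 (fun n => H (-(n : ℝ))) (fun n => hHR _)
    have e4 := hlim2 (fun n => H (n : ℝ)) (fun n => hHR _)
    filter_upwards [e1, e2, e3, e4] with y a1 a2 a3 a4
    refine ⟨a1, ?_, ?_, ?_⟩
    · intro q q' hq hy
      by_contra hcon
      have b1 := (a1 q').1 hy
      have b2 := (a1 q).2 hcon
      rcases a2 q q' hq with h | h | h
      · exact hℓ (b1.symm.trans h.2)
      · exact hℓ (b1.symm.trans h.2)
      · exact hℓ (h.1.symm.trans b2)
    · obtain ⟨n, hn⟩ := a3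
      refine ⟨-(n : ℚ), ?_⟩
      by_contra hcon
      have b2 := (a1 (-(n : ℚ))).2 hcon
      have b3 : ((-(n : ℚ) : ℚ) : ℝ) = -(n : ℝ) := by push_cast; rfl
      rw [b3] at b2
      exact hℓ (hn.symm.trans b2)
    · obtain ⟨n, hn⟩ := a4
      refine ⟨(n : ℚ), ?_⟩
      intro hcon
      have b2 := (a1 (n : ℚ)).1 hcon
      have b3 : ((n : ℚ) : ℝ) = (n : ℝ) := by push_cast; rfl
      rw [b3] at b2
      exact hℓ (b2.symm.trans hn)
  -- at the good points the supremum is real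
  have hreal : ∀ᵐ y ∂μ, (((sup A (ℓ y)).toReal : ℝ) : EReal) = sup A (ℓ y) := by
    filter_upwards [hgood] with y hy
    obtain ⟨-, a2, ⟨q1, hq1⟩, q2, hq2⟩ := hy
    have b1 : ((q1 : ℝ) : EReal) ≤ sup A (ℓ y) := le_sup hq1
    have b2 : sup A (ℓ y) ≤ ((q2 : ℝ) : EReal) := sup_le fun q hq => by
      by_contra hcon
      push Not at hcon
      exact hq2 (a2 q2 q (by exact_mod_cast hcon.le) hq)
    apply EReal.coe_toReal
    · intro h
      rw [h] at b2
      exact absurd (lt_of_le_of_lt b2 (EReal.coe_lt_top _)) (lt_irrefl _)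
    · intro h
      rw [h] at b1
      exact absurd (lt_of_lt_of_le (EReal.bot_lt_coe _) b1) (lt_irrefl _)
  refine ⟨fun s => (sup A s).toReal, (measurable_sup hAm).ereal_toReal, ?_⟩
  intro t H' hH'
  have e5 : ∀ᵐ y ∂μ, ∀ q : ℚ, t ≤ q →
      (fderiv ℝ H' y = 0 ∧ fderiv ℝ (H q) y = 0) ∨
      (fderiv ℝ H' y = ℓ ∧ fderiv ℝ (H q) y = 0) ∨
      (fderiv ℝ H' y = ℓ ∧ fderiv ℝ (H q) y = ℓ) := by
    refine ae_all_iff.2 fun q => ?_
    by_cases hq : t ≤ q
    · filter_upwards [h1 E μ S hDP ℓ L hL t q H' (H q) hq hH' (hHR q)] with y hy _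
      exact hy
    · exact Eventually.of_forall fun y h => absurd h hq
  have e6 : ∀ᵐ y ∂μ, ∀ q : ℚ, (q : ℝ) ≤ t →
      (fderiv ℝ (H q) y = 0 ∧ fderiv ℝ H' y = 0) ∨
      (fderiv ℝ (H q) y = ℓ ∧ fderiv ℝ H' y = 0) ∨
      (fderiv ℝ (H q) y = ℓ ∧ fderiv ℝ H' y = ℓ) := by
    refine ae_all_iff.2 fun q => ?_
    by_cases hq : (q : ℝ) ≤ t
    · filter_upwards [h1 E μ S hDP ℓ L hL q t (H q) H' hq (hHR q) hH'] with y hy _
      exact hy
    · exact Eventually.of_forall fun y h => absurd h hq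
  filter_upwards [hgood, hreal, e5, e6] with y hy hr a5 a6
  obtain ⟨a1, -, -, -⟩ := hy
  constructor
  · intro ht
    have ht' : (t : EReal) < sup A (ℓ y) := by
      rw [← hr]
      exact EReal.coe_lt_coe_iff.2 ht
    obtain ⟨q, hq, hm⟩ := lt_sup ht'
    have b1 := (a1 q).1 hm
    rcases a5 q hq.le with h | h | h
    · exact absurd (b1.symm.trans h.2) hℓ
    · exact h.1
    · exact h.1
  · intro ht
    obtain ⟨q, hq1, hq2⟩ := exists_rat_btwn ht
    have hm : ℓ y ∉ A q := by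
      intro hm
      have b1 := le_sup hm
      rw [← hr, EReal.coe_le_coe_iff] at b1
      linarith
    have b2 := (a1 q).2 hm
    rcases a6 q hq2.le with h | h | h
    · exact h.2
    · exact h.2
    · exact absurd (h.1.symm.trans b2) hℓ

end Pool.Agent.H273.LFR
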