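import Mathlib
import Pool.Agent.H273.LFR.Stm

/-!
# Project LFR, job WEAK: weak-* convergence of directional derivatives
-/

set_option autoImplicit false

open MeasureTheory Set Filter Topology
open Pool.Agent.Helper23K9.LR
open scoped ContDiff NNReal

namespace Pool.Agent.H273.LFR.PWEAK

section

variable {E : Type} [NormedAddCommGroup E] [NormedSpace ℝ E] [FiniteDimensional ℝ E]
  [MeasurableSpace E] [BorelSpace E] {μ : Measure E} [μ.IsAddHaarMeasure]

set_option linter.unusedSectionVars false in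
theorem approx {h φ : E → ℝ} {C : ℝ≥0} (hh : LipschitzWith C h) (v : E) {D : Set E}
    (hD : MeasurableSet D) (hD' : μ D ≠ ⊤) {ε : ℝ} (hε : 0 < ε) (hφc : HasCompactSupport φ)
    (hφ : ContDiff ℝ ∞ φ) (hn : eLpNorm (D.indicator (fun _ => (1 : ℝ)) - φ) 1 μ ≤ ENNReal.ofReal ε) :
    |(∫ y in D, lineDeriv ℝ h y v ∂μ) - ∫ y, lineDeriv ℝ h y v * φ y ∂μ| ≤ C * ‖v‖ * ε := by
  have hi1 : Integrable (D.indicator (fun _ => (1 : ℝ))) μ :=
    (integrable_indicator_iff hD).2 (integrableOn_const hD')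
  have hi2 : Integrable φ μ := hφ.continuous.integrable_of_hasCompactSupport hφc
  have hM := hh.memLp_lineDeriv (μ := μ) v
  have j1 : Integrable (fun y => D.indicator (fun _ => (1 : ℝ)) y * lineDeriv ℝ h y v) μ :=
    hi1.smul_of_top_left hM
  have j2 : Integrable (fun y => φ y * lineDeriv ℝ h y v) μ := hi2.smul_of_top_left hM
  have e1 : ∫ y in D, lineDeriv ℝ h y v ∂μ =
      ∫ y, D.indicator (fun _ => (1 : ℝ)) y * lineDeriv ℝ h y v ∂μ := by
    rw [← integral_indicator hD]
    congr 1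
    funext y
    by_cases hy : y ∈ D
    · simp [hy]
    · simp [hy]
  have e2 : ∫ y, lineDeriv ℝ h y v * φ y ∂μ = ∫ y, φ y * lineDeriv ℝ h y v ∂μ := by
    congr 1
    funext y
    ring
  rw [e1, e2, ← integral_sub j1 j2, ← Real.norm_eq_abs]
  have hi3 : Integrable (fun y => ‖(D.indicator (fun _ => (1 : ℝ)) - φ) y‖) μ := (hi1.sub hi2).norm
  have hle : ∫ y, ‖(D.indicator (fun _ => (1 : ℝ)) - φ) y‖ ∂μ ≤ ε := by
    rw [integral_norm_eq_lintegral_enorm (hi1.sub hi2).aestronglyMeasurable]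
    rw [eLpNorm_one_eq_lintegral_enorm] at hn
    exact ENNReal.toReal_le_of_le_ofReal hε.le hn
  refine (norm_integral_le_of_norm_le (hi3.const_mul (C * ‖v‖)) (Eventually.of_forall ?_)).trans ?_
  · intro y
    have h1 : ‖lineDeriv ℝ h y v‖ ≤ C * ‖v‖ := norm_lineDeriv_le_of_lipschitz ℝ hh
    rw [← sub_mul, norm_mul, mul_comm]
    exact mul_le_mul_of_nonneg_right h1 (norm_nonneg _)
  · rw [integral_const_mul]
    gcongr

theorem conv {g : ℕ → E → ℝ} {g0 φ : E → ℝ} {C : ℝ≥0} (hg : ∀ n, LipschitzWith C (g n))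
    (hg0 : LipschitzWith C g0) (h0 : ∀ n, g n 0 = 0) (hlim : ∀ x, Tendsto (fun n => g n x) atTop (𝓝 (g0 x)))
    (v : E) (hφc : HasCompactSupport φ) (hφ : ContDiff ℝ ∞ φ) :
    Tendsto (fun n => ∫ y, lineDeriv ℝ (g n) y v * φ y ∂μ) atTop
      (𝓝 (∫ y, lineDeriv ℝ g0 y v * φ y ∂μ)) := by
  obtain ⟨K, hK⟩ : ∃ K, LipschitzWith K φ :=
    ContDiff.lipschitzWith_of_hasCompactSupport hφc hφ (by simp)
  simp only [fun n => (hg n).integral_lineDeriv_mul_eq (μ := μ) hK hφc v,
    hg0.integral_lineDeriv_mul_eq (μ := μ) hK hφc v]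
  have hfd : ∀ x, lineDeriv ℝ φ x (-v) = fderiv ℝ φ x (-v) := fun x =>
    ((hφ.differentiable (by simp)).differentiableAt).lineDeriv_eq_fderiv
  simp only [hfd]
  have hcd : Continuous (fun x => fderiv ℝ φ x (-v)) :=
    (hφ.continuous_fderiv (by simp)).clm_apply continuous_const
  have hcs : HasCompactSupport (fun x => fderiv ℝ φ x (-v)) := by
    have h1 : HasCompactSupport (fderiv ℝ φ) := hφc.fderiv (𝕜 := ℝ)
    exact h1.comp_left (g := fun T : E →L[ℝ] ℝ => T (-v)) (by simp)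
  refine tendsto_integral_of_dominated_convergence
    (fun x => ‖fderiv ℝ φ x (-v)‖ * (C * ‖x‖)) ?_ ?_ ?_ ?_
  · intro n
    exact (hcd.mul (hg n).continuous).aestronglyMeasurable
  · refine Continuous.integrable_of_hasCompactSupport ?_ ?_
    · exact hcd.norm.mul (continuous_const.mul continuous_norm)
    · exact hcs.norm.mul_right
  · intro n
    refine Eventually.of_forall fun x => ?_
    rw [norm_mul]
    have h1 := (hg n).norm_sub_le x 0
    rw [h0 n, sub_zero, sub_zero] at h1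
    gcongr
  · exact Eventually.of_forall fun x => (hlim x).const_mul _

end

end Pool.Agent.H273.LFR.PWEAK

namespace Pool.Agent.H273.LFR

theorem t_WEAK : S_WEAK := by
  intro E _ _ _ _ _ μ _ g g0 L hL hlim v D hD hD'
  have hL0 : LK L g0 := LK_of_tendsto hL hlim
  -- normalise at the origin
  have hl : ∀ (f : E → ℝ) (c : ℝ) (y : E), lineDeriv ℝ (fun x => f x - c) y v = lineDeriv ℝ f y v := by
    intro f c y
    unfold lineDeriv
    exact deriv_sub_const c
  have hLs : ∀ (f : E → ℝ) (c : ℝ), LK L f → LipschitzWith L.toNNReal (fun x => f x - c) := by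
    intro f c hf
    have : LK L (fun x => f x - c) := fun x y => by
      have := hf x y
      simpa using this
    exact this.lipschitz
  have key : ∀ η : ℝ, 0 < η → ∀ᶠ n in atTop, |(∫ y in D, lineDeriv ℝ (g n) y v ∂μ) -
      ∫ y in D, lineDeriv ℝ g0 y v ∂μ| < η := by
    intro η hη
    set C : NNReal := L.toNNReal with hC
    have hCv : 0 < (C : ℝ) * ‖v‖ + 1 := by positivity
    set ε : ℝ := η / (3 * (C * ‖v‖ + 1)) with hε
    have hε0 : 0 < ε := by positivity
    have hi1 : MemLp (D.indicator (fun _ => (1 : ℝ))) 1 μ :=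
      memLp_one_iff_integrable.2 ((integrable_indicator_iff hD).2 (integrableOn_const hD'))
    obtain ⟨φ, hφc, hφ, hn⟩ := hi1.exist_eLpNorm_sub_le (by simp) le_rfl hε0
    have hconv := PWEAK.conv (μ := μ) (g := fun n x => g n x - g n 0) (g0 := fun x => g0 x - g0 0)
      (C := C) (fun n => hLs (g n) (g n 0) (hL n)) (hLs g0 (g0 0) hL0) (fun n => sub_self _)
      (fun x => hlim x 0) v hφc hφ
    have hsmall : (C : ℝ) * ‖v‖ * ε ≤ η / 3 := by
      rw [hε, mul_div_assoc', div_le_div_iff₀ (by positivity) (by norm_num)]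
      nlinarith
    filter_upwards [(Metric.tendsto_nhds.1 hconv) (η / 3) (by positivity)] with n hn'
    rw [Real.dist_eq] at hn'
    have a1 := PWEAK.approx (μ := μ) (hLs (g n) (g n 0) (hL n)) v hD hD' hε0 hφc hφ hn
    have a2 := PWEAK.approx (μ := μ) (hLs g0 (g0 0) hL0) v hD hD' hε0 hφc hφ hn
    simp only [hl] at a1 a2 hn'
    rw [abs_le] at a1 a2
    rw [abs_lt] at hn' ⊢
    constructor <;> linarith [a1.1, a1.2, a2.1, a2.2, hn'.1, hn'.2]
  rw [Metric.tendsto_nhds]
  intro η hη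
  simpa only [Real.dist_eq] using key η hη

end Pool.Agent.H273.LFR
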