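import Mathlib
import Pool.Agent.H273.LFR.Asm
import Pool.Agent.H273.LFR.P_WEAK
import Pool.Agent.H273.LFR.P_MOLL
import Pool.Agent.H273.LFR.P_ANTI
import Pool.Agent.H273.LFR.P_PAIR
import Pool.Agent.H273.LFR.P_POS
import Pool.Agent.H273.LFR.P_HB
import Pool.Agent.H273.LFR.P_CUT
import Pool.Agent.H273.LFR.P_CHI
import Pool.Agent.H273.LFR.P_SPLIT
import Pool.Agent.H273.LFR.P_SETF
import Pool.Agent.H273.LFR.P_KL1
import Pool.Agent.H273.LFR.P_DENS
import Pool.Agent.H273.LFR.P_KL2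
import Pool.Agent.H273.LFR.P_DPT
import Pool.Agent.H273.LFR.P_RIDGE
import Pool.Agent.H273.LFR.P_RD
import Pool.Agent.H273.LFR.P_HD
import Pool.Agent.H273.LFR.P_LIM
import Pool.Agent.H273.LFR.P_THETA
import Pool.Agent.H273.LFR.P_ODD
import Pool.Agent.H273.LFR.P_SUP
import Pool.Agent.H273.LFR.P_AFF
import Pool.Agent.H273.LFR.P_HNG
import Pool.Agent.H273.LFR.P_LIN
import Pool.Agent.H273.LFR.P_HIN
import Pool.Agent.H273.LFR.P_SEP
import Pool.Agent.H273.LFR.P_FIN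
import Pool.Agent.H273.LFR.P_EXPO
import Pool.Agent.H273.LFR.P_EXPA

set_option autoImplicit false

open Pool.Agent.Helper23K9.LR

namespace Pool.Agent.H273.LFR

theorem kl1 : S_KL1 :=
  t_KL1 (t_SPLIT (t_CUT t_MOLL t_HB) t_CHI) (t_SETF t_WEAK) (t_POS t_ANTI t_PAIR)

theorem kl2 : S_KL2 := t_KL2 kl1 t_DENS t_CHI

theorem dpt : S_DPT := t_DPT kl1 kl2 t_WEAK

theorem theta : S_THETA := t_THETA t_HD (t_LIM t_HD t_WEAK) (t_RD t_RIDGE)

theorem hin : S_HIN := t_HIN theta t_ODD (t_AFF t_ODD t_SUP) (t_HNG t_RIDGE) t_LIN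

/-- Every finite-dimensional real normed space of dimension at least two is Lipschitz-free rigid. -/
theorem rigid (E : Type) [NormedAddCommGroup E] [NormedSpace ℝ E] [FiniteDimensional ℝ E]
    (h : 2 ≤ Module.finrank ℝ E) : LipFreeRigid E :=
  rigid_of dpt (t_FIN hin t_SEP) (t_EXPA t_EXPO) E h

/-- `ℝ^d` with the Manhattan distance, `d ≥ 2`, is Lipschitz-free rigid. -/
theorem manhattan (d : ℕ) (hd : 2 ≤ d) : LipFreeRigid (PiLp 1 (fun _ : Fin d => ℝ)) :=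
  manhattan_of rigid d hd

end Pool.Agent.H273.LFR
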