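import Mathlib
import Pool.Agent.H273.LFR.Stm

set_option autoImplicit false

open MeasureTheory Set Filter Topology
open Pool.Agent.Helper23K9.LR

namespace Pool.Agent.H273.LFR

namespace PFIN

variable {E : Type} [NormedAddCommGroup E] [NormedSpace ℝ E]

lemma LK_clm (ℓ : E →L[ℝ] ℝ) : LK ‖ℓ‖ (fun x => ℓ x) := fun x y => by
  rw [← map_sub, dist_eq_norm]
  exact (le_abs_self _).trans (ℓ.le_opNorm _)

variable (S : Rel E)

/-- the image of a functional, normalised at the origin -/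
noncomputable def bb (ℓ : E →L[ℝ] ℝ) (x : E) : ℝ :=
  Classical.choose (S.tot (fun x => ℓ x) ⟨_, LK_clm ℓ⟩) x -
    Classical.choose (S.tot (fun x => ℓ x) ⟨_, LK_clm ℓ⟩) 0

lemma R_bb (ℓ : E →L[ℝ] ℝ) : S.R (fun x => ℓ x) (bb S ℓ) := by
  refine S.congr (Classical.choose_spec (S.tot (fun x => ℓ x) ⟨_, LK_clm ℓ⟩))
    (fun _ _ => rfl) (fun x y => ?_)
  unfold bb
  ring

lemma bb_zero (ℓ : E →L[ℝ] ℝ) : bb S ℓ 0 = 0 := by unfold bb; ring

lemma bb_comb (a c : ℝ) (ℓ m : E →L[ℝ] ℝ) (x : E) :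
    bb S (a • ℓ + c • m) x = a * bb S ℓ x + c * bb S m x := by
  have h1 := S.lin (R_bb S ℓ) (R_bb S m) a c
  have h2 := R_bb S (a • ℓ + c • m)
  have h3 : (fun x => a * ℓ x + c * m x) = (fun x => (a • ℓ + c • m) x) := by
    funext x
    simp
  rw [h3] at h1
  have h4 := Rel.uniq h2 h1 x 0
  simp only [bb_zero] at h4
  linarith

lemma bb_add (ℓ m : E →L[ℝ] ℝ) (x : E) : bb S (ℓ + m) x = bb S ℓ x + bb S m x := by
  have := bb_comb S 1 1 ℓ m x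
  simpa using this

lemma bb_smul (a : ℝ) (ℓ : E →L[ℝ] ℝ) (x : E) : bb S (a • ℓ) x = a * bb S ℓ x := by
  have := bb_comb S a 0 ℓ ℓ x
  simpa using this

end PFIN

open PFIN in
theorem t_FIN (h1 : S_HIN) (h2 : S_SEP) : S_FIN := by
  intro E _ _ _ _ _ μ _ hdim hDP T
  set S := relOf T with hS
  obtain ⟨κ, C, hκ, hH⟩ := h1 E μ S.symm (hDP S.symm) hdim
  set L : E → Module.Dual ℝ (Module.Dual ℝ E) := fun p =>
    { toFun := fun φ => κ⁻¹ * (bb S (LinearMap.toContinuousLinearMap φ) p -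
        C (LinearMap.toContinuousLinearMap φ))
      map_add' := fun φ ψ => by rw [map_add, bb_add, map_add]; ring
      map_smul' := fun r φ => by
        rw [map_smul, bb_smul, map_smul, smul_eq_mul, smul_eq_mul, RingHom.id_apply]; ring } with hL
  set Ψ : E → E := fun p => (Module.evalEquiv ℝ E).symm (L p) with hΨ
  have hb : ∀ (ℓ : E →L[ℝ] ℝ) (p : E), bb S ℓ p = κ * ℓ (Ψ p) + C ℓ := by
    intro ℓ p
    have h3 : (ℓ : E →ₗ[ℝ] ℝ) (Ψ p) = L p (ℓ : E →ₗ[ℝ] ℝ) :=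
      Module.apply_evalEquiv_symm_apply ℝ E (ℓ : E →ₗ[ℝ] ℝ) (L p)
    have h4 : LinearMap.toContinuousLinearMap (ℓ : E →ₗ[ℝ] ℝ) = ℓ := by
      ext x; rfl
    have h5 : L p (ℓ : E →ₗ[ℝ] ℝ) = κ⁻¹ * (bb S ℓ p - C ℓ) := by
      show κ⁻¹ * (bb S (LinearMap.toContinuousLinearMap (ℓ : E →ₗ[ℝ] ℝ)) p -
        C (LinearMap.toContinuousLinearMap (ℓ : E →ₗ[ℝ] ℝ))) = _
      rw [h4]
    have h6 : ℓ (Ψ p) = κ⁻¹ * (bb S ℓ p - C ℓ) := by rw [← h5, ← h3]; rfl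
    rw [h6]
    field_simp
    ring
  refine ⟨κ, Ψ, hκ, fun p q => ?_⟩
  rw [← sub_eq_zero]
  apply h2
  intro m t
  have hK : LK (1 * ‖m‖) (fun y => Rel.hinge t (m y)) :=
    Rel.LK.comp_real zero_le_one (Rel.LK_hinge_real t) (LK_clm m)
  have h3 := hH (κ⁻¹ • m) (bb S (κ⁻¹ • m)) (R_bb S (κ⁻¹ • m)) (bb_zero S _) (t + C (κ⁻¹ • m))
  have e1 : ∀ y : E, κ * (κ⁻¹ • m) y = m y := by
    intro y
    show κ * (κ⁻¹ * m y) = m y
    rw [mul_inv_cancel_left₀ hκ]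
  have e2 : (fun y : E => κ⁻¹ * Rel.hinge (t + C (κ⁻¹ • m)) (κ * (κ⁻¹ • m) y + C (κ⁻¹ • m))) =
      fun y => κ⁻¹ * Rel.hinge t (m y) := by
    funext y
    rw [e1]
    unfold Rel.hinge
    congr 2
    ring
  have e3 : (fun y : E => Rel.hinge (t + C (κ⁻¹ • m)) (bb S (κ⁻¹ • m) y)) =
      fun y => Rel.hinge t (m (Ψ y)) := by
    funext y
    rw [hb, e1]
    unfold Rel.hinge
    congr 1
    ring
  rw [e2, e3] at h3
  obtain ⟨-, ⟨K, h5⟩, h6⟩ := h3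
  have h7 := h6 (mol p q)
  rw [fn_mol h5] at h7
  have h8 : fn (fun y => κ⁻¹ * Rel.hinge t (m y)) (T (mol p q)) =
      κ⁻¹ * fn (fun y => Rel.hinge t (m y)) (T (mol p q)) := by
    have := fn_lin hK hK κ⁻¹ 0 (T (mol p q))
    simpa using this
  rw [h8] at h7
  rw [map_sub, map_smul, fn_mol hK, smul_eq_mul, h7, mul_inv_cancel_left₀ hκ, sub_self]

end Pool.Agent.H273.LFR
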