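import Mathlib
import Pool.Agent.H273.LFR.Stm

/-!
# Project LFR, task KL2: the key lemma in two directions
-/

set_option autoImplicit false

open MeasureTheory Set Filter Topology
open Pool.Agent.Helper23K9.LR
open scoped ContDiff

namespace Pool.Agent.H273.LFR

namespace PKL2

variable {E : Type} [NormedAddCommGroup E]

theorem LK_nonneg {f : E → ℝ} {L : ℝ} (h : LK L f) {v : E} (hv : v ≠ 0) : 0 ≤ L := by
  have h1 := h v 0
  have h2 := h 0 v
  rw [dist_comm 0 v] at h2
  have h3 : 0 < dist v 0 := dist_pos.mpr hv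
  have h4 : 0 ≤ L * dist v 0 := by linarith
  exact nonneg_of_mul_nonneg_left h4 h3

/-- product of a cut-off function and a Lipschitz function -/
theorem LK_cut {f χ : E → ℝ} {L M R : ℝ} (hL : 0 ≤ L) (hM : 0 ≤ M) (hR : 0 ≤ R) (hf : LK L f)
    (hf0 : f 0 = 0) (hχ : LK M χ) (h01 : ∀ x, 0 ≤ χ x ∧ χ x ≤ 1)
    (hs : ∀ x, R < ‖x‖ → χ x = 0) : LK ((1 + M * R) * L) (fun x => χ x * f x) := by
  have hfx : ∀ x, |f x| ≤ L * ‖x‖ := by
    intro x
    have := hf.abs x 0
    rwa [hf0, sub_zero, dist_zero_right] at this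
  have key : ∀ x y, ‖y‖ ≤ R → |χ x * f x - χ y * f y| ≤ (1 + M * R) * L * dist x y := by
    intro x y hy
    have e : χ x * f x - χ y * f y = χ x * (f x - f y) + f y * (χ x - χ y) := by ring
    rw [e]
    refine (abs_add_le _ _).trans ?_
    rw [abs_mul, abs_mul]
    have h1 : |χ x| ≤ 1 := by rw [abs_of_nonneg (h01 x).1]; exact (h01 x).2
    have h2 : |χ x| * |f x - f y| ≤ 1 * (L * dist x y) :=
      mul_le_mul h1 (hf.abs x y) (abs_nonneg _) zero_le_one
    have h3 : |f y| ≤ L * R := (hfx y).trans (mul_le_mul_of_nonneg_left hy hL)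
    have h4 : |f y| * |χ x - χ y| ≤ (L * R) * (M * dist x y) :=
      mul_le_mul h3 (hχ.abs x y) (abs_nonneg _) (mul_nonneg hL hR)
    calc |χ x| * |f x - f y| + |f y| * |χ x - χ y| ≤ 1 * (L * dist x y) + (L * R) * (M * dist x y) :=
          add_le_add h2 h4
      _ = (1 + M * R) * L * dist x y := by ring
  intro x y
  have hnn : 0 ≤ (1 + M * R) * L * dist x y := by positivity
  rcases le_or_gt ‖y‖ R with hy | hy
  · exact (le_abs_self _).trans (key x y hy)
  · rcases le_or_gt ‖x‖ R with hx | hx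
    · have := key y x hx
      rw [abs_sub_comm, dist_comm] at this
      exact (le_abs_self _).trans this
    · beta_reduce
      rw [hs x hx, hs y hy, zero_mul, zero_mul, sub_zero]
      exact hnn

end PKL2

open PKL2 in
theorem t_KL2 (h1 : S_KL1) (h2 : S_DENS) (h3 : S_CHI) : S_KL2 := by
  intro E _ _ _ _ _ μ _ S v w ξ ζ hv hw hvw f₁ f₂ g₁ g₂ hfg₁ hfg₂ hc hd
  have hv0 : v ≠ 0 := by
    intro h
    have := hv.1
    rw [h, norm_zero] at this
    exact zero_ne_one this
  obtain ⟨χ, hχs, hχc, hχ01, hχ1, hχd⟩ := h3 E f₁ f₂ hc hd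
  obtain ⟨K₁, hK₁⟩ := S.symm.lip hfg₁
  obtain ⟨K₂, hK₂⟩ := S.symm.lip hfg₂
  have hg₁c : Continuous g₁ := hK₁.continuous
  have hg₂c : Continuous g₂ := hK₂.continuous
  set D : Set E := {y | lineDeriv ℝ g₁ y v ≠ 0 ∧ lineDeriv ℝ g₂ y w ≠ 0} with hD
  have hDm : MeasurableSet D := by
    have m1 : Measurable (fun y => lineDeriv ℝ g₁ y v) := measurable_lineDeriv hg₁c
    have m2 : Measurable (fun y => lineDeriv ℝ g₂ y w) := measurable_lineDeriv hg₂c
    exact (m1 (measurableSet_singleton 0).compl).inter (m2 (measurableSet_singleton 0).compl)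
  obtain ⟨M, hM⟩ := ContDiff.lipschitzWith_of_hasCompactSupport hχc hχs (by simp)
  have hχL : LK (M : ℝ) χ := by
    intro x y
    have := hM.dist_le_mul x y
    rw [Real.dist_eq] at this
    exact (le_abs_self _).trans this
  obtain ⟨R, hR⟩ := hχc.isCompact.isBounded.subset_closedBall (0 : E)
  have hRs : ∀ x, max R 0 < ‖x‖ → χ x = 0 := by
    intro x hx
    by_contra hne
    have h4 : x ∈ tsupport χ := subset_tsupport _ hne
    have h5 := hR h4
    rw [mem_closedBall_zero_iff] at h5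
    exact absurd (h5.trans (le_max_left R 0)) (not_le.mpr hx)
  have hμD : μ D = 0 := by
    refine h2 E μ v w hvw D hDm (1 + M * max R 0) ?_
    intro g L hg
    have hL : 0 ≤ L := LK_nonneg hg hv0
    obtain ⟨f₀, hf₀⟩ := S.surj g ⟨L, hg⟩
    set f : E → ℝ := fun x => f₀ x - f₀ 0 with hf
    have hfR : S.R f g := S.congr hf₀ (fun x y => by simp [hf]) (fun x y => rfl)
    have hfL : LK L f := (S.iso hfR L).2 hg
    have hf0 : f 0 = 0 := by simp [hf]
    have hcut : LK ((1 + M * max R 0) * L) (fun x => χ x * f x) :=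
      LK_cut hL M.coe_nonneg (le_max_right _ _) hfL hf0 hχL hχ01 hRs
    obtain ⟨k, hk⟩ := S.tot (fun x => χ x * f x) ⟨_, hcut⟩
    have hkL : LK ((1 + M * max R 0) * L) k := (S.iso hk _).1 hcut
    refine ⟨k, hkL, ?_⟩
    -- the pair `(χ f, f₂)`
    have hA := h1 E μ S w ζ hw (fun x => χ x * f x) f₂ k g₂ hk hfg₂ hχc.mul_right
      (hχd.mono_left tsupport_mul_subset_left)
    -- the pair `(f₁, f - χ f)`
    have hsub := Rel.sub hfR hk
    have hdis : Disjoint (tsupport f₁) (tsupport (fun x => f x - χ x * f x)) := by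
      obtain ⟨O, hO, hO1, hO2⟩ := eventually_nhdsSet_iff_exists.mp hχ1
      have h4 : tsupport (fun x => f x - χ x * f x) ⊆ Oᶜ := by
        refine closure_minimal ?_ hO.isClosed_compl
        intro x hx hxO
        apply hx
        beta_reduce
        rw [hO2 x hxO, one_mul, sub_self]
      exact (disjoint_compl_right_iff_subset.mpr hO1).mono_right h4
    have hB := h1 E μ S v ξ hv f₁ (fun x => f x - χ x * f x) g₁ (fun x => g x - k x) hfg₁ hsub
      hc hdis
    have hgd : ∀ᵐ y ∂μ, LineDifferentiableAt ℝ g y v := hg.lipschitz.ae_lineDifferentiableAt v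
    have hkd : ∀ᵐ y ∂μ, LineDifferentiableAt ℝ k y v := hkL.lipschitz.ae_lineDifferentiableAt v
    filter_upwards [hA, hB, hgd, hkd] with y hA hB hgd hkd hy
    have h4 : lineDeriv ℝ (fun x => g x - k x) y v = lineDeriv ℝ g y v - lineDeriv ℝ k y v := by
      unfold lineDeriv
      exact deriv_fun_sub hgd hkd
    have h5 := (mul_eq_zero.mp hB).resolve_left hy.1
    rw [h4] at h5
    exact ⟨by linarith, (mul_eq_zero.mp hA).resolve_right hy.2⟩
  have h4 : ∀ᵐ y ∂μ, y ∉ D := measure_eq_zero_iff_ae_notMem.mp hμD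
  filter_upwards [h4] with y hy
  by_contra hne
  rw [mul_eq_zero, not_or] at hne
  exact hy hne

end Pool.Agent.H273.LFR
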